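import Pool.Agent.LCyc.Defs

/-!
# Algebraic extensions and points with coordinates in a field
-/

set_option autoImplicit false

namespace Pool.Agent.LCyc

open Pool.Agent.ZCyc

universe u w

variable {k : Type u} [Field k] {J : Type}

section LC11

/-- `F` is algebraic over the algebra generated by `s` if the field generated by `s` contains `f` and
the powers of the coordinates of `x` -/
theorem isAlgebraic_adjoin {K : Type u} [Field K] [Algebra k K] {F : Type u} [Field F]
    [Algebra k F] [Algebra K F] [IsScalarTower k K F] {x : J → K} (hdeg : degree k x ≠ 0) {m : ℕ}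
    (hm : 0 < m) {f : F} (hfin : FiniteDimensional (IntermediateField.adjoin K {f}) F) {s : Set F}
    (hf : f ∈ IntermediateField.adjoin k s)
    (hx : ∀ j, algebraMap K F (x j) ^ m ∈ IntermediateField.adjoin k s) (y : F) :
    IsAlgebraic (Algebra.adjoin k s) y := by
  rw [← IntermediateField.isAlgebraic_adjoin_iff]
  -- the algebraic closure of `E = k(s)` in `F`
  have hmemC : ∀ z : F, z ∈ algebraicClosure (IntermediateField.adjoin k s) F ↔
      IsAlgebraic (IntermediateField.adjoin k s) z := fun z => mem_algebraicClosure_iff
  have hEC : ∀ z ∈ IntermediateField.adjoin k s,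
      z ∈ algebraicClosure (IntermediateField.adjoin k s) F := fun z hz =>
    (algebraicClosure (IntermediateField.adjoin k s) F).algebraMap_mem ⟨z, hz⟩
  have hxC : ∀ j, algebraMap K F (x j) ∈ algebraicClosure (IntermediateField.adjoin k s) F := by
    intro j
    rw [hmemC]
    exact IsAlgebraic.of_pow hm ((hmemC _).1 (hEC _ (hx j)))
  -- the image of `ratios k x`
  have hratios : ∀ r ∈ ratios k x,
      algebraMap K F r ∈ algebraicClosure (IntermediateField.adjoin k s) F := by
    intro r hr
    have h1 : ratios k x ≤ ((algebraicClosure (IntermediateField.adjoin k s) F).restrictScalars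
        k).comap (IsScalarTower.toAlgHom k K F) := by
      rw [ratios, IntermediateField.adjoin_le_iff]
      rintro _ ⟨p, rfl⟩
      change algebraMap K F (x p.1 / x p.2) ∈ algebraicClosure (IntermediateField.adjoin k s) F
      rw [map_div₀]
      exact div_mem (hxC _) (hxC _)
    exact h1 hr
  -- an element of `F` that is algebraic over a subfield of the algebraic closure is in it
  have hclosed : ∀ {A : Type u} [Field A] [Algebra A F] (z : F), IsAlgebraic A z →
      (∀ a : A, algebraMap A F a ∈ algebraicClosure (IntermediateField.adjoin k s) F) →
      z ∈ algebraicClosure (IntermediateField.adjoin k s) F := by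
    intro A _ _ z hz hA
    obtain ⟨p, hp0, hp⟩ := hz
    let ψ : A →+* algebraicClosure (IntermediateField.adjoin k s) F :=
      (algebraMap A F).codRestrict _ hA
    have hψ : (algebraMap (algebraicClosure (IntermediateField.adjoin k s) F) F).comp ψ =
        algebraMap A F := by
      ext a; rfl
    have h2 : IsAlgebraic (algebraicClosure (IntermediateField.adjoin k s) F) z := by
      refine ⟨p.map ψ, (Polynomial.map_ne_zero_iff ψ.injective).2 hp0, ?_⟩
      rw [Polynomial.aeval_def, Polynomial.eval₂_map, hψ]
      exact hp
    rw [hmemC]
    exact IsAlgebraic.restrictScalars (IntermediateField.adjoin k s) h2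
  have hfd : FiniteDimensional (ratios k x) K :=
    Module.finite_of_finrank_pos (Nat.pos_of_ne_zero hdeg)
  have hK : ∀ z : K, algebraMap K F z ∈ algebraicClosure (IntermediateField.adjoin k s) F := by
    intro z
    let : Algebra (ratios k x) F := ((algebraMap K F).comp (algebraMap (ratios k x) K)).toAlgebra
    refine hclosed (A := ratios k x) _ ?_ fun a => hratios a a.2
    obtain ⟨p, hp0, hp⟩ := Algebra.IsAlgebraic.isAlgebraic (R := ratios k x) z
    refine ⟨p, hp0, ?_⟩
    have h3 := congrArg (algebraMap K F) hp
    rw [map_zero, Polynomial.aeval_def, Polynomial.hom_eval₂] at h3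
    exact h3
  have hKf : ∀ z : IntermediateField.adjoin K {f},
      (z : F) ∈ algebraicClosure (IntermediateField.adjoin k s) F := by
    rintro ⟨z, hz⟩
    induction hz using IntermediateField.adjoin_induction with
    | mem w hw =>
      rw [Set.mem_singleton_iff] at hw
      subst hw
      exact hEC _ hf
    | algebraMap w => exact hK w
    | add a b _ _ ha hb => exact add_mem ha hb
    | inv a _ ha => exact inv_mem ha
    | mul a b _ _ ha hb => exact mul_mem ha hb
  rw [← hmemC]
  exact hclosed (A := IntermediateField.adjoin K {f}) y (Algebra.IsAlgebraic.isAlgebraic y) hKf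

end LC11

end Pool.Agent.LCyc
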