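import Pool.Agent.LCyc.Ideal
import Pool.Agent.ZCyc.Basic

/-!
# Residues of functions and centers of places
-/

set_option autoImplicit false

namespace Pool.Agent.LCyc

open Pool.Agent.ZCyc

universe u w

variable {k : Type u} [Field k] {J : Type}

section LC2

variable {F : Type*} [Field F] [Algebra k F] (v : Place k F)

private lemma res_of_mem {f : F} (hf : f ∈ v.ring) :
    v.res f = IsLocalRing.residue v.ring ⟨f, hf⟩ := dif_pos hf

lemma res_add {f g : F} (hf : f ∈ v.ring) (hg : g ∈ v.ring) :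
    v.res (f + g) = v.res f + v.res g := by
  rw [res_of_mem v hf, res_of_mem v hg, res_of_mem v (add_mem hf hg), ← map_add]
  rfl

lemma res_mul {f g : F} (hf : f ∈ v.ring) (hg : g ∈ v.ring) :
    v.res (f * g) = v.res f * v.res g := by
  rw [res_of_mem v hf, res_of_mem v hg, res_of_mem v (mul_mem hf hg), ← map_mul]
  rfl

lemma res_sub {f g : F} (hf : f ∈ v.ring) (hg : g ∈ v.ring) :
    v.res (f - g) = v.res f - v.res g := by
  rw [res_of_mem v hf, res_of_mem v hg, res_of_mem v (sub_mem hf hg), ← map_sub]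
  rfl

lemma res_pow {f : F} (hf : f ∈ v.ring) (n : ℕ) : v.res (f ^ n) = v.res f ^ n := by
  rw [res_of_mem v hf, res_of_mem v (pow_mem hf n), ← map_pow]
  rfl

lemma res_algebraMap (c : k) : v.res (algebraMap k F c) = algebraMap k v.Res c := by
  rw [res_of_mem v (v.const_mem c)]
  rfl

lemma res_eq_zero_iff {f : F} (hf : f ∈ v.ring) : v.res f = 0 ↔ v.Vanishes f := by
  rw [res_of_mem v hf, IsLocalRing.residue_eq_zero_iff]
  unfold Place.Vanishes
  rw [ValuationSubring.mem_nonunits_iff_exists_mem_maximalIdeal]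
  exact ⟨fun h => ⟨hf, h⟩, fun ⟨_, h⟩ => h⟩

lemma exists_res (e : v.Res) : ∃ f ∈ v.ring, v.res f = e := by
  obtain ⟨⟨f, hf⟩, rfl⟩ := IsLocalRing.residue_surjective e
  exact ⟨f, hf, res_of_mem v hf⟩

private lemma inv_mem_of_not_vanishes {g : F} (hg' : ¬ v.Vanishes g) : g⁻¹ ∈ v.ring := by
  rw [v.vanishes_iff_or] at hg'
  push Not at hg'
  exact hg'.2

/-- residues of quotients -/
lemma res_div {f g : F} (hf : f ∈ v.ring) (hg : g ∈ v.ring) (hg' : ¬ v.Vanishes g) :
    f / g ∈ v.ring ∧ v.res (f / g) = v.res f / v.res g := by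
  have h1 : g⁻¹ ∈ v.ring := inv_mem_of_not_vanishes v hg'
  have h2 : f / g ∈ v.ring := by
    rw [div_eq_mul_inv]
    exact mul_mem hf h1
  have h3 : g ≠ 0 := by
    rintro rfl
    exact hg' v.vanishes_zero
  have h4 : v.res g ≠ 0 := fun h => hg' ((res_eq_zero_iff v hg).mp h)
  refine ⟨h2, ?_⟩
  rw [eq_div_iff h4, ← res_mul v h2 hg, div_mul_cancel₀ _ h3]

/-- a coordinate with the largest value -/
lemma exists_coord [Finite J] {x : J → F} (hx : x ≠ 0) :
    ∃ j, x j ≠ 0 ∧ ∀ i, x i / x j ∈ v.ring := by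
  obtain ⟨i₀, hi₀⟩ := Function.ne_iff.mp hx
  have : Nonempty J := ⟨i₀⟩
  obtain ⟨j, hj⟩ := Finite.exists_max fun j => v.ring.valuation (x j)
  have h1 : x j ≠ 0 := by
    intro h
    have h2 := hj i₀
    rw [h, map_zero, nonpos_iff_eq_zero, Valuation.zero_iff] at h2
    exact hi₀ h2
  refine ⟨j, h1, fun i => ?_⟩
  rw [← v.ring.valuation_le_one_iff, map_div₀]
  exact div_le_one_of_le₀ (hj i) zero_le

/-- the center does not depend on the common factor, up to a common factor -/
lemma center_eq {x : J → F} {c : F} (h1 : ∀ j, c * x j ∈ v.ring)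
    (h2 : ∃ j, ¬ v.Vanishes (c * x j)) :
    ∃ a : v.Res, a ≠ 0 ∧ ∀ j, v.center x j = a * v.res (c * x j) := by
  have h : ∃ c : F, (∀ j, c * x j ∈ v.ring) ∧ ∃ j, ¬ v.Vanishes (c * x j) := ⟨c, h1, h2⟩
  have hc : v.center x = fun j => v.res (h.choose * x j) := dif_pos h
  obtain ⟨h3, h4⟩ := h.choose_spec
  set c₀ := h.choose
  obtain ⟨j, hj⟩ := h2
  obtain ⟨j', hj'⟩ := h4
  have hne : c * x j ≠ 0 := fun h => hj (by rw [h]; exact v.vanishes_zero)
  have hne' : c₀ * x j' ≠ 0 := fun h => hj' (by rw [h]; exact v.vanishes_zero)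
  have hc0 : c ≠ 0 := left_ne_zero_of_mul hne
  have hc0' : c₀ ≠ 0 := left_ne_zero_of_mul hne'
  have h5 : c₀ / c ∈ v.ring := by
    have h6 := (res_div v (h3 j) (h1 j) hj).1
    rwa [mul_div_mul_right _ _ (right_ne_zero_of_mul hne)] at h6
  have h7 : (c₀ / c)⁻¹ ∈ v.ring := by
    have h6 := (res_div v (h1 j') (h3 j') hj').1
    rw [mul_div_mul_right _ _ (right_ne_zero_of_mul hne')] at h6
    rwa [inv_div]
  refine ⟨v.res (c₀ / c), ?_, fun i => ?_⟩
  · intro h8
    rw [res_eq_zero_iff v h5, v.vanishes_iff_or] at h8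
    rcases h8 with h8 | h8
    · exact div_ne_zero hc0' hc0 h8
    · exact h8 h7
  · rw [hc, ← res_mul v h5 (h1 i)]
    field_simp

private lemma exists_factor [Finite J] {x : J → F} (hx : x ≠ 0) :
    ∃ c : F, (∀ j, c * x j ∈ v.ring) ∧ ∃ j, ¬ v.Vanishes (c * x j) := by
  obtain ⟨j, hj, h⟩ := exists_coord v hx
  refine ⟨(x j)⁻¹, fun i => ?_, j, ?_⟩
  · rw [mul_comm, ← div_eq_mul_inv]
    exact h i
  · rw [inv_mul_cancel₀ hj]
    have h1 := v.const_unit (one_ne_zero (α := k))
    rwa [map_one] at h1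

lemma center_ne_zero [Finite J] {x : J → F} (hx : x ≠ 0) : v.center x ≠ 0 := by
  obtain ⟨c, h1, j, h2⟩ := exists_factor v hx
  obtain ⟨a, ha, h3⟩ := center_eq v h1 ⟨j, h2⟩
  intro h
  have h4 := h3 j
  rw [h] at h4
  rcases mul_eq_zero.mp h4.symm with h5 | h5
  · exact ha h5
  · exact h2 ((res_eq_zero_iff v (h1 j)).mp h5)

lemma ratios_smul {K : Type*} [Field K] [Algebra k K] {c : K} (hc : c ≠ 0) (x : J → K) :
    ratios k (fun j => c * x j) = ratios k x := by
  unfold ratios
  congr 2
  funext p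
  exact mul_div_mul_left _ _ hc

lemma degree_smul {K : Type*} [Field K] [Algebra k K] {c : K} (hc : c ≠ 0) (x : J → K) :
    degree k (fun j => c * x j) = degree k x := by
  unfold degree
  rw [ratios_smul hc]

private lemma ratios_const_le {K : Type*} [Field K] [Algebra k K] (a : J → k) (x : J → K) :
    ratios k (fun j => algebraMap k K (a j) * x j) ≤ ratios k x := by
  unfold ratios
  rw [IntermediateField.adjoin_le_iff]
  rintro _ ⟨p, rfl⟩
  simp only
  rw [mul_div_mul_comm, ← map_div₀]
  exact mul_mem (IntermediateField.algebraMap_mem _ _)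
    (IntermediateField.subset_adjoin _ _ ⟨p, rfl⟩)

/-- factors in `k` do not change the degree -/
lemma degree_const {K : Type*} [Field K] [Algebra k K] {a : J → k} (ha : ∀ j, a j ≠ 0)
    (x : J → K) : degree k (fun j => algebraMap k K (a j) * x j) = degree k x := by
  have h1 : ratios k (fun j => algebraMap k K (a j) * x j) = ratios k x := by
    apply le_antisymm (ratios_const_le a x)
    have h2 := ratios_const_le (fun j => (a j)⁻¹) (fun j => algebraMap k K (a j) * x j)
    refine le_trans (le_of_eq ?_) h2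
    congr 1
    funext j
    rw [← mul_assoc, ← map_mul, inv_mul_cancel₀ (ha j), map_one, one_mul]
  unfold degree
  rw [h1]

private lemma center_const [Finite J] {a : J → k} (ha : ∀ j, a j ≠ 0) {x : J → F} (hx : x ≠ 0) :
    ∃ (y : J → v.Res) (α β : v.Res), α ≠ 0 ∧ β ≠ 0 ∧ v.center x = (fun j => α * y j) ∧
      (v.center fun j => algebraMap k F (a j) * x j) =
        fun j => β * (algebraMap k v.Res (a j) * y j) := by
  obtain ⟨c, h1, j, h2⟩ := exists_factor v hx
  obtain ⟨α, hα, h3⟩ := center_eq v h1 ⟨j, h2⟩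
  have h1' : ∀ j, c * (algebraMap k F (a j) * x j) ∈ v.ring := by
    intro j
    rw [mul_left_comm]
    exact mul_mem (v.const_mem _) (h1 j)
  have h2' : ¬ v.Vanishes (c * (algebraMap k F (a j) * x j)) := by
    rw [mul_left_comm, ← res_eq_zero_iff v (mul_mem (v.const_mem _) (h1 j)),
      res_mul v (v.const_mem _) (h1 j), mul_eq_zero, res_eq_zero_iff v (v.const_mem _),
      res_eq_zero_iff v (h1 j)]
    rintro (h | h)
    · exact v.const_unit (ha j) h
    · exact h2 h
  obtain ⟨β, hβ, h3'⟩ := center_eq v h1' ⟨j, h2'⟩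
  refine ⟨fun j => v.res (c * x j), α, β, hα, hβ, funext h3, funext fun i => ?_⟩
  rw [h3' i, mul_left_comm, res_mul v (v.const_mem _) (h1 i), res_algebraMap]

lemma degree_center_const [Finite J] {a : J → k} (ha : ∀ j, a j ≠ 0) (x : J → F) :
    degree k (v.center fun j => algebraMap k F (a j) * x j) = degree k (v.center x) := by
  by_cases hx : x = 0
  · subst hx
    congr 2
    funext j
    simp
  · obtain ⟨y, α, β, hα, hβ, h1, h2⟩ := center_const v ha hx
    rw [h1, h2, degree_smul hβ, degree_smul hα, degree_const ha]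

lemma ideal_center_act [Finite J] {m : ℕ} (ζ : kˣ) (g : J → ZMod m) (x : J → F) :
    ideal k (v.center fun j => algebraMap k F ((ζ : k) ^ (g j).val) * x j) =
      act ζ g (ideal k (v.center x)) := by
  by_cases hx : x = 0
  · subst hx
    have h1 : (fun j => algebraMap k F ((ζ : k) ^ (g j).val) * (0 : J → F) j) = 0 := by
      funext j
      simp
    have h2 : v.center (0 : J → F) = 0 := by
      unfold Place.center
      rw [dif_neg]
      rintro ⟨c, _, j, h⟩
      apply h
      simpa using v.vanishes_zero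
    rw [h1, h2, act_ideal]
    congr 1
    funext j
    simp
  · obtain ⟨y, α, β, hα, hβ, h1, h2⟩ := center_const v
      (a := fun j => (ζ : k) ^ (g j).val) (fun j => pow_ne_zero _ ζ.ne_zero) hx
    rw [h1, h2, ideal_smul hβ, ideal_smul hα, act_ideal]

lemma ideal_le_center {x : J → F} : ideal k x ≤ ideal k (v.center x) := by
  intro f hf
  by_cases h : ∃ c : F, (∀ j, c * x j ∈ v.ring) ∧ ∃ j, ¬ v.Vanishes (c * x j)
  · have hc : v.center x = fun j => v.res (h.choose * x j) := dif_pos h
    obtain ⟨h3, j', hj'⟩ := h.choose_spec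
    set c₀ := h.choose
    have hc0 : c₀ ≠ 0 := by
      intro h0
      apply hj'
      rw [h0, zero_mul]
      exact v.vanishes_zero
    rw [← ideal_smul hc0 x, mem_ideal] at hf
    rw [mem_ideal]
    intro n
    let y : J → v.ring := fun j => ⟨c₀ * x j, h3 j⟩
    let ρ : v.ring →ₐ[k] v.Res := { IsLocalRing.residue v.ring with commutes' := fun _ => rfl }
    let ι : v.ring →ₐ[k] F := { v.ring.subtype with commutes' := fun _ => rfl }
    have h4 : v.center x = fun j => ρ (y j) := by
      rw [hc]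
      funext j
      exact res_of_mem v (h3 j)
    have h5 : MvPolynomial.aeval y (MvPolynomial.homogeneousComponent n f) = 0 := by
      have h6 : ι (MvPolynomial.aeval y (MvPolynomial.homogeneousComponent n f)) = 0 := by
        rw [← AlgHom.comp_apply, MvPolynomial.comp_aeval]
        exact hf n
      exact Subtype.ext h6
    have h7 : MvPolynomial.aeval (fun j => ρ (y j)) (MvPolynomial.homogeneousComponent n f) =
        ρ (MvPolynomial.aeval y (MvPolynomial.homogeneousComponent n f)) := by
      rw [← AlgHom.comp_apply, MvPolynomial.comp_aeval]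
    rw [h4, h7, h5, map_zero]
  · have hc : v.center x = 0 := dif_neg h
    rw [mem_ideal] at hf ⊢
    intro n
    rw [hc, MvPolynomial.aeval_zero]
    rcases Nat.eq_zero_or_pos n with rfl | hn
    · have h1 := hf 0
      rw [MvPolynomial.homogeneousComponent_zero, MvPolynomial.aeval_C,
        FaithfulSMul.algebraMap_eq_zero_iff] at h1
      rw [MvPolynomial.homogeneousComponent_zero, h1]
      simp
    · have h2 : MvPolynomial.constantCoeff (MvPolynomial.homogeneousComponent n f) = 0 := by
        rw [MvPolynomial.constantCoeff_eq, MvPolynomial.coeff_homogeneousComponent, if_neg]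
        simp only [map_zero]
        omega
      rw [h2, map_zero]

end LC2

end Pool.Agent.LCyc
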