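import Pool.Agent.LCyc.Sol

/-!
# Columns which span the space
-/

set_option autoImplicit false

namespace Pool.Agent.LCyc

universe u

variable {k : Type u} [Field k] {J : Type} [Fintype J] [DecidableEq J]

/-- if the columns in `A` span then the unknowns in a subset `T` of `A` are determined by the
others, without further equations -/
theorem exists_cols {r : ℕ} {c : Fin r → J → k} {A : Set J}
    (hA : Submodule.span k ((fun j i => c i j) '' A) = ⊤) :
    ∃ T : Finset J, (∀ j ∈ T, j ∈ A) ∧ T.card = r ∧ ∃ e : J → J → k,
      ∀ (L : Type u) [Field L] [Algebra k L] (y : J → L),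
        (∀ i, ∑ j, algebraMap k L (c i j) * y j = 0) ↔
          ∀ i ∈ T, y i = ∑ j ∈ Finset.univ \ T, algebraMap k L (e i j) * y j := by
  classical
  set col : J → Fin r → k := fun j i => c i j with hcol
  obtain ⟨κ, a, ha, h1, h2⟩ := exists_linearIndependent' k (fun j : A => col j)
  have h3 : Set.range (fun j : A => col j) = col '' A := by
    ext v
    simp
  rw [h3, hA] at h1
  let b : Module.Basis κ k (Fin r → k) := Module.Basis.mk h2 h1.ge
  have hbv : ∀ i, b i = col (a i) := fun i => Module.Basis.mk_apply h2 h1.ge i
  have hfin : Finite κ := Finite.of_injective a ha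
  have : Fintype κ := Fintype.ofFinite κ
  have hcard : Fintype.card κ = r := by
    have h4 := Module.finrank_eq_card_basis b
    rw [Module.finrank_pi, Fintype.card_fin] at h4
    exact h4.symm
  set f : κ → J := fun i => (a i : J) with hf
  have hfinj : Function.Injective f := Subtype.val_injective.comp ha
  set T : Finset J := Finset.univ.image f with hT
  have hTmem : ∀ j, j ∈ T ↔ ∃ i, f i = j := by
    intro j
    simp [hT]
  set φ : J → (Fin r → k) →ₗ[k] k := fun j =>
    if h : ∃ i, f i = j then b.coord h.choose else 0 with hφ
  have hφf : ∀ i, φ (f i) = b.coord i := by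
    intro i
    have h : ∃ i', f i' = f i := ⟨i, rfl⟩
    rw [hφ]
    simp only [dif_pos h]
    rw [hfinj h.choose_spec]
  refine ⟨T, ?_, ?_, fun i j => - φ i (col j), ?_⟩
  · intro j hj
    obtain ⟨i, rfl⟩ := (hTmem j).1 hj
    exact (a i).2
  · rw [hT, Finset.card_image_of_injective _ hfinj, Finset.card_univ, hcard]
  intro L _ _ y
  have hsplit : ∀ u : J → L, ∑ j, u j = ∑ i, u (f i) + ∑ j ∈ Finset.univ \ T, u j := by
    intro u
    rw [← Finset.sum_sdiff (Finset.subset_univ T), add_comm]
    congr 1
    rw [hT, Finset.sum_image]
    intro i _ i' _ h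
    exact hfinj h
  constructor
  · intro h i hi
    obtain ⟨i, rfl⟩ := (hTmem i).1 hi
    have h5 : ∑ j, algebraMap k L (φ (f i) (col j)) * y j = 0 := by
      have h6 : ∀ j, φ (f i) (col j) = ∑ i', φ (f i) (Pi.single i' 1) * c i' j := by
        intro j
        conv_lhs => rw [LinearMap.pi_apply_eq_sum_univ (φ (f i)) (col j)]
        apply Finset.sum_congr rfl
        intro i' _
        rw [smul_eq_mul, mul_comm]
        congr 1
        congr 1
        funext i''
        by_cases hi : i'' = i'
        · subst hi
          simp
        · simp [hi, Ne.symm hi]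
      have h7 : ∑ j, algebraMap k L (φ (f i) (col j)) * y j =
          ∑ i', algebraMap k L (φ (f i) (Pi.single i' 1)) *
            ∑ j, algebraMap k L (c i' j) * y j := by
        simp only [h6, map_sum, map_mul, Finset.sum_mul, Finset.mul_sum]
        rw [Finset.sum_comm]
        refine Finset.sum_congr rfl fun i' _ => Finset.sum_congr rfl fun j _ => ?_
        ring
      rw [h7]
      apply Finset.sum_eq_zero
      intro i' _
      rw [h i', mul_zero]
    rw [hsplit] at h5
    have h8 : ∑ i', algebraMap k L (φ (f i) (col (f i'))) * y (f i') = y (f i) := by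
      rw [Finset.sum_eq_single i]
      · rw [hφf, ← hbv i, Module.Basis.coord_apply, Module.Basis.repr_self, Finsupp.single_eq_same,
          map_one, one_mul]
      · intro i' _ hi'
        rw [hφf, ← hbv i', Module.Basis.coord_apply, Module.Basis.repr_self,
          Finsupp.single_eq_of_ne hi'.symm, map_zero, zero_mul]
      · simp
    rw [h8] at h5
    simp only [map_neg, neg_mul, Finset.sum_neg_distrib]
    exact eq_neg_of_add_eq_zero_left h5
  · intro h i
    rw [hsplit]
    have h5 : ∀ i', y (f i') = ∑ j ∈ Finset.univ \ T, algebraMap k L (-φ (f i') (col j)) * y j :=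
      fun i' => h (f i') ((hTmem _).2 ⟨i', rfl⟩)
    have h6 : ∑ i', algebraMap k L (c i (f i')) * y (f i') =
        ∑ j ∈ Finset.univ \ T, algebraMap k L (-c i j) * y j := by
      simp only [h5, Finset.mul_sum]
      rw [Finset.sum_comm]
      apply Finset.sum_congr rfl
      intro j _
      have h7 : ∑ i', c i (f i') * φ (f i') (col j) = c i j := by
        have h8 := congrFun (b.sum_repr (col j)) i
        rw [Finset.sum_apply] at h8
        refine Eq.trans ?_ h8
        apply Finset.sum_congr rfl
        intro i' _
        rw [hφf, Module.Basis.coord_apply, Pi.smul_apply, hbv, smul_eq_mul, mul_comm]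
      rw [← h7, map_neg, map_sum, neg_mul, Finset.sum_mul, ← Finset.sum_neg_distrib]
      apply Finset.sum_congr rfl
      intro i' _
      rw [map_mul, map_neg]
      ring
    rw [h6, ← Finset.sum_add_distrib]
    apply Finset.sum_eq_zero
    intro j _
    rw [map_neg]
    ring

end Pool.Agent.LCyc
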