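import Pool.Agent.ZCyc.Basic

/-!
# The covering
-/

set_option autoImplicit false

open Polynomial

universe u

namespace Pool.Agent.LCyc

variable {k : Type u} [Field k] {J : Type}

private lemma cover_fg {k K L : Type*} [Field k] [Field K] [Field L] [Algebra k K] [Algebra K L]
    [Algebra k L] [IsScalarTower k K L] (h1 : (⊤ : IntermediateField k K).FG)
    (h2 : (⊤ : IntermediateField K L).FG) : (⊤ : IntermediateField k L).FG := by
  rw [IntermediateField.fg_top_iff] at *
  exact Algebra.EssFiniteType.comp k K L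

/-- The extension of the field of rational functions over `K` by roots of given elements. -/
private theorem cover_aux {k : Type u} [Field k] {K : Type u} [Field K] [Algebra k K]
    (hK : (⊤ : IntermediateField k K).FG) {l : ℕ} (hl : Algebra.trdeg k K = (l : ℕ))
    {J : Type} [Finite J] (x : J → AlgebraicClosure (RatFunc K)) (c : K) :
    ∃ (F : Type u) (_ : Field F) (_ : Algebra k F) (_ : Algebra K F) (_ : Algebra (RatFunc K) F)
      (_ : IsScalarTower k K F) (_ : IsScalarTower K (RatFunc K) F)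
      (i : F →ₐ[RatFunc K] AlgebraicClosure (RatFunc K)) (x' : J → F),
      (⊤ : IntermediateField k F).FG ∧
      Algebra.trdeg k F = (l + 1 : ℕ) ∧ (∀ j, i (x' j) = x j) ∧
      Transcendental K (algebraMap (RatFunc K) F (RatFunc.X - algebraMap K (RatFunc K) c)) ∧
      FiniteDimensional (IntermediateField.adjoin K
        {algebraMap (RatFunc K) F (RatFunc.X - algebraMap K (RatFunc K) c)}) F := by
  classical
  let Ω := AlgebraicClosure (RatFunc K)
  let F : IntermediateField (RatFunc K) Ω := IntermediateField.adjoin (RatFunc K) (Set.range x)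
  have hfd : FiniteDimensional (RatFunc K) F := by
    have : Finite (Set.range x) := (Set.finite_range x).to_subtype
    exact IntermediateField.finiteDimensional_adjoin fun z _ =>
      Algebra.IsIntegral.isIntegral z
  have hxF : ∀ j, x j ∈ F := fun j => IntermediateField.subset_adjoin (RatFunc K) _ ⟨j, rfl⟩
  have t1 : IsScalarTower k K F := IsScalarTower.of_algebraMap_eq fun a => by
    rw [IsScalarTower.algebraMap_apply K (RatFunc K) F, IsScalarTower.algebraMap_apply k (RatFunc K) F,
      IsScalarTower.algebraMap_apply k K (RatFunc K)]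
  refine ⟨F, inferInstance, inferInstance, inferInstance, inferInstance, t1,
    inferInstance, F.val, fun j => ⟨x j, hxF j⟩, ?_, ?_, fun j => rfl, ?_, ?_⟩
  · refine cover_fg hK (cover_fg (K := RatFunc K) ?_ ?_)
    · exact ⟨{RatFunc.X}, by rw [Finset.coe_singleton]; exact RatFunc.adjoin_X⟩
    · rw [IntermediateField.fg_top_iff]
      infer_instance
  · have e1 : Algebra.trdeg K (RatFunc K) = 1 := by
      rw [← trdeg_add_eq K K[X] (A := RatFunc K), Polynomial.trdeg_of_isDomain,
        trdeg_eq_zero_iff.2 (IsLocalization.isAlgebraic _ (nonZeroDivisors K[X])), add_zero]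
    have e2 : Algebra.trdeg K F = 1 := by
      rw [← trdeg_add_eq K (RatFunc K) (A := F), e1, trdeg_eq_zero_iff.2 inferInstance,
        add_zero]
    rw [← trdeg_add_eq k K (A := F), hl, e2]
    push_cast
    rfl
  · rw [transcendental_algebraMap_iff (algebraMap (RatFunc K) F).injective]
    intro h
    apply RatFunc.transcendental_X (K := K)
    have := h.add (isAlgebraic_algebraMap c)
    rwa [sub_add_cancel] at this
  · set f : F := algebraMap (RatFunc K) F (RatFunc.X - algebraMap K (RatFunc K) c) with hf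
    have hmem : ∀ r : RatFunc K, algebraMap (RatFunc K) F r ∈ IntermediateField.adjoin K {f} := by
      intro r
      have h1 : r ∈ (⊤ : IntermediateField K (RatFunc K)) := IntermediateField.mem_top
      rw [← RatFunc.adjoin_X] at h1
      have h2 : algebraMap (RatFunc K) F r ∈
          (IntermediateField.adjoin K {(RatFunc.X : RatFunc K)}).map
            (IsScalarTower.toAlgHom K (RatFunc K) F) := ⟨r, h1, rfl⟩
      rw [IntermediateField.adjoin_map, Set.image_singleton] at h2
      refine (IntermediateField.adjoin_le_iff.2 ?_ : _ ≤ IntermediateField.adjoin K {f}) h2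
      rw [Set.singleton_subset_iff]
      have h3 : (IsScalarTower.toAlgHom K (RatFunc K) F) RatFunc.X = f + algebraMap K F c := by
        rw [hf, map_sub, ← IsScalarTower.algebraMap_apply, sub_add_cancel]
        rfl
      rw [h3]
      exact add_mem (IntermediateField.subset_adjoin K _ rfl) (IntermediateField.algebraMap_mem _ c)
    let φ : RatFunc K →+* IntermediateField.adjoin K {f} :=
      (algebraMap (RatFunc K) F).codRestrict _ hmem
    let _ : Algebra (RatFunc K) (IntermediateField.adjoin K {f}) := φ.toAlgebra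
    have : IsScalarTower (RatFunc K) (IntermediateField.adjoin K {f}) F :=
      IsScalarTower.of_algebraMap_eq fun _ => rfl
    exact Module.Finite.of_restrictScalars_finite (RatFunc K) _ F


/-- LC8: the field of functions of the covering -/
theorem exists_cover [IsAlgClosed k] [CharZero k] {K : Type u} [Field K] [Algebra k K]
    (hK : (⊤ : IntermediateField k K).FG) {l : ℕ} (hl : Algebra.trdeg k K = (l : ℕ)) {m : ℕ}
    [NeZero m] {β : Type} {S : Finset J} (b : J → β) [Finite J] {j₀ : J} {x w : J → K}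
    (hxS : ∀ j ∈ S, x j ≠ 0) (hw0 : ∀ j ∈ S, b j = b j₀ → j ≠ j₀ → w j = 0)
    (hwb : ∀ i ∈ S, ∀ j ∈ S, i ≠ j₀ → j ≠ j₀ → b i = b j → w i * x j ^ m = w j * x i ^ m) :
    ∃ (F : Type u) (_ : Field F) (_ : Algebra k F) (_ : Algebra K F) (_ : IsScalarTower k K F)
      (x' : J → F) (τ f : F), (⊤ : IntermediateField k F).FG ∧
      Algebra.trdeg k F = (l + 1 : ℕ) ∧ f ≠ 0 ∧
      (∀ j, x' j ^ m = algebraMap K F (x j) ^ m + τ * algebraMap K F (w j)) ∧
      (∀ j ∈ S, b j = b j₀ → j ≠ j₀ → x' j = algebraMap K F (x j)) ∧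
      (∀ i ∈ S, ∀ j ∈ S, i ≠ j₀ → j ≠ j₀ → b i = b j →
        x' i * algebraMap K F (x j) = x' j * algebraMap K F (x i)) ∧
      ((w j₀ = 0 ∧ f = τ ∧ x' j₀ = algebraMap K F (x j₀)) ∨
        (w j₀ ≠ 0 ∧ f = x' j₀ - algebraMap K F (x j₀))) ∧
      Transcendental K f ∧ FiniteDimensional (IntermediateField.adjoin K {f}) F := by
  classical
  have hm : 0 < m := Nat.pos_of_ne_zero (NeZero.ne m)
  -- the parameter and the coordinate `x' j₀`
  obtain ⟨τ, z, c, hz, hcase⟩ : ∃ (τ z : RatFunc K) (c : K),
      z ^ m = algebraMap K (RatFunc K) (x j₀) ^ m + τ * algebraMap K (RatFunc K) (w j₀) ∧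
      ((w j₀ = 0 ∧ RatFunc.X - algebraMap K (RatFunc K) c = τ ∧ z = algebraMap K (RatFunc K) (x j₀)) ∨
        (w j₀ ≠ 0 ∧ RatFunc.X - algebraMap K (RatFunc K) c = z - algebraMap K (RatFunc K) (x j₀))) := by
    by_cases hw : w j₀ = 0
    · exact ⟨RatFunc.X, algebraMap K (RatFunc K) (x j₀), 0, by rw [hw, map_zero, mul_zero, add_zero],
        Or.inl ⟨hw, by rw [map_zero, sub_zero], rfl⟩⟩
    · refine ⟨(RatFunc.X ^ m - algebraMap K (RatFunc K) (x j₀) ^ m) / algebraMap K (RatFunc K) (w j₀),
        RatFunc.X, x j₀, ?_, Or.inr ⟨hw, rfl⟩⟩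
      rw [div_mul_cancel₀ _ ((_root_.map_ne_zero _).2 hw)]
      ring
  let Ω := AlgebraicClosure (RatFunc K)
  let a : K →+* Ω := (algebraMap (RatFunc K) Ω).comp (algebraMap K (RatFunc K))
  let τ' : Ω := algebraMap (RatFunc K) Ω τ
  have ha : ∀ y, a y = algebraMap (RatFunc K) Ω (algebraMap K (RatFunc K) y) := fun _ => rfl
  -- the factors for the blocks
  have hν : ∀ B : β, ∃ ν : Ω, (B = b j₀ → ν = 1) ∧ ∀ j ∈ S, j ≠ j₀ → b j = B →
      ν ^ m * a (x j) ^ m = a (x j) ^ m + τ' * a (w j) := by
    intro B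
    by_cases hB : B = b j₀
    · refine ⟨1, fun _ => rfl, fun j hj hj0 hjB => ?_⟩
      rw [hw0 j hj (hjB.trans hB) hj0, map_zero, mul_zero, add_zero, one_pow, one_mul]
    · by_cases hex : ∃ i ∈ S, i ≠ j₀ ∧ b i = B
      · obtain ⟨i, hi, hi0, hiB⟩ := hex
        obtain ⟨ν, hν⟩ := IsAlgClosed.exists_pow_nat_eq (1 + τ' * a (w i) / a (x i) ^ m) hm
        refine ⟨ν, fun h => absurd h hB, fun j hj hj0 hjB => ?_⟩
        have hxi : a (x i) ≠ 0 := (_root_.map_ne_zero _).2 (hxS i hi)
        have h1 := congrArg a (hwb i hi j hj hi0 hj0 (hiB.trans hjB.symm))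
        rw [map_mul, map_mul, map_pow, map_pow] at h1
        rw [hν]
        have hxi' : a (x i) ^ m ≠ 0 := pow_ne_zero m hxi
        rw [add_mul, one_mul, div_mul_eq_mul_div, mul_assoc, h1, ← mul_assoc,
          mul_div_assoc, div_self hxi', mul_one]
      · exact ⟨1, fun h => absurd h hB, fun j hj hj0 hjB => absurd ⟨j, hj, hj0, hjB⟩ hex⟩
  choose ν hν1 hν2 using hν
  have hρ : ∀ j, ∃ y : Ω, y ^ m = a (x j) ^ m + τ' * a (w j) := fun j =>
    IsAlgClosed.exists_pow_nat_eq _ hm
  choose ρ hρ using hρ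
  let y : J → Ω := fun j => if j = j₀ then algebraMap (RatFunc K) Ω z else
    if j ∈ S then ν (b j) * a (x j) else ρ j
  obtain ⟨F, _, _, _, _, _, _, i, x', hFG, htr, hx', hf1, hf2⟩ := cover_aux hK hl y c
  have hi : ∀ r : RatFunc K, i (algebraMap (RatFunc K) F r) = algebraMap (RatFunc K) Ω r :=
    fun r => i.commutes r
  have hiK : ∀ r : K, i (algebraMap K F r) = a r := fun r => by
    rw [IsScalarTower.algebraMap_apply K (RatFunc K) F, hi]
    rfl
  have hinj : Function.Injective i := i.toRingHom.injective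
  refine ⟨F, inferInstance, inferInstance, inferInstance, inferInstance, x',
    algebraMap (RatFunc K) F τ, algebraMap (RatFunc K) F (RatFunc.X - algebraMap K (RatFunc K) c),
    hFG, htr, ?_, fun j => ?_, fun j hj hjb hj0 => ?_, fun i' hi' j hj hi0 hj0 hb => ?_, ?_, hf1, hf2⟩
  · intro h
    rw [h] at hf1
    exact hf1 isAlgebraic_zero
  · apply hinj
    rw [map_pow, hx', map_add, map_mul, map_pow, hiK, hiK, hi]
    by_cases hj0 : j = j₀
    · subst hj0
      simp only [y, if_pos]
      rw [← map_pow, hz, map_add, map_mul, map_pow]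
      rfl
    · by_cases hjS : j ∈ S
      · simp only [y, if_neg hj0, if_pos hjS]
        rw [mul_pow]
        exact hν2 (b j) j hjS hj0 rfl
      · simp only [y, if_neg hj0, if_neg hjS]
        exact hρ j
  · apply hinj
    rw [hx', hiK]
    simp only [y, if_neg hj0, if_pos hj]
    rw [hν1 (b j) hjb, one_mul]
  · apply hinj
    rw [map_mul, map_mul, hx', hx', hiK, hiK]
    simp only [y, if_neg hi0, if_pos hi', if_neg hj0, if_pos hj]
    rw [hb]
    ring
  · have hxj0 : x' j₀ = algebraMap (RatFunc K) F z := by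
      apply hinj
      rw [hx', hi]
      simp only [y, if_pos]
    rcases hcase with ⟨h1, h2, h3⟩ | ⟨h1, h2⟩
    · refine Or.inl ⟨h1, by rw [h2], ?_⟩
      rw [hxj0, h3, ← IsScalarTower.algebraMap_apply]
    · refine Or.inr ⟨h1, ?_⟩
      rw [hxj0, h2, map_sub, ← IsScalarTower.algebraMap_apply]

end Pool.Agent.LCyc
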