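import Pool.Agent.LCyc.Dir1

/-!
# A direction for the translation
-/

set_option autoImplicit false

namespace Pool.Agent.LCyc

open Pool.Agent.ZCyc

universe u w

variable {k : Type u} [Field k] {J : Type}

/-- The dimension of the space of solutions. -/
private theorem finrank_ker_ge {M : Type*} [Field M] {J : Type} [Fintype J] {N : Type*} [Fintype N]
    {r : ℕ} (Φ : (J → M) →ₗ[M] ((N → M) × (Fin r → M))) :
    Fintype.card J ≤ Module.finrank M (LinearMap.ker Φ) + (Fintype.card N + r) := by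
  have h1 := LinearMap.finrank_range_add_finrank_ker Φ
  rw [Module.finrank_pi] at h1
  have h2 : Module.finrank M (LinearMap.range Φ) ≤ Fintype.card N + r := by
    have h3 := Submodule.finrank_le (LinearMap.range Φ)
    rw [Module.finrank_prod, Module.finrank_pi, Module.finrank_pi, Fintype.card_fin] at h3
    exact h3
  omega

/-- a direction for the translation -/
theorem exists_dir [Fintype J] [DecidableEq J] [Infinite k] {K : Type u} [Field K] [Algebra k K]
    {l : ℕ} (hK : Algebra.trdeg k K = (l : ℕ)) {r : ℕ} (c : Fin r → J → k) {β : Type}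
    [DecidableEq β] {S : Finset J} (b : J → β) {j₀ j₁ : J} (hj₀ : j₀ ∈ S) (hj₁ : j₁ ∈ S)
    (hne : j₁ ≠ j₀) (hb : b j₁ = b j₀)
    (hcard : l + r + S.card < Fintype.card J + (S.image b).card) {y : J → K}
    (hy : ∀ j ∈ S, y j ≠ 0) {M : IntermediateField k K}
    (hM : ∀ i ∈ S, ∀ j ∈ S, i ≠ j₀ → j ≠ j₀ → b i = b j → y i / y j ∈ M) :
    ∃ w : J → K, (∀ i, ∑ j, algebraMap k K (c i j) * w j = 0) ∧
      (∀ j ∈ S, b j = b j₀ → j ≠ j₀ → w j = 0) ∧
      (∀ i ∈ S, ∀ j ∈ S, i ≠ j₀ → j ≠ j₀ → b i = b j → w i * y j = w j * y i) ∧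
      (∀ j, w j ∈ M) ∧
      ∀ (F : Type u) [Field F] [Algebra k F] [Algebra K F] [IsScalarTower k K F] (v : Place k F)
        (τ : F), τ ∉ v.ring → ∃ j, algebraMap K F (y j) + τ * algebraMap K F (w j) ∉ v.ring := by
  classical
  clear hj₁ hne hb
  -- representatives of the blocks
  have hg' : ∀ B : β, ∃ j : J, (B = b j₀ → j = j₀) ∧ (B ∈ S.image b → j ∈ S ∧ b j = B) := by
    intro B
    by_cases hB : B = b j₀
    · exact ⟨j₀, fun _ => rfl, fun _ => ⟨hj₀, hB.symm⟩⟩
    · by_cases hB' : B ∈ S.image b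
      · obtain ⟨j, hj, hjB⟩ := Finset.mem_image.1 hB'
        exact ⟨j, fun h => absurd h hB, fun _ => ⟨hj, hjB⟩⟩
      · exact ⟨j₀, fun _ => rfl, fun h => absurd h hB'⟩
  choose g hg using hg'
  have hg0 : g (b j₀) = j₀ := (hg _).1 rfl
  have hgS : ∀ j ∈ S, g (b j) ∈ S := fun j hj => ((hg _).2 (Finset.mem_image_of_mem b hj)).1
  have hgb : ∀ j ∈ S, b (g (b j)) = b j := fun j hj =>
    ((hg _).2 (Finset.mem_image_of_mem b hj)).2
  -- the elements which are not representatives
  let N : Finset J := S \ (S.image b).image g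
  have hNcard : N.card + (S.image b).card = S.card := by
    have h1 : (S.image b).image g ⊆ S := by
      intro j hj
      obtain ⟨B, hB, rfl⟩ := Finset.mem_image.1 hj
      exact ((hg B).2 hB).1
    have h2 : ((S.image b).image g).card = (S.image b).card := by
      apply Finset.card_image_of_injOn
      intro B hB B' hB' h
      have h3 := ((hg B).2 hB).2
      have h4 := ((hg B').2 hB').2
      rw [← h3, ← h4, h]
    have h3 := Finset.card_sdiff_add_card_eq_card h1
    rw [h2] at h3
    exact h3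
  have hNmem : ∀ j ∈ S, j ∉ N → g (b j) = j := by
    intro j hj hjN
    have h1 : j ∈ (S.image b).image g := by
      by_contra h
      exact hjN (Finset.mem_sdiff.2 ⟨hj, h⟩)
    obtain ⟨B, hB, hBj⟩ := Finset.mem_image.1 h1
    have h2 := ((hg B).2 hB).2
    rw [hBj] at h2
    rw [h2, hBj]
  -- the ratios
  let t : J → M := fun j => if h : y j / y (g (b j)) ∈ M then ⟨_, h⟩ else 0
  have ht : ∀ j ∈ S, b j ≠ b j₀ → (t j : K) = y j / y (g (b j)) := by
    intro j hj hbj
    have h1 : y j / y (g (b j)) ∈ M := by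
      apply hM j hj _ (hgS j hj)
      · rintro rfl
        exact hbj rfl
      · intro h
        apply hbj
        rw [← hgb j hj, h]
      · exact (hgb j hj).symm
    simp only [t, dif_pos h1]
  -- the linear map
  let Φ₁ : (J → M) →ₗ[M] (N → M) := LinearMap.pi fun j =>
    if b j.1 = b j₀ then LinearMap.proj j.1
    else LinearMap.proj j.1 - t j.1 • LinearMap.proj (g (b j.1))
  let Φ₂ : (J → M) →ₗ[M] (Fin r → M) := LinearMap.pi fun i =>
    ∑ j, algebraMap k M (c i j) • LinearMap.proj j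
  have hker := finrank_ker_ge (Φ₁.prod Φ₂)
  rw [Fintype.card_coe] at hker
  have hn : l + 1 ≤ Module.finrank M (LinearMap.ker (Φ₁.prod Φ₂)) := by omega
  obtain ⟨U', hU', hproj⟩ := exists_proj hn
  obtain ⟨c', hc'⟩ := exists_const hK U' hU' y
  obtain ⟨η, hη, hηU⟩ := hproj fun i => algebraMap k M (c' i)
  rw [LinearMap.mem_ker] at hη
  have hη1 : ∀ j : N, Φ₁ η j = 0 := by
    intro j
    have h1 : (Φ₁.prod Φ₂ η).1 = Φ₁ η := rfl
    rw [← h1, hη]
    rfl
  have hη2 : ∀ i : Fin r, Φ₂ η i = 0 := by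
    intro i
    have h1 : (Φ₁.prod Φ₂ η).2 = Φ₂ η := rfl
    rw [← h1, hη]
    rfl
  have hzero : ∀ j ∈ S, b j = b j₀ → j ≠ j₀ → η j = 0 := by
    intro j hj hbj hjj
    have hjN : j ∈ N := by
      by_contra h
      have h1 := hNmem j hj h
      rw [hbj, hg0] at h1
      exact hjj h1.symm
    have h1 := hη1 ⟨j, hjN⟩
    simpa [Φ₁, hbj] using h1
  have hrat : ∀ j ∈ S, b j ≠ b j₀ → (η j : K) = y j / y (g (b j)) * (η (g (b j)) : K) := by
    intro j hj hbj
    by_cases hjN : j ∈ N
    · have h1 := hη1 ⟨j, hjN⟩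
      have h2 : η j - t j * η (g (b j)) = 0 := by
        simpa [Φ₁, hbj] using h1
      have h3 : η j = t j * η (g (b j)) := sub_eq_zero.1 h2
      rw [h3]
      push_cast
      rw [ht j hj hbj]
    · have h1 := hNmem j hj hjN
      rw [h1, div_self (hy j hj), one_mul]
  refine ⟨fun j => (η j : K), ?_, ?_, ?_, fun j => (η j).2, ?_⟩
  · intro i
    have h1 := hη2 i
    have h2 : ∑ j, algebraMap k M (c i j) * η j = 0 := by
      simp only [Φ₂, LinearMap.pi_apply, LinearMap.sum_apply, LinearMap.smul_apply,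
        LinearMap.proj_apply, smul_eq_mul] at h1
      exact h1
    have h3 := congrArg (algebraMap M K) h2
    rw [map_sum, map_zero] at h3
    rw [← h3]
    refine Finset.sum_congr rfl fun j _ => ?_
    rw [map_mul]
    rfl
  · intro j hj hbj hjj
    show (η j : K) = 0
    rw [hzero j hj hbj hjj]
    rfl
  · intro i hi j hj hi0 hj0 hij
    show (η i : K) * y j = (η j : K) * y i
    by_cases hbi : b i = b j₀
    · rw [hzero i hi hbi hi0, hzero j hj (hij ▸ hbi) hj0]
      simp
    · rw [hrat i hi hbi, hrat j hj (hij ▸ hbi), hij]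
      ring
  · intro F _ _ _ _ v τ hτ
    obtain ⟨i, hi, hiv⟩ := hc' F v τ hτ
    refine ⟨i, ?_⟩
    have h1 : algebraMap K F ((η i : M) : K) = algebraMap k F (c' i) := by
      rw [hηU i hi]
      rw [IsScalarTower.algebraMap_apply k K F]
      rfl
    show algebraMap K F (y i) + τ * algebraMap K F ((η i : M) : K) ∉ v.ring
    rw [h1]
    exact hiv

end Pool.Agent.LCyc
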