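import Pool.Agent.LCyc.Defs
import Pool.Agent.ZCyc.Basic

/-!
# Directions: a coordinate projection and a general constant vector
-/

set_option autoImplicit false

namespace Pool.Agent.LCyc

open Pool.Agent.ZCyc

universe u w

variable {k : Type u} [Field k] {J : Type}

section LC7

/-- a subspace of dimension at least `n` of a coordinate space projects onto `n` suitable
coordinates -/
theorem exists_proj {M : Type*} [Field M] {U : Type*} [Fintype U] {V : Submodule M (U → M)} {n : ℕ}
    (hn : n ≤ Module.finrank M V) :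
    ∃ U' : Finset U, U'.card = n ∧ ∀ c : U → M, ∃ η ∈ V, ∀ i ∈ U', η i = c i := by
  classical
  induction n with
  | zero => exact ⟨∅, rfl, fun c => ⟨0, V.zero_mem, fun i hi => absurd hi (Finset.notMem_empty i)⟩⟩
  | succ n ih =>
    obtain ⟨U', hU', h⟩ := ih (by omega)
    let f : V →ₗ[M] (U' → M) :=
      (LinearMap.funLeft M M (fun i : U' => (i : U))).comp V.subtype
    have hf : Module.finrank M (U' → M) < Module.finrank M V := by
      rw [Module.finrank_fintype_fun_eq_card, Fintype.card_coe, hU']
      omega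
    have hker := LinearMap.ker_ne_bot_of_finrank_lt (f := f) hf
    obtain ⟨η₀, hη₀, hne⟩ := (Submodule.ne_bot_iff _).1 hker
    have hz : ∀ i ∈ U', (η₀ : U → M) i = 0 := by
      intro i hi
      have := congrFun (LinearMap.mem_ker.1 hη₀) ⟨i, hi⟩
      simpa [f, LinearMap.funLeft] using this
    have hne' : ∃ i₀, (η₀ : U → M) i₀ ≠ 0 := by
      by_contra hcon
      push Not at hcon
      exact hne (Subtype.ext (funext hcon))
    obtain ⟨i₀, hi₀⟩ := hne'
    have hi₀' : i₀ ∉ U' := fun hmem => hi₀ (hz i₀ hmem)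
    refine ⟨insert i₀ U', by rw [Finset.card_insert_of_notMem hi₀', hU'], fun c => ?_⟩
    obtain ⟨η, hη, hc⟩ := h c
    refine ⟨η + ((c i₀ - η i₀) / (η₀ : U → M) i₀) • (η₀ : U → M),
      V.add_mem hη (V.smul_mem _ η₀.2), fun i hi => ?_⟩
    rcases Finset.mem_insert.1 hi with rfl | hi
    · simp only [Pi.add_apply, Pi.smul_apply, smul_eq_mul]
      rw [div_mul_cancel₀ _ hi₀]
      ring
    · simp only [Pi.add_apply, Pi.smul_apply, smul_eq_mul]
      rw [hz i hi, hc i hi]
      ring

private lemma aeval_mul_of_homog {σ A : Type*} [CommRing A] [Algebra k A]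
    {p : MvPolynomial σ k} {n : ℕ} (hp : p.IsHomogeneous n) (a : A) (x : σ → A) :
    MvPolynomial.aeval (fun i => a * x i) p = a ^ n * MvPolynomial.aeval x p := by
  rw [MvPolynomial.aeval_def, MvPolynomial.aeval_def, MvPolynomial.eval₂_eq,
    MvPolynomial.eval₂_eq, Finset.mul_sum]
  refine Finset.sum_congr rfl fun d hd => ?_
  have h1 : ∏ i ∈ d.support, (a * x i) ^ d i = a ^ n * ∏ i ∈ d.support, x i ^ d i := by
    simp_rw [mul_pow]
    rw [Finset.prod_mul_distrib, Finset.prod_pow_eq_pow_sum, hp.degree_eq_sum_deg_support hd]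
  rw [h1]
  ring

/-- algebraically dependent elements and translations -/
theorem exists_const [Infinite k] {K : Type u} [Field K] [Algebra k K] {l : ℕ}
    (hK : Algebra.trdeg k K = (l : ℕ)) {U : Type} (U' : Finset U) (hU : U'.card = l + 1)
    (y : U → K) : ∃ c : U → k, ∀ (F : Type u) [Field F] [Algebra k F] [Algebra K F]
      [IsScalarTower k K F] (v : Place k F) (τ : F), τ ∉ v.ring →
      ∃ i ∈ U', algebraMap K F (y i) + τ * algebraMap k F (c i) ∉ v.ring := by
  classical
  have hdep : ¬ AlgebraicIndependent k (fun i : U' => y i) := by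
    intro hind
    have h1 := hind.lift_cardinalMk_le_trdeg
    rw [hK, Cardinal.mk_coe_finset, hU] at h1
    simp only [Cardinal.lift_natCast, Nat.cast_le] at h1
    omega
  obtain ⟨g, hg, hg0⟩ : ∃ g : MvPolynomial U' k,
      MvPolynomial.aeval (fun i : U' => y i) g = 0 ∧ g ≠ 0 := by
    by_contra hcon
    push Not at hcon
    exact hdep ((algebraicIndependent_iff (R := k)).2 hcon)
  set d := g.totalDegree with hd
  have hgd : MvPolynomial.homogeneousComponent d g ≠ 0 := by
    intro h0
    obtain ⟨m, hm, hmd⟩ : ∃ m ∈ g.support, m.degree = d := by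
      have hne : g.support.Nonempty := by
        rwa [Finset.nonempty_iff_ne_empty, Ne, MvPolynomial.support_eq_empty]
      obtain ⟨m, hm, he⟩ := Finset.exists_mem_eq_sup g.support hne
        (fun s => s.sum fun _ e => e)
      exact ⟨m, hm, by rw [hd, MvPolynomial.totalDegree, he]; rfl⟩
    have h1 := congrArg (MvPolynomial.coeff m) h0
    rw [MvPolynomial.coeff_homogeneousComponent, if_pos hmd, MvPolynomial.coeff_zero] at h1
    exact (MvPolynomial.mem_support_iff.1 hm) h1
  obtain ⟨c', hc'⟩ : ∃ c' : U' → k,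
      MvPolynomial.eval c' (MvPolynomial.homogeneousComponent d g) ≠ 0 := by
    by_contra hcon
    push Not at hcon
    exact hgd (MvPolynomial.funext fun x => by rw [hcon x, map_zero])
  refine ⟨fun i => if h : i ∈ U' then c' ⟨i, h⟩ else 0, ?_⟩
  intro F _ _ _ _ v τ hτ
  by_contra hcon
  push Not at hcon
  have hτ0 : τ ≠ 0 := fun h => hτ (h ▸ v.ring.zero_mem)
  have hT : τ⁻¹ ∈ v.ring := (v.ring.mem_or_inv_mem τ).resolve_left hτ
  let T : v.ring := ⟨τ⁻¹, hT⟩
  have hu : ∀ i : U', algebraMap K F (y i) + τ * algebraMap k F (c' i) ∈ v.ring := by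
    intro i
    have := hcon i i.2
    rwa [dif_pos i.2] at this
  let Z : U' → v.ring := fun i => ⟨_, hu i⟩ * T - algebraMap k v.ring (c' i)
  let ι : v.ring →ₐ[k] F := { v.ring.subtype with commutes' := fun _ => rfl }
  let ρ : v.ring →ₐ[k] v.Res := { IsLocalRing.residue v.ring with commutes' := fun _ => rfl }
  have hιZ : ∀ i, τ * ι (Z i) = algebraMap K F (y i) := by
    intro i
    have : ι (Z i) = (algebraMap K F (y i) + τ * algebraMap k F (c' i)) * τ⁻¹ -
      algebraMap k F (c' i) := rfl
    rw [this, mul_sub, mul_comm (_ + _), ← mul_assoc, mul_inv_cancel₀ hτ0]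
    ring
  -- the relation in the field
  have hrel : ∑ n ∈ Finset.range (d + 1),
      T ^ (d - n) * MvPolynomial.aeval Z (MvPolynomial.homogeneousComponent n g) = 0 := by
    have hι : Function.Injective ι := Subtype.val_injective
    apply hι
    rw [map_zero, map_sum]
    have h1 : MvPolynomial.aeval (fun i : U' => algebraMap K F (y i)) g = 0 := by
      have h2 : (MvPolynomial.aeval (fun i : U' => (IsScalarTower.toAlgHom k K F) (y i))) g =
          IsScalarTower.toAlgHom k K F (MvPolynomial.aeval (fun i : U' => y i) g) :=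
        (MvPolynomial.comp_aeval_apply _ _ _).symm
      rw [hg, map_zero] at h2
      exact h2
    have h2 : (fun i : U' => algebraMap K F (y i)) = fun i => τ * ι (Z i) :=
      funext fun i => (hιZ i).symm
    rw [h2, ← MvPolynomial.sum_homogeneousComponent g, map_sum, ← hd] at h1
    have h3 : ∀ n ∈ Finset.range (d + 1),
        ι (T ^ (d - n) * MvPolynomial.aeval Z (MvPolynomial.homogeneousComponent n g)) =
        τ⁻¹ ^ d * MvPolynomial.aeval (fun i => τ * ι (Z i))
          (MvPolynomial.homogeneousComponent n g) := by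
      intro n hn
      have hn' : n ≤ d := Nat.lt_succ_iff.1 (Finset.mem_range.1 hn)
      rw [aeval_mul_of_homog (MvPolynomial.homogeneousComponent_isHomogeneous n g), map_mul,
        map_pow, MvPolynomial.comp_aeval_apply]
      have h4 : ι T = τ⁻¹ := rfl
      rw [h4, ← mul_assoc]
      congr 1
      obtain ⟨e, he⟩ := Nat.exists_eq_add_of_le hn'
      rw [he, Nat.add_sub_cancel_left, add_comm n e, pow_add, mul_assoc, ← mul_pow,
        inv_mul_cancel₀ hτ0, one_pow, mul_one]
    rw [Finset.sum_congr rfl h3, ← Finset.mul_sum, h1, mul_zero]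
  -- residues
  have hρT : ρ T = 0 := by
    have hTm : ¬ IsUnit T := by
      intro hunit
      obtain ⟨s, hs⟩ := hunit.exists_right_inv
      have h5 : τ⁻¹ * (s : F) = 1 := congrArg Subtype.val hs
      have h6 : (s : F) = τ := by
        have := congrArg (fun z => τ * z) h5
        simpa [← mul_assoc, mul_inv_cancel₀ hτ0] using this
      exact hτ (h6 ▸ s.2)
    exact (IsLocalRing.residue_eq_zero_iff T).2 ((IsLocalRing.mem_maximalIdeal T).2 hTm)
  have hρZ : ∀ i, ρ (Z i) = (-1) * algebraMap k v.Res (c' i) := by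
    intro i
    have h5 : ρ (Z i) = ρ ⟨_, hu i⟩ * ρ T - ρ (algebraMap k v.ring (c' i)) := by
      rw [← map_mul, ← map_sub]
    rw [h5, hρT, mul_zero, zero_sub, AlgHom.commutes, neg_one_mul]
  have hfin := congrArg ρ hrel
  rw [map_zero, map_sum, Finset.sum_range_succ, Finset.sum_eq_zero, zero_add, Nat.sub_self,
    pow_zero, one_mul, MvPolynomial.comp_aeval_apply] at hfin
  · have h6 : (fun i => ρ (Z i)) = fun i => (-1) * algebraMap k v.Res (c' i) := funext hρZ
    rw [h6, aeval_mul_of_homog (MvPolynomial.homogeneousComponent_isHomogeneous d g)] at hfin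
    have h7 : MvPolynomial.aeval (fun i => algebraMap k v.Res (c' i))
        (MvPolynomial.homogeneousComponent d g) =
        algebraMap k v.Res (MvPolynomial.eval c' (MvPolynomial.homogeneousComponent d g)) :=
      (MvPolynomial.aeval_algebraMap_apply v.Res c' _).trans
        (by rw [MvPolynomial.aeval_eq_eval])
    rw [h7] at hfin
    rcases mul_eq_zero.1 hfin with h8 | h8
    · exact pow_ne_zero _ (neg_ne_zero.2 one_ne_zero) h8
    · exact hc' ((map_eq_zero_iff _ (algebraMap k v.Res).injective).1 h8)
  · intro n hn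
    have hn' : n < d := Finset.mem_range.1 hn
    rw [map_mul, map_pow, hρT, zero_pow (by omega), zero_mul]

end LC7

end Pool.Agent.LCyc
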