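import Pool.Agent.LCyc.Defs

/-!
# The transcendence degree of a quotient drops strictly
-/

set_option autoImplicit false

namespace Pool.Agent.LCyc

universe u w

variable {k : Type u} [Field k] {J : Type}

section LC5a

/-- the transcendence degree of a quotient drops strictly -/
theorem trdeg_quot_lt {B : Type u} [CommRing B] [Algebra k B] {p q : Ideal B}
    (hp : p.IsPrime) (hq : q.IsPrime) (hpq : p < q) {n : ℕ}
    (hn : Algebra.trdeg k (B ⧸ p) = (n : ℕ)) :
    Algebra.trdeg k (B ⧸ q) < Algebra.trdeg k (B ⧸ p) := by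
  by_contra hlt
  rw [not_lt] at hlt
  let φ : B ⧸ p →ₐ[k] B ⧸ q := Ideal.Quotient.factorₐ k hpq.le
  have hφ : Function.Surjective φ := Ideal.Quotient.factor_surjective hpq.le
  obtain ⟨ι, x, hx⟩ := exists_isTranscendenceBasis' k (B ⧸ q)
  have hcard : Cardinal.mk ι = Algebra.trdeg k (B ⧸ q) := hx.cardinalMk_eq_trdeg
  choose a ha using fun i => hφ (x i)
  have hcomp : φ ∘ a = x := funext ha
  have hind : AlgebraicIndependent k a := by
    apply AlgebraicIndependent.of_comp φ
    rw [hcomp]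
    exact hx.1
  have hbas : IsTranscendenceBasis k a :=
    hind.isTranscendenceBasis_of_trdeg_le (by rw [hn]; exact Cardinal.natCast_lt_aleph0)
      (by rw [hcard]; exact hlt)
  have halg := hbas.isAlgebraic
  obtain ⟨b, hbq, hbp⟩ := Set.exists_of_ssubset hpq
  have hb0 : (Ideal.Quotient.mk p b : B ⧸ p) ≠ 0 := fun h => hbp (Ideal.Quotient.eq_zero_iff_mem.1 h)
  obtain ⟨r, hr, hdvd⟩ := (halg.isAlgebraic (Ideal.Quotient.mk p b)).exists_nonzero_dvd
    (mem_nonZeroDivisors_of_ne_zero hb0)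
  obtain ⟨c, hc⟩ := hdvd
  have hφb : φ (Ideal.Quotient.mk p b) = 0 := Ideal.Quotient.eq_zero_iff_mem.2 hbq
  have hφr : φ (r : B ⧸ p) = 0 := by
    have h1 : φ (r : B ⧸ p) = φ (Ideal.Quotient.mk p b) * φ c := by
      rw [← map_mul, ← hc]
      rfl
    rw [h1, hφb, zero_mul]
  have hmem : (r : B ⧸ p) ∈ (MvPolynomial.aeval a : MvPolynomial ι k →ₐ[k] B ⧸ p).range :=
    (Algebra.adjoin_range_eq_range_aeval k a).le r.2
  obtain ⟨P, hP⟩ := hmem
  have hP0 : MvPolynomial.aeval x P = 0 := by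
    rw [← hcomp]
    have h2 : MvPolynomial.aeval (φ ∘ a) P = φ (MvPolynomial.aeval a P) :=
      (MvPolynomial.comp_aeval_apply (f := a) φ P).symm
    rw [h2]
    exact (congrArg φ hP).trans hφr
  have hPz : P = 0 := (injective_iff_map_eq_zero _).1 hx.1 P hP0
  apply hr
  apply Subtype.ext
  rw [← hP, hPz]
  simp

end LC5a

end Pool.Agent.LCyc
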