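import Pool.Agent.LCyc.Defs
import Pool.Agent.LCyc.Strict
import Pool.Agent.ZCyc.Basic

/-!
# Prime divisors whose center on an affine model has the largest dimension
-/

set_option autoImplicit false

namespace Pool.Agent.LCyc

open Pool.Agent.ZCyc

universe u w

section Core

open scoped nonZeroDivisors

variable {B F : Type u} [CommRing B] [IsDomain B] [Field F] [Algebra B F] [IsFractionRing B F]

/-- a valuation ring which dominates the localisation at a prime ideal of height one -/
private theorem fin_core [IsNoetherianRing B] [IsIntegrallyClosed B] (V : ValuationSubring F)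
    (hBV : ∀ b : B, algebraMap B F b ∈ V) (q : Ideal B) [hq : q.IsPrime]
    (hqV : ∀ b : B, b ∈ q ↔ algebraMap B F b ∈ V.nonunits) (hq0 : q ≠ ⊥)
    (hmin : ∀ q' : Ideal B, q'.IsPrime → q' ≤ q → q' = ⊥ ∨ q' = q) :
    (∀ x : F, x ∈ V ↔ ∃ b s : B, s ∉ q ∧ x = algebraMap B F b * (algebraMap B F s)⁻¹) ∧
      IsDiscreteValuationRing V := by
  have hS : q.primeCompl ≤ B⁰ := q.primeCompl_le_nonZeroDivisors
  set O : Subalgebra B F := Localization.subalgebra.ofField F q.primeCompl hS with hO
  have hmemO : ∀ x : F, x ∈ O ↔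
      ∃ b s : B, s ∉ q ∧ x = algebraMap B F b * (algebraMap B F s)⁻¹ := by
    intro x
    constructor
    · rintro ⟨b, s, hs, h⟩
      exact ⟨b, s, hs, h⟩
    · rintro ⟨b, s, hs, h⟩
      exact ⟨b, s, hs, h⟩
  have : IsLocalization q.primeCompl O := Localization.subalgebra.isLocalization_ofField F _ hS
  have : IsLocalization.AtPrime O q := ‹IsLocalization q.primeCompl O›
  have : IsLocalRing O := IsLocalization.AtPrime.isLocalRing O q
  have : IsNoetherianRing O := IsLocalization.isNoetherianRing q.primeCompl O inferInstance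
  have : IsIntegrallyClosed O := isIntegrallyClosed_of_isLocalization O q.primeCompl hS
  have : IsFractionRing O F := Localization.subalgebra.isFractionRing_ofField F _ hS
  have hprimes : ∀ P : Ideal O, P ≠ ⊥ → P.IsPrime → P = IsLocalRing.maximalIdeal O := by
    intro P hP0 hP
    have h1 : Ideal.map (algebraMap B O) (P.comap (algebraMap B O)) = P :=
      IsLocalization.map_under q.primeCompl O P
    have hle : P.comap (algebraMap B O) ≤ q := by
      intro b hb
      by_contra hbq
      have hu : IsUnit (algebraMap B O b) := IsLocalization.map_units O (⟨b, hbq⟩ : q.primeCompl)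
      exact hP.ne_top (Ideal.eq_top_of_isUnit_mem _ hb hu)
    rcases hmin _ (hP.comap _) hle with h2 | h2
    · rw [h2, Ideal.map_bot] at h1
      exact absurd h1.symm hP0
    · rw [h2, IsLocalization.AtPrime.map_eq_maximalIdeal q O] at h1
      exact h1.symm
  have hIC : IsIntegrallyClosed O ∧
      ∀ P : Ideal O, P ≠ ⊥ → P.IsPrime → P = IsLocalRing.maximalIdeal O :=
    ⟨inferInstance, hprimes⟩
  have hVR : ValuationRing O := by
    have h3 := (tfae_of_isNoetherianRing_of_isLocalRing_of_isDomain O).out 3 1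
    exact h3.mp hIC
  have hunit : ∀ s : B, s ∉ q → (algebraMap B F s)⁻¹ ∈ V := by
    intro s hs
    rw [hqV, ValuationSubring.mem_nonunits_iff_or] at hs
    push Not at hs
    exact hs.2
  have hOV : ∀ x : F, x ∈ O → x ∈ V := by
    intro x hx
    obtain ⟨b, s, hs, rfl⟩ := (hmemO x).1 hx
    exact mul_mem (hBV b) (hunit s hs)
  have hVO : ∀ x : F, x ∈ V → x ∈ O := by
    intro x hx
    by_cases hx0 : x = 0
    · rw [hx0]
      exact zero_mem _
    rcases ValuationRing.isInteger_or_isInteger O x with ⟨y, hy⟩ | ⟨y, hy⟩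
    · rw [← hy]
      exact y.2
    · have hy' : (y : F) = x⁻¹ := hy
      obtain ⟨b, s, hs, hbs⟩ := (hmemO y).1 y.2
      rw [hy'] at hbs
      have hs0 : algebraMap B F s ≠ 0 := by
        intro h0
        apply hs
        rw [hqV, h0, ValuationSubring.mem_nonunits_iff_or]
        exact Or.inl rfl
      have hb0 : algebraMap B F b ≠ 0 := by
        intro h0
        rw [h0, zero_mul] at hbs
        exact inv_ne_zero hx0 hbs
      have hxe : x = algebraMap B F s * (algebraMap B F b)⁻¹ := by
        have : x = (x⁻¹)⁻¹ := (inv_inv x).symm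
        rw [this, hbs, mul_inv, inv_inv, mul_comm]
      refine (hmemO x).2 ⟨s, b, ?_, hxe⟩
      intro hbq
      rw [hqV, ValuationSubring.mem_nonunits_iff_or] at hbq
      rcases hbq with h | h
      · exact hb0 h
      · apply h
        have : (algebraMap B F b)⁻¹ = x * (algebraMap B F s)⁻¹ := by
          rw [hxe]
          field_simp
        rw [this]
        exact mul_mem hx (hunit s hs)
  refine ⟨fun x => ⟨fun hx => (hmemO x).1 (hVO x hx), fun hx => hOV x ((hmemO x).2 hx)⟩, ?_⟩
  have hnf : ¬ IsField O := by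
    intro hf
    apply hq0
    rw [eq_bot_iff]
    intro b hb
    by_contra hb0
    have hne : algebraMap B O b ≠ 0 := by
      intro h0
      apply hb0
      have h1 : algebraMap B F b = 0 := congrArg (fun z : O => (z : F)) h0
      rw [Submodule.mem_bot]
      exact (IsFractionRing.injective B F) (by rw [h1, map_zero])
    obtain ⟨c, hc⟩ := hf.mul_inv_cancel hne
    have hu : IsUnit (algebraMap B O b) := IsUnit.of_mul_eq_one c hc
    have h2 : algebraMap B O b ∈ IsLocalRing.maximalIdeal O := by
      rw [← IsLocalization.AtPrime.map_eq_maximalIdeal q O]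
      exact Ideal.mem_map_of_mem _ hb
    exact (IsLocalRing.mem_maximalIdeal _).1 h2 hu
  have hD : IsDiscreteValuationRing O := by
    have h4 := (IsDiscreteValuationRing.TFAE O hnf).out 1 0
    exact h4.mp hVR
  let e : O ≃+* V :=
    { toFun := fun x => ⟨x, hOV x x.2⟩
      invFun := fun x => ⟨x, hVO x x.2⟩
      left_inv := fun _ => rfl
      right_inv := fun _ => rfl
      map_mul' := fun _ _ => rfl
      map_add' := fun _ _ => rfl }
  exact IsDiscreteValuationRing.RingEquivClass.isDiscreteValuationRing e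

end Core

section LC5

variable {k : Type u} [Field k]

/-- a noetherian normal ring over which `F` is the field of fractions -/
private theorem fin_model [CharZero k] {F : Type u} [Field F] [Algebra k F]
    (hF : (⊤ : IntermediateField k F).FG) {A : Subalgebra k F} (hA : A.FG)
    (hAF : ∀ y : F, IsAlgebraic A y) :
    ∃ B : Subalgebra k F, A ≤ B ∧ IsNoetherianRing B ∧ IsIntegrallyClosed B ∧
      IsFractionRing B F ∧ ∀ V : ValuationSubring F, (∀ a ∈ A, a ∈ V) → ∀ b ∈ B, b ∈ V := by
  have : Algebra.FiniteType k A := A.fg_iff_finiteType.mp hA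
  obtain ⟨n, g, hg, hgi⟩ := exists_integral_inj_algHom_of_fg k A
  let P := MvPolynomial (Fin n) k
  let _ : Algebra P A := g.toRingHom.toAlgebra
  let _ : Algebra P F := (A.val.comp g).toRingHom.toAlgebra
  have : IsScalarTower P A F := IsScalarTower.of_algebraMap_eq fun _ => rfl
  have : IsScalarTower k P F := IsScalarTower.of_algebraMap_eq fun c =>
    ((A.val.comp g).commutes c).symm
  have : Algebra.IsIntegral P A := ⟨hgi⟩
  have : Algebra.IsAlgebraic A F := ⟨hAF⟩
  have hinj : Function.Injective (algebraMap P F) := Subtype.val_injective.comp hg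
  have : FaithfulSMul P F := (faithfulSMul_iff_algebraMap_injective P F).2 hinj
  have : FaithfulSMul P A := (faithfulSMul_iff_algebraMap_injective P A).2 hg
  have : Algebra.IsAlgebraic P A := inferInstance
  have : Algebra.IsAlgebraic P F := Algebra.IsAlgebraic.trans P A F
  let E := FractionRing P
  let _ : Algebra E F := FractionRing.liftAlgebra P F
  have : IsScalarTower P E F := FractionRing.isScalarTower_liftAlgebra P F
  have : Algebra.IsAlgebraic E F := IsFractionRing.comap_isAlgebraic_iff.mp
    (inferInstance : Algebra.IsAlgebraic P F)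
  have : IsScalarTower k E F := by
    refine IsScalarTower.of_algebraMap_eq fun c => ?_
    rw [IsScalarTower.algebraMap_apply k P F, IsScalarTower.algebraMap_apply P E F,
      ← IsScalarTower.algebraMap_apply k P E]
  have hfd : FiniteDimensional E F := by
    obtain ⟨S, hS⟩ := hF
    have h1 : IntermediateField.adjoin E (S : Set F) = ⊤ := by
      rw [eq_top_iff]
      intro x _
      have hx : x ∈ IntermediateField.adjoin k (S : Set F) := by
        rw [hS]
        trivial
      have h2 : IntermediateField.adjoin k (S : Set F) ≤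
          (IntermediateField.adjoin E (S : Set F)).restrictScalars k :=
        IntermediateField.adjoin_le_iff.mpr (IntermediateField.subset_adjoin E (S : Set F))
      exact h2 hx
    have h3 : FiniteDimensional E (IntermediateField.adjoin E (S : Set F)) :=
      IntermediateField.finiteDimensional_adjoin fun x _ =>
        (Algebra.IsAlgebraic.isAlgebraic x).isIntegral
    rw [h1] at h3
    exact LinearEquiv.finiteDimensional (IntermediateField.topEquiv (F := E) (E := F)).toLinearEquiv
  have : CharZero E := charZero_of_injective_algebraMap (algebraMap k E).injective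
  have : Algebra.IsSeparable E F := inferInstance
  refine ⟨(integralClosure P F).restrictScalars k, ?_, ?_, ?_, ?_, ?_⟩
  · intro a ha
    have h4 : IsIntegral P (⟨a, ha⟩ : A) := Algebra.IsIntegral.isIntegral _
    exact h4.map (IsScalarTower.toAlgHom P A F)
  · exact integralClosure.isNoetherianRing (A := P) (K := E) (L := F)
  · exact integralClosure.isIntegrallyClosedOfFiniteExtension (R := P) E (L := F)
  · exact integralClosure.isFractionRing_of_finite_extension (A := P) E F
  · intro V hV b hb
    have hb' : (algebraMap P F).IsIntegralElem b := hb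
    let h : P →+* V := (algebraMap P F).codRestrict V.toSubring fun p => hV _ (g p).2
    have h5 : (algebraMap V F).IsIntegralElem b := by
      apply RingHom.IsIntegralElem.of_comp (f := h)
      exact hb'
    obtain ⟨y, hy⟩ := IsIntegrallyClosed.isIntegral_iff.mp h5
    rw [← hy]
    exact y.2

/-- elements which are algebraic over a smaller ring -/
private theorem fin_alg_of_le {M : Type u} [Field M] [Algebra k M] {S T : Subalgebra k M}
    (h : S ≤ T) {x : M} (hx : IsAlgebraic S x) : IsAlgebraic T x := by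
  let _ : Algebra S T := (Subalgebra.inclusion h).toRingHom.toAlgebra
  have : IsScalarTower S T M := IsScalarTower.of_algebraMap_eq fun _ => rfl
  exact hx.extendScalars (Subalgebra.inclusion_injective h)

open scoped IntermediateField.algebraAdjoinAdjoin in
private theorem fin_alg_adjoin {M : Type u} [Field M] [Algebra k M] {S : Set M} {T : Subalgebra k M}
    (h : S ⊆ T) {x : M} (hx : IsAlgebraic (IntermediateField.adjoin k S) x) : IsAlgebraic T x :=
  fin_alg_of_le (Algebra.adjoin_le h)
    ((IsFractionRing.isAlgebraic_iff (Algebra.adjoin k S) (IntermediateField.adjoin k S) M).mpr hx)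

/-- the prime ideal of a prime divisor has height one -/
private theorem fin_height {F : Type u} [Field F] [Algebra k F] {l : ℕ}
    (hl : Algebra.trdeg k F = (l + 1 : ℕ)) {A B : Subalgebra k F} (hAB : A ≤ B)
    (hfrac : IsFractionRing B F) {v : Place k F} (hBv : ∀ b ∈ B, b ∈ v.ring)
    (h2 : Algebra.trdeg k v.Res + 1 = Algebra.trdeg k F)
    (h3 : ∀ e : v.Res, IsAlgebraic (IntermediateField.adjoin k (v.res '' (A : Set F))) e)
    {q : Ideal B} (hqV : ∀ b : B, b ∈ q ↔ (b : F) ∈ v.ring.nonunits) (hq : q.IsPrime) :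
    q ≠ ⊥ ∧ ∀ q' : Ideal B, q'.IsPrime → q' ≤ q → q' = ⊥ ∨ q' = q := by
  constructor
  · rintro rfl
    apply v.ne_top
    rw [eq_top_iff]
    intro x _
    obtain ⟨b, s, hs, rfl⟩ := IsFractionRing.div_surjective B x
    have hs0 : s ≠ 0 := nonZeroDivisors.ne_zero hs
    have h4 : ¬ (s : F) ∈ v.ring.nonunits := by
      rw [← hqV, Submodule.mem_bot]
      exact hs0
    rw [ValuationSubring.mem_nonunits_iff_or] at h4
    push Not at h4
    rw [div_eq_mul_inv]
    exact mul_mem (hBv _ b.2) h4.2
  · intro q' hq' hle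
    by_contra hcon
    push Not at hcon
    have hlt1 : (⊥ : Ideal B) < q' := bot_lt_iff_ne_bot.mpr hcon.1
    have hlt2 : q' < q := lt_of_le_of_ne hle hcon.2
    -- the transcendence degree of `B`
    have hBF : Algebra.IsAlgebraic B F := IsLocalization.isAlgebraic F (nonZeroDivisors B)
    have hB : Algebra.trdeg k (B ⧸ (⊥ : Ideal B)) = (l + 1 : ℕ) := by
      rw [(AlgEquiv.quotientBot k B).trdeg_eq, ← hl, ← _root_.trdeg_add_eq k B (A := F),
        _root_.trdeg_eq_zero (R := B) (A := F), add_zero]
    have hq'1 := trdeg_quot_lt (k := k) (Ideal.isPrime_bot) hq' hlt1 hB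
    rw [hB] at hq'1
    obtain ⟨m, hm⟩ := Cardinal.lt_aleph0.mp (hq'1.trans (Cardinal.natCast_lt_aleph0))
    have hq1 := trdeg_quot_lt hq' hq hlt2 hm
    rw [hm] at hq1 hq'1
    -- the residue field
    let inc : B →ₐ[k] v.ring :=
      { toFun := fun b => ⟨b, hBv b b.2⟩
        map_one' := rfl
        map_mul' := fun _ _ => rfl
        map_zero' := rfl
        map_add' := fun _ _ => rfl
        commutes' := fun _ => rfl }
    let φ : B →ₐ[k] v.Res := (IsScalarTower.toAlgHom k v.ring v.Res).comp inc
    have hφ : ∀ b, φ b = IsLocalRing.residue v.ring ⟨b, hBv b b.2⟩ := fun _ => rfl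
    have hker : ∀ b ∈ q, φ b = 0 := by
      intro b hb
      rw [hφ, IsLocalRing.residue_eq_zero_iff]
      obtain ⟨_, h5⟩ := (ValuationSubring.mem_nonunits_iff_exists_mem_maximalIdeal).mp
        ((hqV b).mp hb)
      exact h5
    let ψ : (B ⧸ q) →ₐ[k] v.Res := Ideal.Quotient.liftₐ q φ hker
    have h6 : Algebra.trdeg k φ.range ≤ Algebra.trdeg k (B ⧸ q) := by
      have h7 : ψ.range = φ.range := by
        ext e
        constructor
        · rintro ⟨x, rfl⟩
          obtain ⟨b, rfl⟩ := Ideal.Quotient.mk_surjective x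
          exact ⟨b, rfl⟩
        · rintro ⟨b, rfl⟩
          exact ⟨Ideal.Quotient.mk q b, rfl⟩
      rw [← h7]
      exact _root_.trdeg_le_of_surjective ψ.rangeRestrict ψ.rangeRestrict_surjective
    have h8 : Algebra.IsAlgebraic φ.range v.Res := by
      refine ⟨fun e => fin_alg_adjoin ?_ (h3 e)⟩
      rintro _ ⟨a, ha, rfl⟩
      refine ⟨⟨a, hAB ha⟩, ?_⟩
      rw [Place.res, dif_pos (hBv a (hAB ha))]
      rfl
    have hfs : FaithfulSMul k φ.range :=
      (faithfulSMul_iff_algebraMap_injective k φ.range).2 (algebraMap k φ.range).injective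
    have h9 : Algebra.trdeg k φ.range = Algebra.trdeg k v.Res := by
      rw [← _root_.trdeg_add_eq k φ.range (A := v.Res),
        _root_.trdeg_eq_zero (R := φ.range) (A := v.Res), add_zero]
    have h10 : Algebra.trdeg k v.Res = (l : ℕ) := by
      rw [hl] at h2
      have h11 : Algebra.trdeg k v.Res < Cardinal.aleph0 := by
        refine lt_of_le_of_lt (le_self_add) (lt_of_eq_of_lt h2 Cardinal.natCast_lt_aleph0)
      obtain ⟨m', hm'⟩ := Cardinal.lt_aleph0.mp h11
      rw [hm'] at h2 ⊢
      have : m' + 1 = l + 1 := by exact_mod_cast h2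
      rw [Nat.succ_injective this]
    have h12 : ((l : ℕ) : Cardinal) < (m : ℕ) := by
      rw [← h10, ← h9]
      exact lt_of_le_of_lt h6 hq1
    have h13 : l < m := by exact_mod_cast h12
    have h14 : m < l + 1 := by exact_mod_cast hq'1
    omega


/-- the ideal of the functions which vanish at a place -/
private theorem fin_ideal {F : Type u} [Field F] [Algebra k F] {B : Subalgebra k F} (v : Place k F)
    (hBv : ∀ b ∈ B, b ∈ v.ring) :
    ∃ q : Ideal B, q.IsPrime ∧ ∀ b : B, b ∈ q ↔ (b : F) ∈ v.ring.nonunits := by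
  let inc : B →+* v.ring :=
    { toFun := fun b => ⟨b, hBv b b.2⟩
      map_one' := rfl
      map_mul' := fun _ _ => rfl
      map_zero' := rfl
      map_add' := fun _ _ => rfl }
  refine ⟨(IsLocalRing.maximalIdeal v.ring).comap inc, inferInstance, fun b => ?_⟩
  rw [Ideal.mem_comap, ValuationSubring.mem_nonunits_iff_exists_mem_maximalIdeal]
  exact ⟨fun h => ⟨hBv b b.2, h⟩, fun ⟨_, h⟩ => h⟩

/-- the prime ideal of a prime divisor on the normal model -/
private theorem fin_all {F : Type u} [Field F] [Algebra k F] {l : ℕ}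
    (hl : Algebra.trdeg k F = (l + 1 : ℕ)) {A B : Subalgebra k F} (hAB : A ≤ B)
    (hN : IsNoetherianRing B) (hI : IsIntegrallyClosed B) (hfrac : IsFractionRing B F)
    {v : Place k F} (hBv : ∀ b ∈ B, b ∈ v.ring)
    (h2 : Algebra.trdeg k v.Res + 1 = Algebra.trdeg k F)
    (h3 : ∀ e : v.Res, IsAlgebraic (IntermediateField.adjoin k (v.res '' (A : Set F))) e) :
    ∃ q : Ideal B, q.IsPrime ∧ (∀ b : B, b ∈ q ↔ (b : F) ∈ v.ring.nonunits) ∧
      (∀ q' : Ideal B, q'.IsPrime → q' ≤ q → q' = ⊥ ∨ q' = q) ∧
      (∀ x : F, x ∈ v.ring ↔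
        ∃ b s : B, s ∉ q ∧ x = algebraMap B F b * (algebraMap B F s)⁻¹) ∧
      IsDiscreteValuationRing v.ring := by
  obtain ⟨q, hq, hqV⟩ := fin_ideal v hBv
  obtain ⟨hq0, hmin⟩ := fin_height hl hAB hfrac hBv h2 h3 hqV hq
  obtain ⟨h4, h5⟩ := fin_core v.ring (fun b => hBv _ b.2) q hqV hq0 hmin
  exact ⟨q, hq, hqV, hmin, h4, h5⟩

/-- finiteness of the set of prime divisors with center of dimension `l` where `f` vanishes -/
theorem finite_places [CharZero k] {F : Type u} [Field F] [Algebra k F]
    (hF : (⊤ : IntermediateField k F).FG) {l : ℕ} (hl : Algebra.trdeg k F = (l + 1 : ℕ))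
    {A : Subalgebra k F} (hA : A.FG) (hAF : ∀ y : F, IsAlgebraic A y) {f : F} (hf : f ∈ A)
    (hf0 : f ≠ 0) :
    {v : Place k F | (∀ a ∈ A, a ∈ v.ring) ∧ v.Vanishes f ∧
      Algebra.trdeg k v.Res + 1 = Algebra.trdeg k F ∧
      ∀ e : v.Res, IsAlgebraic (IntermediateField.adjoin k (v.res '' (A : Set F))) e}.Finite := by
  obtain ⟨B, hAB, hN, hI, hfrac, hV⟩ := fin_model hF hA hAF
  set S : Set (Place k F) := {v : Place k F | (∀ a ∈ A, a ∈ v.ring) ∧ v.Vanishes f ∧
      Algebra.trdeg k v.Res + 1 = Algebra.trdeg k F ∧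
      ∀ e : v.Res, IsAlgebraic (IntermediateField.adjoin k (v.res '' (A : Set F))) e} with hS
  have key : ∀ v ∈ S, ∃ q : Ideal B, q.IsPrime ∧ (∀ b : B, b ∈ q ↔ (b : F) ∈ v.ring.nonunits) ∧
      (∀ q' : Ideal B, q'.IsPrime → q' ≤ q → q' = ⊥ ∨ q' = q) ∧
      (∀ x : F, x ∈ v.ring ↔
        ∃ b s : B, s ∉ q ∧ x = algebraMap B F b * (algebraMap B F s)⁻¹) ∧
      IsDiscreteValuationRing v.ring :=
    fun v hv => fin_all hl hAB hN hI hfrac (hV v.ring hv.1) hv.2.2.1 hv.2.2.2
  choose! Q hQ using key
  refine Set.Finite.of_injOn (f := Q) (t := (Ideal.span {(⟨f, hAB hf⟩ : B)}).minimalPrimes) ?_ ?_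
    (Ideal.finite_minimalPrimes_of_isNoetherianRing B _)
  · intro v hv
    obtain ⟨h1, h2, h3, -, -⟩ := hQ v hv
    refine ⟨⟨h1, ?_⟩, ?_⟩
    · rw [Ideal.span_le, Set.singleton_subset_iff]
      exact (h2 _).mpr hv.2.1
    · rintro q' ⟨hq', hfq'⟩ hle
      rcases h3 q' hq' hle with h4 | h4
      · exfalso
        apply hf0
        have h5 : (⟨f, hAB hf⟩ : B) ∈ q' := hfq' (Ideal.subset_span rfl)
        rw [h4, Submodule.mem_bot] at h5
        exact congrArg Subtype.val h5
      · exact h4.ge
  · intro v hv v' hv' hvv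
    apply Place.ext
    ext x
    rw [(hQ v hv).2.2.2.1 x, (hQ v' hv').2.2.2.1 x, hvv]

/-- prime divisors with center of dimension `l` are discrete -/
theorem discrete_places [CharZero k] {F : Type u} [Field F] [Algebra k F]
    (hF : (⊤ : IntermediateField k F).FG) {l : ℕ} (hl : Algebra.trdeg k F = (l + 1 : ℕ))
    {A : Subalgebra k F} (hA : A.FG) (hAF : ∀ y : F, IsAlgebraic A y) {v : Place k F}
    (h1 : ∀ a ∈ A, a ∈ v.ring) (h2 : Algebra.trdeg k v.Res + 1 = Algebra.trdeg k F)
    (h3 : ∀ e : v.Res, IsAlgebraic (IntermediateField.adjoin k (v.res '' (A : Set F))) e) :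
    IsDiscreteValuationRing v.ring := by
  obtain ⟨B, hAB, hN, hI, hfrac, hV⟩ := fin_model hF hA hAF
  obtain ⟨_, _, _, _, _, h4⟩ := fin_all hl hAB hN hI hfrac (hV v.ring h1) h2 h3
  exact h4

end LC5

end Pool.Agent.LCyc
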