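import Pool.Agent.LCyc.Center

/-!
# The operator attached to a character, and descent of coefficients
-/

set_option autoImplicit false

namespace Pool.Agent.LCyc

open Pool.Agent.ZCyc

universe u w

variable {k : Type u} [Field k] {J : Type}

section LC3

variable [Fintype J] [DecidableEq J] {m : ℕ} [NeZero m] {R : Type w} [Field R]

/-- the operator `P ↦ ∑ g, ψ g • (act ζ g P)` -/
noncomputable def op (ζ : kˣ) (ψ : AddChar (J → ZMod m) R) :
    (Ideal (MvPolynomial J k) →₀ R) →ₗ[R] (Ideal (MvPolynomial J k) →₀ R) :=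
  Finsupp.linearCombination R fun P => ∑ g : J → ZMod m, Finsupp.single (act ζ g P) (ψ g)

lemma op_single (ζ : kˣ) (ψ : AddChar (J → ZMod m) R) (P : Ideal (MvPolynomial J k)) :
    op ζ ψ (Finsupp.single P 1) = ∑ g : J → ZMod m, Finsupp.single (act ζ g P) (ψ g) := by
  rw [op, Finsupp.linearCombination_single, one_smul]

lemma op_act {ζ : kˣ} (hζ : ζ ^ m = 1) (ψ : AddChar (J → ZMod m) R) (h : J → ZMod m)
    (P : Ideal (MvPolynomial J k)) : ψ h • op ζ ψ (Finsupp.single (act ζ h P) 1) =
      op ζ ψ (Finsupp.single P 1) := by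
  rw [op_single, op_single, Finset.smul_sum]
  rw [← Equiv.sum_comp (Equiv.addRight h) fun g => Finsupp.single (act ζ g P) (ψ g)]
  apply Finset.sum_congr rfl
  intro g _
  rw [act_act hζ, Equiv.coe_addRight, Finsupp.smul_single, smul_eq_mul, AddChar.map_add_eq_mul,
    mul_comm]

lemma op_eq_zero {ζ : kˣ} (hζ : ζ ^ m = 1) (ψ : AddChar (J → ZMod m) R) {h : J → ZMod m}
    {P : Ideal (MvPolynomial J k)} (hP : act ζ h P = P) (hψ : ψ h ≠ 1) :
    op ζ ψ (Finsupp.single P 1) = 0 := by
  have h1 := op_act hζ ψ h P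
  rw [hP] at h1
  have h2 : (ψ h - 1) • op ζ ψ (Finsupp.single P 1) = 0 := by
    rw [sub_smul, one_smul, h1, sub_self]
  rcases smul_eq_zero.1 h2 with h3 | h3
  · exact absurd (sub_eq_zero.1 h3) hψ
  · exact h3

omit [Fintype J] [DecidableEq J] in
private lemma act_injective {ζ : kˣ} (hζ : ζ ^ m = 1) (g : J → ZMod m) :
    Function.Injective (act ζ g : Ideal (MvPolynomial J k) → Ideal (MvPolynomial J k)) := by
  intro P Q h
  have h1 := congrArg (act ζ (-g)) h
  rwa [act_act hζ, act_act hζ, neg_add_cancel, act_zero, act_zero] at h1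

/-- push-forward of a divisor by an automorphism -/
lemma divisor_act {ζ : kˣ} (hζ : ζ ^ m = 1) {F : Type u} [Field F] [Algebra k F] (x : J → F)
    (f : F) (g : J → ZMod m) :
    divisor k R (fun j => algebraMap k F ((ζ : k) ^ (g j).val) * x j) f =
      (divisor k R x f).mapDomain (act ζ g) := by
  have hinj : Function.Injective
      (Finsupp.mapDomain.addMonoidHom (M := R) (act ζ g :
        Ideal (MvPolynomial J k) → Ideal (MvPolynomial J k))) :=
    Finsupp.mapDomain_injective (act_injective hζ g)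
  unfold divisor
  have h1 := (Finsupp.mapDomain.addMonoidHom (M := R) (act ζ g :
        Ideal (MvPolynomial J k) → Ideal (MvPolynomial J k))).map_finsum_of_injective hinj
    (fun v : {v : Place k F // Algebra.trdeg k v.Res + 1 = Algebra.trdeg k F} =>
      Finsupp.single (ideal k (v.1.center x))
      ((((v.1.ord f : ℤ) - v.1.ord f⁻¹) * degree k (v.1.center x) : ℤ) : R))
  refine Eq.trans (finsum_congr fun v => ?_) h1.symm
  rw [ideal_center_act, degree_center_const v.1 (a := fun j => (ζ : k) ^ (g j).val)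
    (fun j => pow_ne_zero _ ζ.ne_zero)]
  exact (Finsupp.mapDomain_single).symm

private lemma op_eq_sum (ζ : kˣ) (ψ : AddChar (J → ZMod m) R)
    (z : Ideal (MvPolynomial J k) →₀ R) :
    op ζ ψ z = ∑ g : J → ZMod m, ψ g • z.mapDomain (act ζ g) := by
  induction z using Finsupp.induction_linear with
  | zero => simp
  | add y₁ y₂ h₁ h₂ =>
    rw [map_add, h₁, h₂, ← Finset.sum_add_distrib]
    refine Finset.sum_congr rfl fun g _ => ?_
    rw [Finsupp.mapDomain_add, smul_add]
  | single P c =>
    rw [op, Finsupp.linearCombination_single, Finset.smul_sum]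
    refine Finset.sum_congr rfl fun g _ => ?_
    rw [Finsupp.mapDomain_single, Finsupp.smul_single, Finsupp.smul_single, smul_eq_mul,
      smul_eq_mul, mul_comm]

/-- the operators preserve rational equivalence -/
lemma op_mem {ζ : kˣ} (hζ : ζ ^ m = 1) (ψ : AddChar (J → ZMod m) R) {r : ℕ} {c : Fin r → J → k}
    {l : ℕ} {z : Ideal (MvPolynomial J k) →₀ R} (hz : z ∈ ratEquiv R (diag m c) l) :
    op ζ ψ z ∈ ratEquiv R (diag m c) l := by
  have hle : ratEquiv R (diag m c) l ≤ (ratEquiv R (diag m c) l).comap (op ζ ψ) := by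
    conv_lhs => rw [ratEquiv]
    rw [Submodule.span_le]
    rintro _ ⟨F, i1, i2, hF, hl, x, hx, hI, f, hf, rfl⟩
    rw [SetLike.mem_coe, Submodule.mem_comap, op_eq_sum]
    refine Submodule.sum_mem _ fun g _ => Submodule.smul_mem _ _ ?_
    rw [← divisor_act hζ x f g]
    refine Submodule.subset_span ⟨F, i1, i2, hF, hl,
      (fun j => algebraMap k F ((ζ : k) ^ (g j).val) * x j), ?_, ?_, f, hf, rfl⟩
    · intro h0
      apply hx
      funext j
      have h1 := congrFun h0 j
      rcases mul_eq_zero.1 h1 with h2 | h2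
      · exact absurd ((map_eq_zero _).1 h2) (pow_ne_zero _ ζ.ne_zero)
      · exact h2
    · rw [diag_le_ideal_iff] at hI ⊢
      intro i
      rw [← hI i]
      refine Finset.sum_congr rfl fun j _ => ?_
      have hζ' : (ζ : k) ^ m = 1 := by
        rw [← Units.val_pow_eq_pow_val, hζ, Units.val_one]
      rw [mul_pow, ← map_pow, ← pow_mul, mul_comm (g j).val m, pow_mul, hζ', one_pow, map_one,
        one_mul]
  exact hle hz

omit [Fintype J] [DecidableEq J] in
private lemma divisor_map [CharZero R] {F : Type u} [Field F] [Algebra k F] (x : J → F) (f : F) :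
    (divisor k ℚ x f).mapRange (algebraMap ℚ R) (map_zero _) = divisor k R x f := by
  have hinj : Function.Injective
      (Finsupp.mapRange.addMonoidHom (ι := Ideal (MvPolynomial J k))
        ((algebraMap ℚ R : ℚ →+* R) : ℚ →+ R)) :=
    Finsupp.mapRange_injective _ (map_zero _) (algebraMap ℚ R).injective
  unfold divisor
  have h1 := (Finsupp.mapRange.addMonoidHom (ι := Ideal (MvPolynomial J k))
        ((algebraMap ℚ R : ℚ →+* R) : ℚ →+ R)).map_finsum_of_injective hinj
    (fun v : {v : Place k F // Algebra.trdeg k v.Res + 1 = Algebra.trdeg k F} =>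
      Finsupp.single (ideal k (v.1.center x))
      ((((v.1.ord f : ℤ) - v.1.ord f⁻¹) * degree k (v.1.center x) : ℤ) : ℚ))
  refine Eq.trans h1 (finsum_congr fun v => ?_)
  rw [Finsupp.mapRange.addMonoidHom_apply, Finsupp.mapRange_single]
  congr 1
  exact map_intCast (algebraMap ℚ R) _

omit [Fintype J] [DecidableEq J] in
/-- descent of coefficients -/
theorem descent [CharZero R] {I : Ideal (MvPolynomial J k)} {l : ℕ}
    {z : Ideal (MvPolynomial J k) →₀ ℚ}
    (hz : z.mapRange (algebraMap ℚ R) (map_zero _) ∈ ratEquiv R I l) : z ∈ ratEquiv ℚ I l := by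
  by_contra hcon
  obtain ⟨f, hfz, hfN⟩ := Submodule.exists_le_ker_of_notMem hcon
  set g : (Ideal (MvPolynomial J k) →₀ R) →ₗ[R] R :=
    Finsupp.linearCombination R (fun p => algebraMap ℚ R (f (Finsupp.single p 1))) with hg
  have hgs : ∀ p, g (Finsupp.single p 1) = algebraMap ℚ R (f (Finsupp.single p 1)) := by
    intro p
    rw [hg, Finsupp.linearCombination_single, one_smul]
  have hgm : ∀ y : Ideal (MvPolynomial J k) →₀ ℚ,
      g (y.mapRange (algebraMap ℚ R) (map_zero _)) = algebraMap ℚ R (f y) := by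
    intro y
    induction y using Finsupp.induction_linear with
    | zero => simp
    | add y₁ y₂ h₁ h₂ =>
      rw [Finsupp.mapRange_add (fun a b => map_add _ a b), map_add, h₁, h₂, map_add, map_add]
    | single p c =>
      rw [Finsupp.mapRange_single]
      have h1 : (Finsupp.single p c : Ideal (MvPolynomial J k) →₀ ℚ) =
          c • Finsupp.single p 1 := by
        rw [Finsupp.smul_single, smul_eq_mul, mul_one]
      have h2 : (Finsupp.single p (algebraMap ℚ R c) : Ideal (MvPolynomial J k) →₀ R) =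
          algebraMap ℚ R c • Finsupp.single p 1 := by
        rw [Finsupp.smul_single, smul_eq_mul, mul_one]
      rw [h1, h2, map_smul, map_smul, hgs, smul_eq_mul, smul_eq_mul, map_mul]
  have hker : ratEquiv R I l ≤ LinearMap.ker g := by
    unfold ratEquiv
    rw [Submodule.span_le]
    rintro y ⟨F, i1, i2, hF, hl, x, hx, hI, u, hu, rfl⟩
    have h1 : divisor k ℚ x u ∈ ratEquiv ℚ I l :=
      Submodule.subset_span ⟨F, i1, i2, hF, hl, x, hx, hI, u, hu, rfl⟩
    have h2 := LinearMap.mem_ker.1 (hfN h1)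
    rw [SetLike.mem_coe, LinearMap.mem_ker, ← divisor_map, hgm, h2, map_zero]
  have h4 := LinearMap.mem_ker.1 (hker hz)
  rw [hgm] at h4
  exact hfz ((map_eq_zero _).1 h4)

end LC3

end Pool.Agent.LCyc
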