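import Pool.Agent.LCyc.Defs
import Pool.Agent.ZCyc.Basic

/-!
# The order of a function at a place
-/

set_option autoImplicit false

namespace Pool.Agent.LCyc

open Pool.Agent.ZCyc

universe u w

variable {k : Type u} [Field k]

section LC4

variable {F : Type*} [Field F] [Algebra k F] (v : Place k F)

lemma ord_pos [IsDiscreteValuationRing v.ring] {f : F} (hf : v.Vanishes f) (hf0 : f ≠ 0) :
    0 < v.ord f := by
  have hmem : f ∈ v.ring := hf.mem
  have hne : IsDiscreteValuationRing.addVal v.ring ⟨f, hmem⟩ ≠ ⊤ := by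
    rw [Ne, IsDiscreteValuationRing.addVal_eq_top_iff]
    intro h
    exact hf0 (congrArg Subtype.val h)
  obtain ⟨N, hN⟩ := ENat.ne_top_iff_exists.1 hne
  have h1 : 1 ∈ {n | ∃ π g, v.Vanishes π ∧ g ∈ v.ring ∧ f = π ^ n * g} :=
    ⟨f, 1, hf, v.ring.one_mem, by rw [pow_one, mul_one]⟩
  have h2 : BddAbove {n | ∃ π g, v.Vanishes π ∧ g ∈ v.ring ∧ f = π ^ n * g} := by
    refine ⟨N, ?_⟩
    rintro n ⟨π, g, hπ, hg, he⟩
    have h3 : (⟨f, hmem⟩ : v.ring) = ⟨π, hπ.mem⟩ ^ n * ⟨g, hg⟩ := Subtype.ext he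
    have h4 : 1 ≤ IsDiscreteValuationRing.addVal v.ring ⟨π, hπ.mem⟩ := by
      rw [ENat.one_le_iff_ne_zero, Ne, IsDiscreteValuationRing.addVal_eq_zero_iff]
      have h5 : (⟨π, hπ.mem⟩ : v.ring) ∈ IsLocalRing.maximalIdeal v.ring :=
        (ValuationSubring.coe_mem_nonunits_iff (A := v.ring) (a := ⟨π, hπ.mem⟩)).1 hπ
      exact (IsLocalRing.mem_maximalIdeal _).1 h5
    have h6 : (n : ℕ∞) ≤ N := by
      rw [hN, h3, IsDiscreteValuationRing.addVal_mul, IsDiscreteValuationRing.addVal_pow,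
        nsmul_eq_mul]
      calc (n : ℕ∞) = n * 1 := (mul_one _).symm
        _ ≤ n * IsDiscreteValuationRing.addVal v.ring ⟨π, hπ.mem⟩ := by gcongr
        _ ≤ _ := le_self_add
    exact_mod_cast h6
  exact lt_of_lt_of_le Nat.one_pos (le_csSup h2 h1)

lemma ord_eq_zero {f : F} (hf : ¬ v.Vanishes f) : v.ord f = 0 := by
  have h : ∀ n ∈ {n | ∃ π g, v.Vanishes π ∧ g ∈ v.ring ∧ f = π ^ n * g}, n = 0 := by
    rintro n ⟨π, g, hπ, hg, he⟩
    by_contra hn
    apply hf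
    rw [he]
    exact (hπ.pow v hn).mul v hg
  unfold Place.ord
  rcases Set.eq_empty_or_nonempty {n | ∃ π g, v.Vanishes π ∧ g ∈ v.ring ∧ f = π ^ n * g} with
    h1 | h1
  · rw [h1]
    exact csSup_empty
  · exact h _ (Nat.sSup_mem h1 ⟨0, fun n hn => (h n hn).le⟩)

end LC4

end Pool.Agent.LCyc
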