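import Pool.Agent.LCyc.Defs
import Pool.Agent.ZCyc.Basic
import Pool.Agent.ZCyc.Places

/-! Existence of places, finiteness of the residue field. -/

set_option autoImplicit false

namespace Pool.Agent.LCyc

open Pool.Agent.ZCyc

universe u w

section LC9

/-- existence of a place -/
theorem exists_place {K : Type*} [Field K] {F : Type*} [Field F] [Algebra K F] {f : F}
    (hf : Transcendental K f) : ∃ v : Place K F, v.Vanishes f := by
  obtain ⟨v, hv⟩ := Pool.Agent.ZCyc.exists_place hf 0
  exact ⟨v, Place.at_zero_iff.1 hv⟩

private lemma res_exists {K : Type*} [Field K] {F : Type*} [Field F] [Algebra K F]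
    (v : Place K F) (e : v.Res) : ∃ f : F, ∃ h : f ∈ v.ring,
      IsLocalRing.residue v.ring ⟨f, h⟩ = e := by
  obtain ⟨⟨f, h⟩, he⟩ := IsLocalRing.residue_surjective (R := v.ring) e
  exact ⟨f, h, he⟩

private lemma residue_eq_zero {K : Type*} [Field K] {F : Type*} [Field F] [Algebra K F]
    (v : Place K F) {f : F} (h : f ∈ v.ring) (hf : v.Vanishes f) :
      IsLocalRing.residue v.ring ⟨f, h⟩ = 0 := by
  rw [IsLocalRing.residue_eq_zero_iff, IsLocalRing.mem_maximalIdeal, mem_nonunits_iff]
  intro hu
  have h1 : v.ring.valuation f < 1 := (v.vanishes_iff f).1 hf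
  have h2 := (v.ring.valuation_eq_one_iff ⟨f, h⟩).1 hu
  exact absurd h2 (ne_of_lt h1)

/-- polynomials in a vanishing function -/
private lemma poly_at {K : Type*} [Field K] {F : Type*} [Field F] [Algebra K F] (v : Place K F)
    {f : F} (hf : v.Vanishes f) (p : Polynomial K) :
    v.At (Polynomial.aeval f p) (p.coeff 0) := by
  have h1 : v.At f 0 := Place.at_zero_iff.2 hf
  have h2 : Polynomial.aeval f p = Polynomial.aeval f p.divX * f + algebraMap K F (p.coeff 0) := by
    conv_lhs => rw [← Polynomial.divX_mul_X_add p]
    rw [map_add, map_mul, Polynomial.aeval_X, Polynomial.aeval_C]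
  have h3 : Polynomial.aeval f p.divX ∈ v.ring := by
    induction p.divX using Polynomial.induction_on' with
    | add p q hp hq => rw [map_add]; exact v.ring.add_mem _ _ hp hq
    | monomial n a =>
      rw [Polynomial.aeval_monomial]
      exact v.ring.mul_mem _ _ (v.const_mem a) (pow_mem (hf.mem v) n)
  unfold Place.At
  rw [h2, add_sub_cancel_right]
  exact hf.mul' v h3

/-- the residues of the elements of `K(f)` lie in `K` -/
private lemma exists_const_res {K : Type*} [Field K] {F : Type*} [Field F] [Algebra K F]
    (v : Place K F) {f : F} (hf : v.Vanishes f) {h : F} (hh : h ∈ v.ring) : ∀ (n : ℕ)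
    (p q : Polynomial K), q.natDegree ≤ n → Polynomial.aeval f q ≠ 0 →
      h = Polynomial.aeval f p / Polynomial.aeval f q → ∃ c : K, v.At h c := by
  intro n
  induction n with
  | zero =>
    intro p q hq hq0 hpq
    rw [Nat.le_zero, Polynomial.natDegree_eq_zero] at hq
    obtain ⟨c, rfl⟩ := hq
    rw [Polynomial.aeval_C] at hq0 hpq
    refine ⟨p.coeff 0 * c⁻¹, ?_⟩
    rw [hpq, div_eq_mul_inv, ← map_inv₀]
    exact (poly_at v hf p).mul (Place.at_const _)
  | succ n ih =>
    intro p q hq hq0 hpq
    by_cases hc : q.coeff 0 = 0
    · have h1 := poly_at v hf q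
      rw [hc, Place.at_zero_iff] at h1
      have h2 : Polynomial.aeval f p = h * Polynomial.aeval f q := by
        rw [hpq, div_mul_cancel₀ _ hq0]
      have h3 : v.At (Polynomial.aeval f p) 0 := by
        rw [Place.at_zero_iff, h2]
        exact h1.mul' v hh
      have h4 : p.coeff 0 = 0 := (poly_at v hf p).unique h3
      have e1 : Polynomial.aeval f p = Polynomial.aeval f p.divX * f := by
        conv_lhs => rw [← Polynomial.divX_mul_X_add p]
        rw [map_add, map_mul, Polynomial.aeval_X, h4]
        simp
      have e2 : Polynomial.aeval f q = Polynomial.aeval f q.divX * f := by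
        conv_lhs => rw [← Polynomial.divX_mul_X_add q]
        rw [map_add, map_mul, Polynomial.aeval_X, hc]
        simp
      rw [e2] at hq0
      refine ih p.divX q.divX ?_ (left_ne_zero_of_mul hq0) ?_
      · rw [Polynomial.natDegree_divX_eq_natDegree_tsub_one]; omega
      · rw [hpq, e1, e2, mul_div_mul_right _ _ (right_ne_zero_of_mul hq0)]
    · refine ⟨p.coeff 0 * (q.coeff 0)⁻¹, ?_⟩
      rw [hpq, div_eq_mul_inv]
      exact (poly_at v hf p).mul ((poly_at v hf q).inv hc)

/-- the residue field is finite over `K` -/
theorem finite_res {K : Type*} [Field K] {F : Type*} [Field F] [Algebra K F] (v : Place K F)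
    {f : F} (hf : v.Vanishes f) [FiniteDimensional (IntermediateField.adjoin K {f}) F] :
    Module.Finite K v.Res := by
  classical
  choose a ha hae using res_exists v
  have key : ∀ s : Finset v.Res, LinearIndependent K (fun i : s => (i : v.Res)) →
      s.card ≤ Module.finrank (IntermediateField.adjoin K {f}) F := by
    intro s hs
    have h1 : LinearIndependent (IntermediateField.adjoin K {f}) (fun i : s => a i) := by
      rw [Fintype.linearIndependent_iff]
      intro h hsum
      by_contra hcon
      push Not at hcon
      obtain ⟨i₀, hi₀⟩ := hcon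
      obtain ⟨j, -, hj⟩ := Finset.exists_max_image (Finset.univ : Finset s)
        (fun i => v.ring.valuation (h i : F)) ⟨i₀, Finset.mem_univ _⟩
      have hj0 : (h j : F) ≠ 0 := by
        intro h0
        have := hj i₀ (Finset.mem_univ _)
        rw [h0, Valuation.map_zero, le_zero_iff, Valuation.zero_iff] at this
        exact hi₀ (by exact_mod_cast this)
      have hmem : ∀ i, (h i : F) / h j ∈ v.ring := by
        intro i
        rw [← ValuationSubring.valuation_le_one_iff, map_div₀]
        exact div_le_one_of_le₀ (hj i (Finset.mem_univ _)) zero_le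
      have hc : ∀ i, ∃ c : K, v.At ((h i : F) / h j) c := by
        intro i
        have h2 : (h i : F) / h j ∈ IntermediateField.adjoin K {f} := div_mem (h i).2 (h j).2
        rw [IntermediateField.mem_adjoin_simple_iff] at h2
        obtain ⟨p, q, hpq⟩ := h2
        by_cases hq : Polynomial.aeval f q = 0
        · refine ⟨0, ?_⟩
          rw [hpq, hq, div_zero, Place.at_zero_iff]
          exact v.vanishes_zero
        · exact exists_const_res v hf (hmem i) _ p q le_rfl hq hpq
      choose c hc using hc
      have h3 : ∑ i : s, c i • (i : v.Res) = 0 := by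
        have h4 : ∀ i : s, IsLocalRing.residue v.ring (⟨(h i : F) / h j, hmem i⟩ * ⟨a i, ha i⟩) =
            c i • (i : v.Res) := by
          intro i
          rw [map_mul, hae, Algebra.smul_def]
          congr 1
          have h5 := residue_eq_zero v (v.ring.sub_mem (hmem i) (v.const_mem (c i))) (hc i)
          rw [show (⟨(h i : F) / h j - algebraMap K F (c i),
            v.ring.sub_mem (hmem i) (v.const_mem (c i))⟩ : v.ring) =
            ⟨(h i : F) / h j, hmem i⟩ - ⟨algebraMap K F (c i), v.const_mem (c i)⟩ from rfl,
            map_sub, sub_eq_zero] at h5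
          exact h5
        rw [← Finset.sum_congr rfl (fun i _ => h4 i), ← map_sum]
        have h5 : (∑ i : s, (⟨(h i : F) / h j, hmem i⟩ * ⟨a i, ha i⟩ : v.ring)) = 0 := by
          apply Subtype.ext
          rw [AddSubmonoidClass.coe_finsetSum]
          have h6 : ∑ i : s, (h i : F) * a i = 0 := by
            rw [← hsum]
            apply Finset.sum_congr rfl
            intro i _
            rw [Algebra.smul_def]
            rfl
          calc ∑ i : s, (((⟨(h i : F) / h j, hmem i⟩ * ⟨a i, ha i⟩ : v.ring)) : F)
              = ∑ i : s, (h j : F)⁻¹ * ((h i : F) * a i) := by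
                apply Finset.sum_congr rfl
                intro i _
                show (h i : F) / h j * a i = _
                ring
            _ = 0 := by rw [← Finset.mul_sum, h6, mul_zero]
        rw [h5, map_zero]
      have h6 := (Fintype.linearIndependent_iff.1 hs) c h3 j
      have h7 : v.At (1 : F) (c j) := by
        have := hc j
        rwa [div_self hj0] at this
      have h8 : v.At (1 : F) 1 := by
        have := Place.at_const (v := v) (1 : K)
        rwa [map_one] at this
      rw [h7.unique h8] at h6
      exact one_ne_zero h6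
    have h2 := h1.fintype_card_le_finrank
    simpa using h2
  have h1 : Module.rank K v.Res ≤ (Module.finrank (IntermediateField.adjoin K {f}) F : ℕ) :=
    rank_le key
  exact Module.rank_lt_aleph0_iff.1 (h1.trans_lt Cardinal.natCast_lt_aleph0)

end LC9

end Pool.Agent.LCyc
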