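import Pool.Agent.LCyc.Defs

/-! LC1: the homogeneous ideal of a point over an extension field, and the diagonal group. -/

set_option autoImplicit false

namespace Pool.Agent.LCyc

open Pool.Agent.ZCyc

universe u w

variable {k : Type u} [Field k] {J : Type}

section LC1

variable {K : Type*} [Field K] [Algebra k K] {K' : Type*} [Field K'] [Algebra k K']

/-- The substitution of a homogeneous polynomial of degree `n`. -/
private lemma aeval_hom (x : J → K) {f : MvPolynomial J k} {n : ℕ} (hf : f.IsHomogeneous n) :
    (MvPolynomial.aeval fun j => Polynomial.C (x j) * Polynomial.X :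
      MvPolynomial J k →ₐ[k] Polynomial K) f =
      Polynomial.C (MvPolynomial.aeval x f) * Polynomial.X ^ n := by
  rw [MvPolynomial.aeval_def, MvPolynomial.eval₂_eq, MvPolynomial.aeval_def,
    MvPolynomial.eval₂_eq, map_sum, Finset.sum_mul]
  refine Finset.sum_congr rfl fun d hd => ?_
  have hdn : ∑ i ∈ d.support, d i = n := by
    have := hf (MvPolynomial.mem_support_iff.1 hd)
    rw [Finsupp.weight_apply] at this
    simpa [Finsupp.sum] using this
  have h3 : (∏ i ∈ d.support, (Polynomial.C (x i) * Polynomial.X : Polynomial K) ^ d i) =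
      Polynomial.C (∏ i ∈ d.support, (x i) ^ d i) * Polynomial.X ^ n := by
    simp only [mul_pow, Finset.prod_mul_distrib, map_prod, map_pow]
    rw [Finset.prod_pow_eq_pow_sum, hdn]
  rw [h3, IsScalarTower.algebraMap_apply k K (Polynomial K), Polynomial.algebraMap_eq, map_mul,
    mul_assoc]

private lemma aeval_sum (x : J → K) (f : MvPolynomial J k) :
    (MvPolynomial.aeval fun j => Polynomial.C (x j) * Polynomial.X :
      MvPolynomial J k →ₐ[k] Polynomial K) f =
      ∑ n ∈ Finset.range (f.totalDegree + 1),
        Polynomial.C (MvPolynomial.aeval x (MvPolynomial.homogeneousComponent n f)) *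
          Polynomial.X ^ n := by
  conv_lhs => rw [← MvPolynomial.sum_homogeneousComponent f]
  rw [map_sum]
  exact Finset.sum_congr rfl fun n _ =>
    aeval_hom x (MvPolynomial.homogeneousComponent_isHomogeneous n f)

private lemma aeval_diag [Fintype J] {m r : ℕ} (c : Fin r → J → k) (x : J → K) (i : Fin r) :
    (MvPolynomial.aeval fun j => Polynomial.C (x j) * Polynomial.X :
      MvPolynomial J k →ₐ[k] Polynomial K)
        (∑ j, MvPolynomial.C (c i j) * MvPolynomial.X j ^ m) =
      Polynomial.C (∑ j, algebraMap k K (c i j) * x j ^ m) * Polynomial.X ^ m := by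
  rw [map_sum, map_sum, Finset.sum_mul]
  refine Finset.sum_congr rfl fun j _ => ?_
  rw [map_mul, map_pow, MvPolynomial.aeval_X, MvPolynomial.algHom_C,
    IsScalarTower.algebraMap_apply k K (Polynomial K), Polynomial.algebraMap_eq, map_mul,
    map_pow, mul_pow, mul_assoc]

lemma mem_ideal {x : J → K} {f : MvPolynomial J k} :
    f ∈ ideal k x ↔ ∀ n, MvPolynomial.aeval x (MvPolynomial.homogeneousComponent n f) = 0 := by
  unfold ideal
  rw [RingHom.mem_ker]
  constructor
  · intro h n
    by_cases hn : n ∈ Finset.range (f.totalDegree + 1)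
    · have h' : (MvPolynomial.aeval fun j => Polynomial.C (x j) * Polynomial.X :
        MvPolynomial J k →ₐ[k] Polynomial K) f = 0 := h
      rw [aeval_sum] at h'
      have h2 := congrArg (fun p => Polynomial.coeff p n) h'
      simp only [Polynomial.finsetSum_coeff, Polynomial.coeff_C_mul_X_pow,
        Polynomial.coeff_zero] at h2
      rw [Finset.sum_ite_eq] at h2
      rw [if_pos hn] at h2
      exact h2
    · rw [MvPolynomial.homogeneousComponent_eq_zero, map_zero]
      simp only [Finset.mem_range] at hn
      omega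
  · intro h
    change (MvPolynomial.aeval fun j => Polynomial.C (x j) * Polynomial.X :
        MvPolynomial J k →ₐ[k] Polynomial K) f = 0
    rw [aeval_sum]
    exact Finset.sum_eq_zero fun n _ => by rw [h n, map_zero, zero_mul]

lemma ideal_smul {c : K} (hc : c ≠ 0) (x : J → K) :
    ideal k (fun j => c * x j) = ideal k x := by
  ext f
  rw [mem_ideal, mem_ideal]
  refine forall_congr' fun n => ?_
  have h : MvPolynomial.aeval (fun j => c * x j) (MvPolynomial.homogeneousComponent n f) =
      c ^ n * MvPolynomial.aeval x (MvPolynomial.homogeneousComponent n f) := by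
    rw [MvPolynomial.aeval_def, MvPolynomial.eval₂_eq, MvPolynomial.aeval_def,
      MvPolynomial.eval₂_eq, Finset.mul_sum]
    refine Finset.sum_congr rfl fun d hd => ?_
    have hdn : ∑ i ∈ d.support, d i = n := by
      have := MvPolynomial.homogeneousComponent_isHomogeneous n f
        (MvPolynomial.mem_support_iff.1 hd)
      rw [Finsupp.weight_apply] at this
      simpa [Finsupp.sum] using this
    simp only [mul_pow, Finset.prod_mul_distrib]
    rw [Finset.prod_pow_eq_pow_sum, hdn]
    ring
  rw [h, mul_eq_zero]
  exact ⟨fun h => h.resolve_left (pow_ne_zero _ hc), Or.inr⟩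

lemma ideal_map (φ : K →ₐ[k] K') (x : J → K) : ideal k (fun j => φ (x j)) = ideal k x := by
  ext f
  rw [mem_ideal, mem_ideal]
  refine forall_congr' fun n => ?_
  have h : MvPolynomial.aeval (fun j => φ (x j)) (MvPolynomial.homogeneousComponent n f) =
      φ (MvPolynomial.aeval x (MvPolynomial.homogeneousComponent n f)) := by
    have := MvPolynomial.comp_aeval_apply x φ (MvPolynomial.homogeneousComponent n f)
    exact this.symm
  rw [h]
  exact map_eq_zero φ

lemma act_ideal {m : ℕ} (ζ : kˣ) (g : J → ZMod m) (x : J → K) :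
    act ζ g (ideal k x) = ideal k (fun j => algebraMap k K ((ζ : k) ^ (g j).val) * x j) := by
  unfold act ideal
  ext f
  rw [Ideal.mem_comap, RingHom.mem_ker, RingHom.mem_ker]
  have h : (MvPolynomial.aeval fun j => Polynomial.C (x j) * Polynomial.X :
        MvPolynomial J k →ₐ[k] Polynomial K)
        ((MvPolynomial.aeval fun j => MvPolynomial.C ((ζ : k) ^ (g j).val) * MvPolynomial.X j :
          MvPolynomial J k →ₐ[k] MvPolynomial J k) f) =
      (MvPolynomial.aeval fun j => Polynomial.C (algebraMap k K ((ζ : k) ^ (g j).val) * x j) *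
        Polynomial.X : MvPolynomial J k →ₐ[k] Polynomial K) f := by
    rw [MvPolynomial.comp_aeval_apply]
    congr 2
    funext j
    rw [map_mul, MvPolynomial.aeval_X, MvPolynomial.algHom_C,
      IsScalarTower.algebraMap_apply k K (Polynomial K), Polynomial.algebraMap_eq, map_mul,
      mul_assoc]
  exact Eq.congr_left h

lemma act_act {m : ℕ} [NeZero m] {ζ : kˣ} (hζ : ζ ^ m = 1) (g h : J → ZMod m)
    (P : Ideal (MvPolynomial J k)) : act ζ g (act ζ h P) = act ζ (g + h) P := by
  unfold act
  ext f
  simp only [Ideal.mem_comap]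
  have h : (MvPolynomial.aeval fun j => MvPolynomial.C ((ζ : k) ^ (h j).val) *
        MvPolynomial.X j : MvPolynomial J k →ₐ[k] MvPolynomial J k)
        ((MvPolynomial.aeval fun j => MvPolynomial.C ((ζ : k) ^ (g j).val) * MvPolynomial.X j :
          MvPolynomial J k →ₐ[k] MvPolynomial J k) f) =
      (MvPolynomial.aeval fun j => MvPolynomial.C ((ζ : k) ^ ((g + h) j).val) *
        MvPolynomial.X j : MvPolynomial J k →ₐ[k] MvPolynomial J k) f := by
    rw [MvPolynomial.comp_aeval_apply]
    congr 2
    funext j
    rw [map_mul, MvPolynomial.aeval_X, MvPolynomial.algHom_C, ← mul_assoc]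
    congr 1
    rw [MvPolynomial.algebraMap_eq, ← map_mul, ← pow_add]
    congr 1
    have hz : (ζ : k) ^ m = 1 := by
      have := congrArg Units.val hζ
      simpa using this
    rw [Pi.add_apply, ZMod.val_add]
    conv_lhs => rw [← Nat.mod_add_div ((g j).val + (h j).val) m, pow_add, pow_mul, hz, one_pow,
      mul_one]
  rw [h]

lemma act_zero {m : ℕ} [NeZero m] {ζ : kˣ} (P : Ideal (MvPolynomial J k)) :
    act ζ (0 : J → ZMod m) P = P := by
  unfold act
  ext f
  rw [Ideal.mem_comap]
  have h : (MvPolynomial.aeval fun j => MvPolynomial.C ((ζ : k) ^ ((0 : J → ZMod m) j).val) *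
        MvPolynomial.X j : MvPolynomial J k →ₐ[k] MvPolynomial J k) f = f := by
    have h1 : (fun j => MvPolynomial.C ((ζ : k) ^ ((0 : J → ZMod m) j).val) *
        MvPolynomial.X j : J → MvPolynomial J k) = MvPolynomial.X := by
      funext j
      rw [Pi.zero_apply, ZMod.val_zero, pow_zero, map_one, one_mul]
    rw [h1, MvPolynomial.aeval_X_left, AlgHom.id_apply]
  rw [h]

lemma diag_le_ideal_iff [Fintype J] {m r : ℕ} {c : Fin r → J → k} {x : J → K} :
    diag m c ≤ ideal k x ↔ ∀ i, ∑ j, algebraMap k K (c i j) * x j ^ m = 0 := by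
  unfold diag
  rw [Ideal.span_le]
  constructor
  · intro h i
    have h1 := h ⟨i, rfl⟩
    have h2 : (MvPolynomial.aeval fun j => Polynomial.C (x j) * Polynomial.X :
        MvPolynomial J k →ₐ[k] Polynomial K)
          (∑ j, MvPolynomial.C (c i j) * MvPolynomial.X j ^ m) = 0 := h1
    rw [aeval_diag] at h2
    have h3 := congrArg (fun p => Polynomial.coeff p m) h2
    simp only [Polynomial.coeff_C_mul_X_pow, if_true, Polynomial.coeff_zero] at h3
    exact h3
  · rintro h _ ⟨i, rfl⟩
    change (MvPolynomial.aeval fun j => Polynomial.C (x j) * Polynomial.X :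
        MvPolynomial J k →ₐ[k] Polynomial K)
          (∑ j, MvPolynomial.C (c i j) * MvPolynomial.X j ^ m) = 0
    rw [aeval_diag, h i, map_zero, zero_mul]

lemma act_single_fix [DecidableEq J] {m : ℕ} {ζ : kˣ} {x : J → K} {j : J} (hx : x j = 0) :
    act ζ (Pi.single j (1 : ZMod m)) (ideal k x) = ideal k x := by
  rw [act_ideal]
  congr 1
  funext i
  by_cases hi : i = j
  · subst hi
    rw [hx, mul_zero]
  · rw [Pi.single_eq_of_ne hi, ZMod.val_zero, pow_zero, map_one, one_mul]

end LC1

end Pool.Agent.LCyc
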