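import Pool.Agent.LCyc.Defs
import Pool.Agent.LCyc.Ideal

/-!
# The generic point of a prime cycle
-/

set_option autoImplicit false

namespace Pool.Agent.LCyc

open Pool.Agent.ZCyc

universe u w

variable {k : Type u} [Field k] {J : Type}

section LC10

/-- the value of a polynomial at the generic point -/
private lemma aeval_mk (P : Ideal (MvPolynomial J k)) (L : Type u) [Field L]
    [Algebra (MvPolynomial J k ⧸ P) L] [Algebra k L]
    [IsScalarTower k (MvPolynomial J k ⧸ P) L] (g : MvPolynomial J k) :
    MvPolynomial.aeval (fun j => algebraMap (MvPolynomial J k ⧸ P) L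
      (Ideal.Quotient.mk P (MvPolynomial.X j))) g =
      algebraMap (MvPolynomial J k ⧸ P) L (Ideal.Quotient.mk P g) := by
  have h : MvPolynomial.aeval (fun j => algebraMap (MvPolynomial J k ⧸ P) L
      (Ideal.Quotient.mk P (MvPolynomial.X j))) =
      (IsScalarTower.toAlgHom k (MvPolynomial J k ⧸ P) L).comp (Ideal.Quotient.mkₐ k P) := by
    apply MvPolynomial.algHom_ext
    intro j
    simp
  rw [h]
  simp

private lemma ideal_mk {P : Ideal (MvPolynomial J k)} [P.IsPrime]
    (hhom : ∀ f ∈ P, ∀ n, MvPolynomial.homogeneousComponent n f ∈ P) (L : Type u) [Field L]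
    [Algebra (MvPolynomial J k ⧸ P) L] [Algebra k L]
    [IsScalarTower k (MvPolynomial J k ⧸ P) L] [IsFractionRing (MvPolynomial J k ⧸ P) L] :
    P = ideal k (fun j => algebraMap (MvPolynomial J k ⧸ P) L
      (Ideal.Quotient.mk P (MvPolynomial.X j))) := by
  have hinj : Function.Injective (algebraMap (MvPolynomial J k ⧸ P) L) :=
    IsFractionRing.injective _ _
  ext f
  rw [mem_ideal]
  simp only [aeval_mk]
  constructor
  · intro hf n
    rw [Ideal.Quotient.eq_zero_iff_mem.mpr (hhom f hf n), map_zero]
  · intro h
    rw [← MvPolynomial.sum_homogeneousComponent f]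
    refine P.sum_mem fun n _ => ?_
    apply Ideal.Quotient.eq_zero_iff_mem.mp
    apply hinj
    rw [h n, map_zero]

/-- the generic point of a prime cycle -/
theorem exists_point [Finite J] {I : Ideal (MvPolynomial J k)} [Infinite k] {l : ℕ}
    {P : Ideal (MvPolynomial J k)} (hP : IsPrimeCycle I l P) :
    ∃ (K : Type u) (_ : Field K) (_ : Algebra k K) (x : J → K), x ≠ 0 ∧
      Algebra.trdeg k K = (l : ℕ) ∧ degree k x ≠ 0 ∧ P = ideal k x := by
  obtain ⟨hprime, -, hhom, htr⟩ := hP
  have := hprime
  let A := MvPolynomial J k ⧸ P
  let L := FractionRing A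
  let ξ : J → L := fun j => algebraMap A L (Ideal.Quotient.mk P (MvPolynomial.X j))
  have hinj : Function.Injective (algebraMap A L) := IsFractionRing.injective _ _
  have hPξ : P = ideal k ξ := ideal_mk hhom L
  -- the transcendence degree of `L`
  have htrL : Algebra.trdeg k L = (l + 1 : ℕ) := by
    have halg : Algebra.IsAlgebraic A L :=
      (IsFractionRing.comap_isAlgebraic_iff (A := A) (K := L) (C := L)).mpr inferInstance
    rw [← htr, ← trdeg_add_eq (R := k) (S := A) (A := L), trdeg_eq_zero (R := A), add_zero]
  -- a coordinate which is not zero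
  obtain ⟨j₀, hj₀⟩ : ∃ j₀, ξ j₀ ≠ 0 := by
    by_contra hcon
    push Not at hcon
    have halg : Algebra.IsAlgebraic k A := by
      constructor
      intro a
      obtain ⟨f, rfl⟩ := Ideal.Quotient.mk_surjective a
      have h1 := aeval_mk P L f
      have h2 : (fun j => algebraMap (MvPolynomial J k ⧸ P) L
          (Ideal.Quotient.mk P (MvPolynomial.X j))) = 0 := funext hcon
      rw [h2, MvPolynomial.aeval_zero] at h1
      have h3 : Ideal.Quotient.mk P f = algebraMap k A (MvPolynomial.constantCoeff f) := by
        apply hinj
        rw [← h1, ← IsScalarTower.algebraMap_apply]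
      rw [h3]
      exact isAlgebraic_algebraMap _
    have h4 := trdeg_eq_zero (R := k) (A := A)
    rw [htr] at h4
    norm_cast at h4
  -- the field of ratios
  let K := ratios k ξ
  have hmem : ∀ i j, ξ i / ξ j ∈ K := fun i j =>
    IntermediateField.subset_adjoin k _ ⟨(i, j), rfl⟩
  let x : J → K := fun j => ⟨ξ j / ξ j₀, hmem j j₀⟩
  have hx : ∀ j, ((x j : K) : L) = ξ j / ξ j₀ := fun j => rfl
  have hxP : P = ideal k x := by
    rw [← ideal_map K.val x]
    have : (fun j => K.val (x j)) = fun j => (ξ j₀)⁻¹ * ξ j := by
      funext j
      rw [IntermediateField.coe_val, hx, div_eq_mul_inv, mul_comm]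
    rw [this, ideal_smul (inv_ne_zero hj₀), ← hPξ]
  have hdeg : degree k x ≠ 0 := by
    have htop : ratios k x = ⊤ := by
      apply IntermediateField.lift_injective K
      rw [IntermediateField.lift_top]
      unfold ratios
      rw [IntermediateField.lift_adjoin, ← Set.range_comp]
      apply le_antisymm
      · apply IntermediateField.adjoin_le_iff.mpr
        rintro _ ⟨p, rfl⟩
        exact (x p.1 / x p.2).2
      · apply IntermediateField.adjoin_le_iff.mpr
        rintro _ ⟨p, rfl⟩
        apply IntermediateField.subset_adjoin
        refine ⟨p, ?_⟩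
        show ((x p.1 / x p.2 : K) : L) = ξ p.1 / ξ p.2
        push_cast
        rw [hx, hx, div_div_div_cancel_right₀ hj₀]
    unfold degree
    rw [htop]
    rw [IntermediateField.finrank_top]
    exact one_ne_zero
  refine ⟨K, inferInstance, inferInstance, x, ?_, ?_, hdeg, hxP⟩
  · intro h0
    have h1 := congrFun h0 j₀
    have h2 : ((x j₀ : K) : L) = 0 := by rw [h1]; rfl
    rw [hx, div_self hj₀] at h2
    exact one_ne_zero h2
  -- the transcendence degree of `K`
  · -- a second embedding of `L`
    let M := FractionRing (Polynomial L)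
    let φ : A →ₐ[k] Polynomial L := Ideal.Quotient.liftₐ P
      (MvPolynomial.aeval fun j => Polynomial.C (ξ j) * Polynomial.X) (by
        intro f hf
        rw [hPξ] at hf
        exact hf)
    have hφ : Function.Injective φ := by
      rw [injective_iff_map_eq_zero]
      intro a ha
      obtain ⟨f, rfl⟩ := Ideal.Quotient.mk_surjective a
      apply Ideal.Quotient.eq_zero_iff_mem.mpr
      rw [hPξ]
      exact ha
    let ι : Polynomial L →ₐ[k] M := IsScalarTower.toAlgHom k (Polynomial L) M
    have hι : Function.Injective ι := IsFractionRing.injective _ _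
    have hιφ : Function.Injective (ι.comp φ) := hι.comp hφ
    let Φ : L →ₐ[k] M := IsFractionRing.liftAlgHom (g := ι.comp φ) hιφ
    have hΦ : ∀ j, Φ (ξ j) = algebraMap L M (ξ j) * algebraMap (Polynomial L) M Polynomial.X := by
      intro j
      have h1 : Φ (ξ j) = (ι.comp φ) (Ideal.Quotient.mk P (MvPolynomial.X j)) :=
        IsFractionRing.lift_algebraMap hιφ _
      have h2 : φ (Ideal.Quotient.mk P (MvPolynomial.X j)) =
          Polynomial.C (ξ j) * Polynomial.X := by
        show MvPolynomial.aeval (fun j => Polynomial.C (ξ j) * Polynomial.X)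
          (MvPolynomial.X j) = _
        simp
      rw [h1, AlgHom.comp_apply, h2]
      show algebraMap (Polynomial L) M (Polynomial.C (ξ j) * Polynomial.X) = _
      rw [map_mul, IsScalarTower.algebraMap_apply L (Polynomial L) M]
      rfl
    have hXM : algebraMap (Polynomial L) M Polynomial.X ≠ 0 := by
      intro h
      have := hι (h.trans (map_zero ι).symm)
      exact Polynomial.X_ne_zero this
    -- the two embeddings agree on `K`
    have hK : ∀ y ∈ K, Φ y = algebraMap L M y := by
      intro y hy
      induction hy using IntermediateField.adjoin_induction with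
      | mem y hy =>
        obtain ⟨⟨i, j⟩, rfl⟩ := hy
        show Φ (ξ i / ξ j) = algebraMap L M (ξ i / ξ j)
        rw [map_div₀, map_div₀, hΦ, hΦ, mul_div_mul_right _ _ hXM]
      | algebraMap c =>
        rw [AlgHom.commutes, ← IsScalarTower.algebraMap_apply]
      | add y z _ _ hy hz => rw [map_add, map_add, hy, hz]
      | inv y _ hy => rw [map_inv₀, map_inv₀, hy]
      | mul y z _ _ hy hz => rw [map_mul, map_mul, hy, hz]
    -- `ξ j₀` is transcendental over `K`
    have htrans : Transcendental K (ξ j₀) := by
      intro halg
      obtain ⟨p, hp0, hp⟩ := halg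
      have h1 : Polynomial.aeval (Φ (ξ j₀)) (p.map (algebraMap K L)) = 0 := by
        have h2 : (Φ : L →+* M) (Polynomial.aeval (ξ j₀) p) = 0 := by rw [hp, map_zero]
        rw [Polynomial.aeval_def, Polynomial.eval₂_map]
        rw [Polynomial.aeval_def, Polynomial.hom_eval₂] at h2
        have h3 : (algebraMap L M).comp (algebraMap K L) =
            (Φ : L →+* M).comp (algebraMap K L) := by
          ext y
          exact (hK y y.2).symm
        rw [h3]
        exact h2
      have h4 : p.map (algebraMap K L) ≠ 0 :=
        (Polynomial.map_ne_zero_iff (algebraMap K L).injective).mpr hp0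
      have h5 : IsAlgebraic L (Φ (ξ j₀)) := ⟨_, h4, h1⟩
      have h6 : IsAlgebraic L (algebraMap (Polynomial L) M Polynomial.X) := by
        have h7 : algebraMap (Polynomial L) M Polynomial.X =
            algebraMap L M (ξ j₀)⁻¹ * Φ (ξ j₀) := by
          rw [hΦ, ← mul_assoc, ← map_mul, inv_mul_cancel₀ hj₀, map_one, one_mul]
        rw [h7]
        exact (isAlgebraic_algebraMap _).mul h5
      have h8 : Transcendental L (algebraMap (Polynomial L) M Polynomial.X) :=
        (transcendental_algebraMap_iff (IsFractionRing.injective (Polynomial L) M)).mpr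
          (Polynomial.transcendental_X L)
      exact h8 h6
    -- the transcendence degree of `L` over `K`
    have htr1 : Algebra.trdeg K L = 1 := by
      have hind : AlgebraicIndependent K (fun _ : Unit => ξ j₀) :=
        algebraicIndependent_unique_type_iff.mpr htrans
      have halg : Algebra.IsAlgebraic
          (Algebra.adjoin K (Set.range fun _ : Unit => ξ j₀)) L := by
        have hmemA : ∀ a : A, algebraMap A L a ∈
            Algebra.adjoin K (Set.range fun _ : Unit => ξ j₀) := by
          intro a
          obtain ⟨f, rfl⟩ := Ideal.Quotient.mk_surjective a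
          rw [← aeval_mk P L f]
          induction f using MvPolynomial.induction_on with
          | C c =>
            rw [MvPolynomial.aeval_C, IsScalarTower.algebraMap_apply k K L]
            exact Subalgebra.algebraMap_mem _ _
          | add f g hf hg => rw [map_add]; exact Subalgebra.add_mem _ hf hg
          | mul_X f j hf =>
            rw [map_mul, MvPolynomial.aeval_X]
            refine Subalgebra.mul_mem _ hf ?_
            have h1 : ξ j = algebraMap K L (x j) * ξ j₀ := by
              show ξ j = ((x j : K) : L) * ξ j₀
              rw [hx, div_mul_cancel₀ _ hj₀]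
            show ξ j ∈ _
            rw [h1]
            exact Subalgebra.mul_mem _ (Subalgebra.algebraMap_mem _ _)
              (Algebra.subset_adjoin ⟨(), rfl⟩)
        constructor
        intro y
        obtain ⟨a, b, hb, rfl⟩ := IsFractionRing.div_surjective (A := A) y
        rw [div_eq_mul_inv]
        refine IsAlgebraic.mul ?_ (IsAlgebraic.inv ?_)
        · exact isAlgebraic_algebraMap
            (⟨_, hmemA a⟩ : Algebra.adjoin K (Set.range fun _ : Unit => ξ j₀))
        · exact isAlgebraic_algebraMap
            (⟨_, hmemA b⟩ : Algebra.adjoin K (Set.range fun _ : Unit => ξ j₀))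
      have hb := hind.isTranscendenceBasis_iff_isAlgebraic.mpr halg
      have := hb.lift_cardinalMk_eq_trdeg
      simpa using this.symm
    have h9 := trdeg_add_eq (R := k) (S := K) (A := L)
    rw [htr1, htrL] at h9
    have h10 : Algebra.trdeg k K + 1 = (l : ℕ) + 1 := by
      rw [h9]
      push_cast
      rfl
    exact Cardinal.add_one_inj.mp h10

/-- finite generation -/
theorem fg_of_degree [Finite J] {K : Type u} [Field K] [Algebra k K] {x : J → K}
    (h : degree k x ≠ 0) : (⊤ : IntermediateField k K).FG := by
  have hfin : FiniteDimensional (ratios k x) K := FiniteDimensional.of_finrank_pos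
    (Nat.pos_of_ne_zero h)
  have h1 : (ratios k x).FG :=
    IntermediateField.fg_def.mpr ⟨_, Set.finite_range _, rfl⟩
  have h2 : Algebra.EssFiniteType k (ratios k x) := IntermediateField.essFiniteType_iff.mpr h1
  have h3 : Algebra.EssFiniteType k K := Algebra.EssFiniteType.comp k (ratios k x) K
  exact IntermediateField.fg_top_iff.mpr h3

end LC10

end Pool.Agent.LCyc
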