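import Pool.Agent.LCyc.Place

/-!
# Residue fields of places which are trivial on a subfield
-/

set_option autoImplicit false

namespace Pool.Agent.LCyc

open Pool.Agent.ZCyc

universe u w

variable {k : Type u} [Field k] {J : Type}

private theorem res_degree_ne_zero {K : Type u} [Field K] [Algebra k K] {L : Type u} [Field L]
    [Algebra k L] [Algebra K L] [IsScalarTower k K L] [Module.Finite K L] (x : J → K)
    (hx : degree k x ≠ 0) : degree k (fun j => algebraMap K L (x j)) ≠ 0 := by
  have h1 : ratios k (fun j => algebraMap K L (x j)) =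
      (ratios k x).map (IsScalarTower.toAlgHom k K L) := by
    unfold ratios
    rw [IntermediateField.adjoin_map]
    congr 1
    ext y
    constructor
    · rintro ⟨p, rfl⟩
      exact ⟨x p.1 / x p.2, ⟨p, rfl⟩, by simp⟩
    · rintro ⟨_, ⟨p, rfl⟩, rfl⟩
      exact ⟨p, by simp⟩
  have h2 : Module.finrank (ratios k x) L =
      Module.finrank ((ratios k x).map (IsScalarTower.toAlgHom k K L)) L := by
    refine Algebra.finrank_eq_of_equiv_equiv
      ((ratios k x).equivMap (IsScalarTower.toAlgHom k K L)).toRingEquiv (RingEquiv.refl L) ?_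
    ext y
    rfl
  have h3 : Module.finrank (ratios k x) K * Module.finrank K L =
      Module.finrank (ratios k x) L := Module.finrank_mul_finrank _ _ _
  unfold degree
  rw [h1, ← h2, ← h3]
  exact Nat.mul_ne_zero hx Module.finrank_pos.ne'

/-- prime divisors which are trivial on `K` -/
theorem trdeg_degree {K : Type u} [Field K] [Algebra k K] {F : Type u} [Field F] [Algebra k F]
    [Algebra K F] [IsScalarTower k K F] {f : F}
    (hfin : FiniteDimensional (IntermediateField.adjoin K {f}) F) (v : Place k F)
    (hv : ∀ a : K, algebraMap K F a ∈ v.ring) (hf : v.Vanishes f) :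
    Algebra.trdeg k v.Res = Algebra.trdeg k K ∧ ∀ x : J → K, degree k x ≠ 0 →
      degree k (fun j => v.res (algebraMap K F (x j))) ≠ 0 := by
  let w : Place K F := ⟨v.ring, hv, v.ne_top⟩
  let algK : Algebra K v.Res := (inferInstance : Algebra K w.Res)
  have hfinK : Module.Finite K v.Res := finite_res w (f := f) hf
  have hmap : ∀ a : K, algebraMap K v.Res a = IsLocalRing.residue v.ring ⟨algebraMap K F a, hv a⟩ :=
    fun a => rfl
  have hmapk : ∀ c : k, algebraMap k v.Res c =
      IsLocalRing.residue v.ring ⟨algebraMap k F c, v.const_mem c⟩ := fun c => rfl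
  have : IsScalarTower k K v.Res := IsScalarTower.of_algebraMap_eq fun c => by
    rw [hmap, hmapk]
    congr 2
    exact IsScalarTower.algebraMap_apply k K F c
  refine ⟨?_, fun x hx => ?_⟩
  · have h4 : Algebra.IsAlgebraic K v.Res := Algebra.IsAlgebraic.of_finite K v.Res
    rw [← _root_.trdeg_add_eq k K (A := v.Res), _root_.trdeg_eq_zero (R := K), add_zero]
  · have h3 : (fun j => v.res (algebraMap K F (x j))) = fun j => algebraMap K v.Res (x j) := by
      funext j
      rw [hmap]
      unfold Place.res
      rw [dif_pos (hv (x j))]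
    rw [h3]
    exact res_degree_ne_zero x hx

end Pool.Agent.LCyc
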