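import Pool.Agent.LCyc.Defs
import Pool.Agent.ZCyc.Basic

/-!
# Transcendence degrees of residue fields
-/

set_option autoImplicit false

namespace Pool.Agent.LCyc

open Pool.Agent.ZCyc

universe u w

variable {k : Type u} [Field k] {J : Type}

section LC6

variable {K : Type u} [Field K] [Algebra k K] {F : Type u} [Field F] [Algebra k F] [Algebra K F]
  [IsScalarTower k K F]

private instance tower1 (v : Place k F) : IsScalarTower k v.ring F :=
  IsScalarTower.of_algebraMap_eq fun _ => rfl

private lemma res_of_mem (v : Place k F) {f : F} (hf : f ∈ v.ring) :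
    v.res f = IsLocalRing.residue v.ring ⟨f, hf⟩ := by
  unfold Place.res
  rw [dif_pos hf]

private lemma res_eq_zero_of_vanishes (v : Place k F) {f : F} (hf : v.Vanishes f) :
    v.res f = 0 := by
  rw [res_of_mem v (hf.mem v), IsLocalRing.residue_eq_zero_iff]
  obtain ⟨h1, h2⟩ := (ValuationSubring.mem_nonunits_iff_exists_mem_maximalIdeal).1 hf
  exact h2

/-- an element which is algebraic over a ring of units of the valuation ring -/
private lemma mem_of_algebraic (v : Place k F) {M : Type u} [Field M] [Algebra k M]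
    (φ : M →ₐ[k] F) (B : Subalgebra k M) (hB : ∀ b ∈ B, φ b ∈ v.ring)
    (hB' : ∀ b ∈ B, b ≠ 0 → ¬ v.Vanishes (φ b)) {y : M} (hy : IsAlgebraic B y) :
    φ y ∈ v.ring := by
  obtain ⟨p, hp, hpy⟩ := hy
  let ψ : B →+* v.ring := RingHom.codRestrict ((φ : M →+* F).comp (algebraMap B M)) v.ring
    (fun b => hB _ b.2)
  have hψ : ∀ b : B, ((ψ b : v.ring) : F) = φ (b : M) := fun b => rfl
  have hψi : Function.Injective ψ := by
    intro a b hab
    have h1 : φ (a : M) = φ (b : M) := by rw [← hψ, ← hψ, hab]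
    exact Subtype.ext (φ.toRingHom.injective h1)
  have h1 : Polynomial.aeval (φ y) (p.map ψ) = 0 := by
    rw [Polynomial.aeval_def, Polynomial.eval₂_map]
    have h2 : (algebraMap v.ring F).comp ψ = (φ : M →+* F).comp (algebraMap B M) := by
      ext b
      exact hψ b
    rw [h2]
    have h3 := congrArg (φ : M →+* F) hpy
    rw [Polynomial.aeval_def, Polynomial.hom_eval₂, map_zero] at h3
    exact h3
  have h2 := isIntegral_leadingCoeff_smul (p.map ψ) (φ y) h1
  rw [Polynomial.leadingCoeff_map_of_injective hψi] at h2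
  obtain ⟨z, hz⟩ := IsIntegrallyClosed.isIntegral_iff.1 h2
  have hc : p.leadingCoeff ≠ 0 := Polynomial.leadingCoeff_ne_zero.2 hp
  have h3 := hB' _ p.leadingCoeff.2 (fun h => hc (Subtype.ext h))
  rw [Place.vanishes_iff_or] at h3
  push Not at h3
  obtain ⟨h4, h5⟩ := h3
  have h6 : φ y = (φ (p.leadingCoeff : M))⁻¹ * (z : F) := by
    have h7 : (z : F) = φ (p.leadingCoeff : M) * φ y := hz
    rw [h7]
    field_simp
  rw [h6]
  exact mul_mem h5 z.2

private lemma res_aeval (v : Place k F) {M : Type u} [Field M] [Algebra k M] (φ : M →ₐ[k] F)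
    {ι : Type u} (b : ι → M) (hb : ∀ i, φ (b i) ∈ v.ring) (p : MvPolynomial ι k) :
    φ (MvPolynomial.aeval b p) ∈ v.ring ∧
      v.res (φ (MvPolynomial.aeval b p)) = MvPolynomial.aeval (fun i => v.res (φ (b i))) p := by
  let α : ι → v.ring := fun i => ⟨φ (b i), hb i⟩
  have h1 : φ (MvPolynomial.aeval b p) = ((MvPolynomial.aeval α p : v.ring) : F) := by
    rw [MvPolynomial.comp_aeval_apply]
    exact MvPolynomial.aeval_algebraMap_apply F α p
  have h2 : φ (MvPolynomial.aeval b p) ∈ v.ring := by
    rw [h1]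
    exact (MvPolynomial.aeval α p).2
  refine ⟨h2, ?_⟩
  rw [res_of_mem v h2]
  have h3 : (⟨φ (MvPolynomial.aeval b p), h2⟩ : v.ring) = MvPolynomial.aeval α p :=
    Subtype.ext h1
  have h4 : (fun i => v.res (φ (b i))) = algebraMap v.ring v.Res ∘ α := by
    funext i
    exact res_of_mem v (hb i)
  rw [h3, h4, MvPolynomial.aeval_algebraMap_apply]
  rfl

/-- residues of a subfield on which the place is not trivial -/
theorem trdeg_lt (v : Place k F) {M : IntermediateField k K} {n : ℕ}
    (hM : Algebra.trdeg k M = (n : ℕ)) (hv : ¬ ∀ a ∈ M, algebraMap K F a ∈ v.ring)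
    {G : Set v.Res} (hG : ∀ e ∈ G, ∃ a ∈ M, algebraMap K F a ∈ v.ring ∧
      v.res (algebraMap K F a) = e) :
    Algebra.trdeg k (IntermediateField.adjoin k G) < Algebra.trdeg k M := by
  by_contra hcon
  push Not at hcon
  rw [hM] at hcon
  -- algebraically independent elements of `G`
  set E := IntermediateField.adjoin k G with hE
  let s : Set E := {x | (x : v.Res) ∈ G}
  have hs1 : E.val '' s = G := by
    ext x
    constructor
    · rintro ⟨y, hy, rfl⟩
      exact hy
    · intro hx
      exact ⟨⟨x, IntermediateField.subset_adjoin _ _ hx⟩, hx, rfl⟩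
  have hs2 : ∀ a ∈ Algebra.adjoin k G, ∃ b ∈ Algebra.adjoin k s, E.val b = a := by
    intro a ha
    rw [← hs1, ← AlgHom.map_adjoin] at ha
    obtain ⟨b, hb, rfl⟩ := ha
    exact ⟨b, hb, rfl⟩
  have hs : Algebra.IsAlgebraic (Algebra.adjoin k s) E := by
    constructor
    rintro ⟨x, hx⟩
    obtain ⟨a, ha, b, hb, hab⟩ := IntermediateField.mem_adjoin_iff_div.1 hx
    obtain ⟨a', ha', haa⟩ := hs2 a ha
    obtain ⟨b', hb', hbb⟩ := hs2 b hb
    have h1 : (⟨x, hx⟩ : E) = a' * b'⁻¹ := by
      apply Subtype.ext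
      change x = E.val (a' * b'⁻¹)
      rw [map_mul, map_inv₀, haa, hbb, hab, div_eq_mul_inv]
    rw [h1]
    exact (isAlgebraic_algebraMap (⟨a', ha'⟩ : Algebra.adjoin k s)).mul
      (isAlgebraic_algebraMap (⟨b', hb'⟩ : Algebra.adjoin k s)).inv
  obtain ⟨t, hts, ht⟩ := exists_isTranscendenceBasis_subset (R := k) s
  have hcard : (n : Cardinal) ≤ Cardinal.mk t := by
    rw [ht.cardinalMk_eq_trdeg]
    exact hcon
  obtain ⟨t', ht'⟩ := Cardinal.le_mk_iff_exists_set.1 hcard
  have hfin : Finite t' := by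
    rw [← Cardinal.lt_aleph0_iff_finite, ht']
    exact Cardinal.natCast_lt_aleph0
  choose a ha1 ha2 ha3 using hG
  have hmem : ∀ i : t', ((i : t) : E).1 ∈ G := fun i => hts (i : t).2
  let φ : M →ₐ[k] F := (IsScalarTower.toAlgHom k K F).comp M.val
  let b : t' → M := fun i => ⟨a _ (hmem i), ha1 _ (hmem i)⟩
  have hb : ∀ i, φ (b i) ∈ v.ring := fun i => ha2 _ (hmem i)
  have hbe : ∀ i, v.res (φ (b i)) = E.val ((i : t) : E) := fun i => ha3 _ (hmem i)
  have he : AlgebraicIndependent k fun i : t' => v.res (φ (b i)) := by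
    have h1 : AlgebraicIndependent k (fun i : t' => ((i : t) : E)) :=
      ht.1.comp _ Subtype.val_injective
    have h2 : AlgebraicIndependent k (E.val ∘ fun i : t' => ((i : t) : E)) :=
      h1.map' E.val.toRingHom.injective
    have h3 : (fun i : t' => v.res (φ (b i))) = E.val ∘ fun i : t' => ((i : t) : E) := by
      funext i
      exact hbe i
    rw [h3]
    exact h2
  have hnz : ∀ p : MvPolynomial t' k, v.res (φ (MvPolynomial.aeval b p)) = 0 → p = 0 := by
    intro p hp
    rw [(res_aeval v φ b hb p).2] at hp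
    exact (algebraicIndependent_iff.1 he) p hp
  have hbi : AlgebraicIndependent k b := by
    rw [algebraicIndependent_iff]
    intro p hp
    apply hnz
    rw [hp, map_zero]
    exact res_eq_zero_of_vanishes v v.vanishes_zero
  have hbt : IsTranscendenceBasis k b := by
    apply hbi.isTranscendenceBasis_of_lift_trdeg_le_of_finite
    rw [hM, ht']
  have halg := hbt.isAlgebraic
  apply hv
  intro y hy
  have h1 := mem_of_algebraic v φ (Algebra.adjoin k (Set.range b)) ?_ ?_ (y := ⟨y, hy⟩)
    (halg.isAlgebraic _)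
  · exact h1
  · intro c hc
    rw [Algebra.adjoin_range_eq_range_aeval] at hc
    obtain ⟨p, rfl⟩ := hc
    exact (res_aeval v φ b hb p).1
  · intro c hc hc0 hcv
    rw [Algebra.adjoin_range_eq_range_aeval] at hc
    obtain ⟨p, rfl⟩ := hc
    apply hc0
    have := hnz p (res_eq_zero_of_vanishes v hcv)
    rw [this]
    simp

/-- the case where the residue field is not finite over the field of the center -/
theorem degree_eq_zero (v : Place k F) {l : ℕ} (hK : Algebra.trdeg k K = (l : ℕ))
    (hv : ¬ ∀ a : K, algebraMap K F a ∈ v.ring) (hl : Algebra.trdeg k v.Res = (l : ℕ)) {m : ℕ}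
    (hm : 0 < m) {ξ : J → v.Res}
    (hξ : ∀ j, ∃ a : K, algebraMap K F a ∈ v.ring ∧ v.res (algebraMap K F a) = ξ j ^ m) :
    degree k ξ = 0 := by
  by_contra hdeg
  have hfin : FiniteDimensional (ratios k ξ) v.Res := by
    apply FiniteDimensional.of_finrank_pos
    exact Nat.pos_of_ne_zero hdeg
  let G : Set v.Res := Set.range fun j => ξ j ^ m
  have hM : Algebra.trdeg k (⊤ : IntermediateField k K) = (l : ℕ) := by
    rw [← hK]
    exact (IntermediateField.topEquiv (F := k) (E := K)).trdeg_eq
  have h1 := trdeg_lt v (M := ⊤) hM (fun h => hv fun a => h a trivial) (G := G) (by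
    rintro _ ⟨j, rfl⟩
    obtain ⟨a, ha, ha'⟩ := hξ j
    exact ⟨a, trivial, ha, ha'⟩)
  rw [hM] at h1
  set E := IntermediateField.adjoin k G with hE
  -- the field of the algebraic elements over `E`
  let C : IntermediateField E v.Res := algebraicClosure E v.Res
  have hξC : ∀ j, ξ j ∈ C := by
    intro j
    rw [mem_algebraicClosure_iff]
    have h2 : ξ j ^ m ∈ E := IntermediateField.subset_adjoin _ _ ⟨j, rfl⟩
    have h3 : IsAlgebraic E (ξ j ^ m) := isAlgebraic_algebraMap (⟨_, h2⟩ : E)
    exact h3.of_pow hm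
  have hle : ∀ x ∈ ratios k ξ, x ∈ C := by
    have : ratios k ξ ≤ C.restrictScalars k := by
      unfold ratios
      rw [IntermediateField.adjoin_le_iff]
      rintro _ ⟨p, rfl⟩
      exact C.div_mem (hξC _) (hξC _)
    exact this
  let ϕ : ratios k ξ →+* C := RingHom.codRestrict (algebraMap (ratios k ξ) v.Res) C
    (fun x => hle _ x.2)
  have hC : Algebra.IsAlgebraic E C := by
    constructor
    intro x
    have h2 := mem_algebraicClosure_iff.1 x.2
    exact (isAlgebraic_algebraMap_iff (algebraMap C v.Res).injective).1 h2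
  have hE : Algebra.IsAlgebraic E v.Res := by
    constructor
    intro x
    have h2 : IsIntegral (ratios k ξ) x := Algebra.IsIntegral.isIntegral x
    have h3 : IsIntegral C (RingHom.id v.Res x) :=
      IsIntegral.map_of_comp_eq ϕ (RingHom.id v.Res) rfl h2
    have h4 : Algebra.IsIntegral E C := Algebra.isAlgebraic_iff_isIntegral.1 hC
    exact (isIntegral_trans x h3).isAlgebraic
  have h5 := trdeg_add_eq k E (A := v.Res)
  rw [trdeg_eq_zero (R := E) (A := v.Res), add_zero, hl] at h5
  rw [h5] at h1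
  exact lt_irrefl _ h1

end LC6

end Pool.Agent.LCyc
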