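import Pool.Agent.LCyc.Ideal
import Pool.Agent.LCyc.Center
import Pool.Agent.LCyc.Op
import Pool.Agent.LCyc.Ord
import Pool.Agent.LCyc.Strict
import Pool.Agent.LCyc.Fin
import Pool.Agent.LCyc.Trdeg
import Pool.Agent.LCyc.Dir1
import Pool.Agent.LCyc.Dir
import Pool.Agent.LCyc.Cover
import Pool.Agent.LCyc.Place
import Pool.Agent.LCyc.Res
import Pool.Agent.LCyc.Point
import Pool.Agent.LCyc.Alg

/-!
# The action of the characters on cycles: killed and twisted cycles
-/

set_option autoImplicit false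

namespace Pool.Agent.LCyc

open Pool.Agent.ZCyc Finset

universe u w

variable {k : Type u} [Field k] {J : Type} [Fintype J] [DecidableEq J] {m : ℕ} [NeZero m]
  {R : Type w} [Field R] {ζ : kˣ}

lemma zeta_pow (hζ : IsPrimitiveRoot (ζ : k) m) : ζ ^ m = 1 := by
  apply Units.ext
  push_cast
  exact hζ.pow_eq_one

/-- cycles in a coordinate hyperplane are killed -/
lemma killed (hζ : ζ ^ m = 1) {ω : R} (hω : IsPrimitiveRoot ω m) {ψ : AddChar (J → ZMod m) R}
    {a : J → ZMod m} (ha : ∀ t, ψ t = ω ^ (∑ j, a j * t j).val) {K : Type*} [Field K]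
    [Algebra k K] {x : J → K} {j : J} (hj : a j ≠ 0) (hx : x j = 0) :
    op ζ ψ (Finsupp.single (ideal k x) 1) = 0 := by
  apply op_eq_zero hζ ψ (act_single_fix hx)
  rw [ha]
  have h1 : ∑ i, a i * (Pi.single j (1 : ZMod m) : J → ZMod m) i = a j := by
    rw [Finset.sum_eq_single j]
    · simp
    · intro i _ hi
      rw [Pi.single_eq_of_ne hi, mul_zero]
    · simp
  rw [h1]
  intro h2
  rw [hω.pow_eq_one_iff_dvd] at h2
  exact hj ((ZMod.val_eq_zero _).1 (Nat.eq_zero_of_dvd_of_lt h2 (ZMod.val_lt _)))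

omit [Fintype J] [DecidableEq J] in
/-- a root of the same power -/
lemma exists_zmod (hζ : IsPrimitiveRoot (ζ : k) m) {K : Type*} [Field K] [Algebra k K] {a b : K}
    (h : a ^ m = b ^ m) : ∃ n : ZMod m, a = algebraMap k K ((ζ : k) ^ n.val) * b := by
  have hm : 0 < m := NeZero.pos m
  by_cases hb : b = 0
  · refine ⟨0, ?_⟩
    rw [hb, zero_pow hm.ne'] at h
    rw [hb, mul_zero]
    exact pow_eq_zero_iff hm.ne' |>.1 h
  have hζ' : IsPrimitiveRoot (algebraMap k K (ζ : k)) m :=
    hζ.map_of_injective (algebraMap k K).injective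
  have h1 : (a / b) ^ m = 1 := by
    rw [div_pow, h, div_self (pow_ne_zero _ hb)]
  obtain ⟨i, hi, h2⟩ := hζ'.eq_pow_of_pow_eq_one h1
  refine ⟨(i : ZMod m), ?_⟩
  rw [ZMod.val_natCast, Nat.mod_eq_of_lt hi, map_pow, h2, div_mul_cancel₀ _ hb]

/-- twisting by roots of unity which are constant on the blocks -/
lemma twist (hζ : IsPrimitiveRoot (ζ : k) m) {ω : R} (hω : IsPrimitiveRoot ω m)
    {ψ : AddChar (J → ZMod m) R} {a : J → ZMod m} (ha : ∀ t, ψ t = ω ^ (∑ j, a j * t j).val)
    {S : Finset J} (hS : ∀ j, j ∈ S ↔ a j ≠ 0) {β : Type} [DecidableEq β] {b : J → β}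
    (hsum : ∀ B, ∑ j ∈ S with b j = B, a j = 0) {K : Type*} [Field K] [Algebra k K]
    {x x' : J → K} (hx : ∀ j ∈ S, x j ≠ 0) (hpow : ∀ j, x' j ^ m = x j ^ m)
    (hb : ∀ i ∈ S, ∀ j ∈ S, b i = b j → x' i * x j = x' j * x i) :
    op ζ ψ (Finsupp.single (ideal k x') 1) = op ζ ψ (Finsupp.single (ideal k x) 1) := by
  have h1 : ∀ B : β, ∃ n : ZMod m, ∀ j ∈ S, b j = B → x' j = algebraMap k K ((ζ : k) ^ n.val) * x j := by
    intro B
    by_cases hB : ∃ i ∈ S, b i = B
    · obtain ⟨i, hi, hiB⟩ := hB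
      obtain ⟨n, hn⟩ := exists_zmod hζ (hpow i)
      refine ⟨n, fun j hj hjB => ?_⟩
      have h2 := hb i hi j hj (hiB.trans hjB.symm)
      rw [hn] at h2
      apply mul_right_cancel₀ (hx i hi)
      rw [← h2]
      ring
    · exact ⟨0, fun j hj hjB => absurd ⟨j, hj, hjB⟩ hB⟩
  choose n hn using h1
  choose g' hg' using fun j => exists_zmod hζ (hpow j)
  set g : J → ZMod m := fun j => if j ∈ S then n (b j) else g' j with hg
  have h2 : x' = fun j => algebraMap k K ((ζ : k) ^ (g j).val) * x j := by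
    funext j
    rw [hg]
    by_cases hj : j ∈ S
    · simp only [hj, if_true]
      exact hn (b j) j hj rfl
    · simp only [hj, if_false]
      exact hg' j
  have h3 : ψ g = 1 := by
    rw [ha]
    have h4 : ∑ j, a j * g j = 0 := by
      have h5 : ∑ j, a j * g j = ∑ j ∈ S, a j * n (b j) := by
        symm
        rw [← Finset.sum_subset (Finset.subset_univ S)]
        · apply Finset.sum_congr rfl
          intro j hj
          rw [hg]
          simp only [hj, if_true]
        · intro j _ hj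
          have : a j = 0 := by
            by_contra h0
            exact hj ((hS j).2 h0)
          rw [this, zero_mul]
      rw [h5, ← Finset.sum_fiberwise_of_maps_to (s := S) (t := S.image b) (g := b)
        (fun j hj => Finset.mem_image_of_mem b hj)]
      apply Finset.sum_eq_zero
      intro B _
      have h6 : ∀ j ∈ S.filter (fun j => b j = B), a j * n (b j) = a j * n B := by
        intro j hj
        rw [(Finset.mem_filter.1 hj).2]
      rw [Finset.sum_congr rfl h6, ← Finset.sum_mul, hsum B, zero_mul]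
    rw [h4, ZMod.val_zero, pow_zero]
  rw [h2, ← act_ideal]
  have h4 := op_act (zeta_pow hζ) ψ g (ideal k x)
  rwa [h3, one_smul] at h4

end Pool.Agent.LCyc
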