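import Pool.Agent.LCyc.Core1

/-!
# Classification of the prime divisors where the function has a zero or a pole
-/

set_option autoImplicit false

namespace Pool.Agent.LCyc

open Pool.Agent.ZCyc Finset

universe u w

variable {k : Type u} [Field k] {J : Type}

section Basic

variable {F : Type*} [Field F] [Algebra k F] (v : Place k F)

lemma mem_of_pow {f : F} {m : ℕ} (hm : 0 < m) (h : f ^ m ∈ v.ring) : f ∈ v.ring := by
  rw [← ValuationSubring.valuation_le_one_iff] at h ⊢
  rw [map_pow] at h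
  by_contra hcon
  push Not at hcon
  exact absurd h (not_le.2 (one_lt_pow₀ hcon hm.ne'))

lemma center_apply {x : J → F} (h1 : ∀ j, x j ∈ v.ring) {i : J} (h2 : x i = 1) :
    ∃ a : v.Res, a ≠ 0 ∧ ∀ j, v.center x j = a * v.res (x j) := by
  have h3 : ¬ v.Vanishes (x i) := by
    rw [h2, v.vanishes_iff, map_one]
    exact lt_irrefl _
  obtain ⟨a, ha, h4⟩ := center_eq v (x := x) (c := 1) (fun j => by rw [one_mul]; exact h1 j)
    ⟨i, by rwa [one_mul]⟩
  refine ⟨a, ha, fun j => ?_⟩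
  rw [h4, one_mul]

/-- if some coordinate has a pole then the coordinate `1` vanishes at the center -/
lemma center_eq_zero [Finite J] {x : J → F} {i : J} (h2 : x i = 1) {j : J} (hj : x j ∉ v.ring) :
    v.center x i = 0 := by
  have hx : x ≠ 0 := by
    intro h
    rw [h] at h2
    exact zero_ne_one h2
  obtain ⟨l, hl, hl2⟩ := exists_coord v hx
  have h3 : ∀ i, (x l)⁻¹ * x i ∈ v.ring := by
    intro i
    rw [mul_comm, ← div_eq_mul_inv]
    exact hl2 i
  obtain ⟨a, ha, h4⟩ := center_eq v (x := x) (c := (x l)⁻¹) h3 ⟨l, by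
    rw [inv_mul_cancel₀ hl, v.vanishes_iff, map_one]
    exact lt_irrefl _⟩
  rw [h4, h2, mul_one]
  have h5 : (x l)⁻¹ ∈ v.ring := by
    have := h3 i
    rwa [h2, mul_one] at this
  rw [(res_eq_zero_iff v h5).2, mul_zero]
  rw [v.vanishes_iff_or, inv_inv]
  right
  intro h6
  apply hj
  have h7 := mul_mem h6 (h3 j)
  rwa [← mul_assoc, mul_inv_cancel₀ hl, one_mul] at h7

end Basic

section Classify

variable [Finite J] {m : ℕ} {K : Type u} [Field K] [Algebra k K] {F : Type u} [Field F]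
  [Algebra k F] [Algebra K F] [IsScalarTower k K F] {l : ℕ}

/-- classification -/
theorem classify (hm : 0 < m) (hl : Algebra.trdeg k K = (l : ℕ)) {x w : J → K} {x' : J → F}
    {τ f : F} {M : IntermediateField k K} {S : Finset J} {j₀ j₁ : J} (hj₁ : j₁ ∈ S)
    (hx'1 : x' j₁ = 1)
    (hpow : ∀ j, x' j ^ m = algebraMap K F (x j) ^ m + τ * algebraMap K F (w j))
    (hf : (w j₀ = 0 ∧ f = τ ∧ x' j₀ = algebraMap K F (x j₀)) ∨
      (w j₀ ≠ 0 ∧ f = x' j₀ - algebraMap K F (x j₀)))
    (hwM : ∀ j, w j ∈ M) (v : Place k F)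
    (hdir : τ ∉ v.ring → ∃ j, algebraMap K F (x j ^ m) + τ * algebraMap K F (w j) ∉ v.ring)
    (hres : Algebra.trdeg k v.Res = (l : ℕ)) (hdeg : degree k (v.center x') ≠ 0)
    (hord : v.Vanishes f ∨ f ∉ v.ring) :
    (∃ j ∈ S, v.center x' j = 0) ∨
    ((∀ j, x' j ∈ v.ring) ∧ ¬ ∀ a ∈ M, algebraMap K F a ∈ v.ring) ∨
    ((∀ j, x' j ∈ v.ring) ∧ (∀ a : K, algebraMap K F a ∈ v.ring) ∧ v.Vanishes f ∧
      (∀ j, v.res (x' j) ^ m = v.res (algebraMap K F (x j)) ^ m) ∧
      v.res (x' j₀) = v.res (algebraMap K F (x j₀))) := by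
  by_cases h1 : ∀ j, x' j ∈ v.ring
  swap
  · push Not at h1
    obtain ⟨j, hj⟩ := h1
    exact Or.inl ⟨j₁, hj₁, center_eq_zero v hx'1 hj⟩
  right
  by_cases h2 : ∀ a ∈ M, algebraMap K F a ∈ v.ring
  swap
  · exact Or.inl ⟨h1, h2⟩
  right
  have hτ : τ ∈ v.ring := by
    by_contra hcon
    obtain ⟨j, hj⟩ := hdir hcon
    rw [map_pow, ← hpow] at hj
    exact hj (pow_mem (h1 j) m)
  have hxp : ∀ j, algebraMap K F (x j) ∈ v.ring := by
    intro j
    apply mem_of_pow v hm
    have h3 : algebraMap K F (x j) ^ m = x' j ^ m - τ * algebraMap K F (w j) := by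
      rw [hpow]
      ring
    rw [h3]
    exact sub_mem (pow_mem (h1 j) m) (mul_mem hτ (h2 _ (hwM j)))
  have hfv : f ∈ v.ring := by
    rcases hf with ⟨_, h3, _⟩ | ⟨_, h3⟩
    · rw [h3]
      exact hτ
    · rw [h3]
      exact sub_mem (h1 j₀) (hxp j₀)
  have hfv' : v.Vanishes f := by
    rcases hord with h | h
    · exact h
    · exact absurd hfv h
  have hτv : v.Vanishes τ := by
    rcases hf with ⟨_, h3, _⟩ | ⟨h4, h3⟩
    · rwa [← h3]
    · have h5 : v.Vanishes (τ * algebraMap K F (w j₀)) := by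
        have h6 : τ * algebraMap K F (w j₀) = x' j₀ ^ m - algebraMap K F (x j₀) ^ m := by
          rw [hpow]
          ring
        rw [h6, ← (Commute.all _ _).geom_sum₂_mul, ← h3]
        apply Place.Vanishes.mul' v hfv'
        apply sum_mem
        intro i _
        exact mul_mem (pow_mem (h1 _) _) (pow_mem (hxp _) _)
      have h7 : (algebraMap K F (w j₀))⁻¹ ∈ v.ring := by
        rw [← map_inv₀]
        exact h2 _ (M.inv_mem (hwM _))
      have h8 := Place.Vanishes.mul v h5 h7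
      have h9 : algebraMap K F (w j₀) ≠ 0 := by simpa using h4
      rwa [mul_assoc, mul_inv_cancel₀ h9, mul_one] at h8
  have hresp : ∀ j, v.res (x' j) ^ m = v.res (algebraMap K F (x j)) ^ m := by
    intro j
    rw [← res_pow v (h1 j), ← res_pow v (hxp j), hpow,
      res_add v (pow_mem (hxp j) m) (mul_mem hτ (h2 _ (hwM j))), res_mul v hτ (h2 _ (hwM j)),
      (res_eq_zero_iff v hτ).2 hτv, zero_mul, add_zero]
  have hj0 : v.res (x' j₀) = v.res (algebraMap K F (x j₀)) := by
    rcases hf with ⟨_, _, h3⟩ | ⟨_, h3⟩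
    · rw [h3]
    · have h4 : v.res (x' j₀ - algebraMap K F (x j₀)) = 0 := by
        rw [← h3]
        exact (res_eq_zero_iff v hfv).2 hfv'
      rw [res_sub v (h1 _) (hxp _)] at h4
      exact sub_eq_zero.1 h4
  refine ⟨h1, ?_, hfv', hresp, hj0⟩
  by_contra hcon
  apply hdeg
  obtain ⟨a, ha, h4⟩ := center_apply v h1 hx'1
  have h5 : v.center x' = fun j => a * v.res (x' j) := funext h4
  rw [h5, degree_smul ha]
  apply degree_eq_zero (K := K) v hl hcon hres hm
  intro j
  refine ⟨x j ^ m, ?_, ?_⟩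
  · rw [map_pow]
    exact pow_mem (hxp j) m
  · rw [map_pow, res_pow v (hxp j), hresp]

end Classify

end Pool.Agent.LCyc
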