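import Pool.Agent.LCyc.Core2

/-!
# Finiteness of the support of the divisor
-/

set_option autoImplicit false

namespace Pool.Agent.LCyc

open Pool.Agent.ZCyc Finset

universe u w

variable {k : Type u} [Field k] {J : Type}

/-- the field generated by the ratios of the powers of the coordinates in the blocks -/
def blk (k : Type*) [Field k] {K : Type*} [Field K] [Algebra k K] (S : Finset J) {β : Type}
    (b : J → β) (j₀ : J) (m : ℕ) (x : J → K) : IntermediateField k K :=
  IntermediateField.adjoin k {e | ∃ i ∈ S, ∃ j ∈ S, i ≠ j₀ ∧ j ≠ j₀ ∧ b i = b j ∧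
    x i ^ m / x j ^ m = e}

lemma isAlgebraic_mono {L : Type*} [Field L] [Algebra k L] {E₁ E₂ : IntermediateField k L}
    (h : E₁ ≤ E₂) {e : L} (he : IsAlgebraic E₁ e) : IsAlgebraic E₂ e := by
  obtain ⟨p, hp, h1⟩ := he
  refine ⟨p.map (IntermediateField.inclusion h : E₁ →+* E₂), ?_, ?_⟩
  · rwa [Ne, Polynomial.map_eq_zero]
  · rw [Polynomial.aeval_def, Polynomial.eval₂_map] at *
    exact h1

lemma isAlgebraic_of_degree {L : Type*} [Field L] [Algebra k L] {x : J → L}
    (h : degree k x ≠ 0) (e : L) : IsAlgebraic (ratios k x) e := by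
  have h1 : Module.Finite (ratios k x) L := Module.finite_of_finrank_pos (Nat.pos_of_ne_zero h)
  exact Algebra.IsAlgebraic.isAlgebraic e

section

variable [Finite J] {F : Type u} [Field F] [Algebra k F]

/-- the residue field is algebraic over the residues of a chart -/
lemma isAlgebraic_res (v : Place k F) {x : J → F} (hdeg : degree k (v.center x) ≠ 0) {j : J}
    (hj : x j ≠ 0) (hj2 : ∀ i, x i / x j ∈ v.ring) {A : Subalgebra k F}
    (hA : ∀ i, x i / x j ∈ A) (e : v.Res) :
    IsAlgebraic (IntermediateField.adjoin k (v.res '' (A : Set F))) e := by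
  apply isAlgebraic_mono _ (isAlgebraic_of_degree hdeg e)
  rw [ratios, IntermediateField.adjoin_le_iff]
  rintro _ ⟨⟨i, i'⟩, rfl⟩
  have h1 : ∀ i, (x j)⁻¹ * x i ∈ v.ring := by
    intro i
    rw [mul_comm, ← div_eq_mul_inv]
    exact hj2 i
  obtain ⟨a, ha, h4⟩ := center_eq v (x := x) (c := (x j)⁻¹) h1 ⟨j, by
    rw [inv_mul_cancel₀ hj, v.vanishes_iff, map_one]
    exact lt_irrefl _⟩
  have h5 : ∀ i, v.res ((x j)⁻¹ * x i) ∈ IntermediateField.adjoin k (v.res '' (A : Set F)) := by
    intro i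
    apply IntermediateField.subset_adjoin
    refine ⟨(x j)⁻¹ * x i, ?_, rfl⟩
    rw [mul_comm, ← div_eq_mul_inv]
    exact hA i
  simp only [SetLike.mem_coe]
  rw [h4, h4, mul_div_mul_left _ _ ha]
  exact div_mem (h5 i) (h5 i')

end

section Support

variable [Finite J] {m : ℕ} {K : Type u} [Field K] [Algebra k K] {F : Type u} [Field F]
  [Algebra k F] [Algebra K F] [IsScalarTower k K F] {l : ℕ} {x w : J → K} {x' : J → F}
    {τ f : F} {S : Finset J} {β : Type} {b : J → β} {j₀ j₁ : J}

/-- the coordinates of the moving point do not vanish -/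
lemma moving_ne_zero (hm : 0 < m)
    (hpow : ∀ j, x' j ^ m = algebraMap K F (x j) ^ m + τ * algebraMap K F (w j))
    (hf : (w j₀ = 0 ∧ f = τ ∧ x' j₀ = algebraMap K F (x j₀)) ∨
      (w j₀ ≠ 0 ∧ f = x' j₀ - algebraMap K F (x j₀))) (htr : Transcendental K f) {j : J}
    (hxj : x j ≠ 0) : x' j ≠ 0 := by
  intro h0
  have h1 := hpow j
  rw [h0, zero_pow hm.ne'] at h1
  have hw : w j ≠ 0 := by
    intro hw
    rw [hw, map_zero, mul_zero, add_zero] at h1
    have h2 := (pow_eq_zero_iff hm.ne').1 h1.symm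
    exact hxj (by simpa using h2)
  have hW : algebraMap K F (w j) ≠ 0 := by simpa using hw
  have hτ : τ = algebraMap K F (-(x j ^ m) / w j) := by
    rw [map_div₀, map_neg, map_pow, eq_div_iff hW]
    linear_combination -h1
  apply htr
  rcases hf with ⟨_, h3, _⟩ | ⟨_, h3⟩
  · rw [h3, hτ]
    exact isAlgebraic_algebraMap _
  · rw [h3]
    apply IsAlgebraic.sub _ (isAlgebraic_algebraMap _)
    apply IsAlgebraic.of_pow hm
    rw [hpow, hτ, ← map_pow, ← map_mul, ← map_add]
    exact isAlgebraic_algebraMap _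

/-- everything is algebraic over a chart -/
lemma chart_algebraic (hm : 0 < m) (hdeg : degree k x ≠ 0) (hx'1 : x' j₁ = 1)
    (hxS : ∀ j ∈ S, x j ≠ 0)
    (hpow : ∀ j, x' j ^ m = algebraMap K F (x j) ^ m + τ * algebraMap K F (w j))
    (hb : ∀ i ∈ S, ∀ j ∈ S, i ≠ j₀ → j ≠ j₀ → b i = b j →
      x' i * algebraMap K F (x j) = x' j * algebraMap K F (x i))
    (hf : (w j₀ = 0 ∧ f = τ ∧ x' j₀ = algebraMap K F (x j₀)) ∨
      (w j₀ ≠ 0 ∧ f = x' j₀ - algebraMap K F (x j₀)))
    (hwM : ∀ j, w j ∈ blk k S b j₀ m x) (htr : Transcendental K f)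
    (hfin : FiniteDimensional (IntermediateField.adjoin K {f}) F) {j : J} (hj : x' j ≠ 0)
    {s : Set F} (hs : ∀ i, x' i / x' j ∈ s) (hfs : f ∈ IntermediateField.adjoin k s) (y : F) :
    IsAlgebraic (Algebra.adjoin k s) y := by
  set E := IntermediateField.adjoin k s with hE
  have h1 : ∀ i, x' i / x' j ∈ E := fun i => IntermediateField.subset_adjoin k s (hs i)
  have h2 : x' j ∈ E := by
    have h3 := inv_mem (h1 j₁)
    rwa [hx'1, one_div, inv_inv] at h3
  have h3 : ∀ i, x' i ∈ E := by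
    intro i
    have h4 := mul_mem (h1 i) h2
    rwa [div_mul_cancel₀ _ hj] at h4
  have hM : ∀ a ∈ blk k S b j₀ m x, algebraMap K F a ∈ E := by
    have h4 : blk k S b j₀ m x ≤ E.comap (IsScalarTower.toAlgHom k K F) := by
      rw [blk, IntermediateField.adjoin_le_iff]
      rintro _ ⟨i, hi, i', hi', hi0, hi'0, hbb, rfl⟩
      change algebraMap K F (x i ^ m / x i' ^ m) ∈ E
      have h5 : algebraMap K F (x i ^ m / x i' ^ m) = x' i ^ m / x' i' ^ m := by
        have h6 := hb i hi i' hi' hi0 hi'0 hbb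
        have h7 : x' i' ≠ 0 := moving_ne_zero hm hpow hf htr (hxS i' hi')
        have h8 : algebraMap K F (x i') ≠ 0 := by simpa using hxS i' hi'
        rw [map_div₀, map_pow, map_pow, ← div_pow, ← div_pow]
        congr 1
        rw [div_eq_div_iff h8 h7]
        linear_combination -h6
      rw [h5]
      exact div_mem (pow_mem (h3 _) _) (pow_mem (h3 _) _)
    exact fun a ha => h4 ha
  have hτ : τ ∈ E := by
    rcases hf with ⟨_, h4, _⟩ | ⟨h5, h4⟩
    · rwa [← h4]
    · have h6 : algebraMap K F (x j₀) ∈ E := by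
        have : algebraMap K F (x j₀) = x' j₀ - f := by
          rw [h4]
          ring
        rw [this]
        exact sub_mem (h3 _) hfs
      have h7 : algebraMap K F (w j₀) ≠ 0 := by simpa using h5
      have h8 : τ = (x' j₀ ^ m - algebraMap K F (x j₀) ^ m) / algebraMap K F (w j₀) := by
        rw [eq_div_iff h7, hpow]
        ring
      rw [h8]
      exact div_mem (sub_mem (pow_mem (h3 _) _) (pow_mem h6 _)) (hM _ (hwM _))
  apply isAlgebraic_adjoin hdeg hm hfin hfs
  intro i
  have h4 : algebraMap K F (x i) ^ m = x' i ^ m - τ * algebraMap K F (w i) := by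
    rw [hpow]
    ring
  rw [← hE, h4]
  exact sub_mem (pow_mem (h3 _) _) (mul_mem hτ (hM _ (hwM _)))

/-- the chart algebra of the function `g` -/
def chart (k : Type*) [Field k] {F : Type*} [Field F] [Algebra k F] (x' : J → F) (g : F) (j : J) :
    Subalgebra k F :=
  Algebra.adjoin k ({g} ∪ Set.range fun i => x' i / x' j)

lemma chart_fg (x' : J → F) (g : F) (j : J) : (chart k x' g j).FG :=
  Subalgebra.fg_def.2 ⟨_, (Set.finite_singleton g).union (Set.finite_range _), rfl⟩

lemma mem_chart (x' : J → F) (g : F) (j : J) : g ∈ chart k x' g j :=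
  Algebra.subset_adjoin (Or.inl rfl)

lemma div_mem_chart (x' : J → F) (g : F) (i j : J) : x' i / x' j ∈ chart k x' g j :=
  Algebra.subset_adjoin (Or.inr ⟨i, rfl⟩)

lemma chart_le (v : Place k F) {x' : J → F} {g : F} {j : J} (h1 : ∀ i, x' i / x' j ∈ v.ring)
    (h2 : g ∈ v.ring) : ∀ a ∈ chart k x' g j, a ∈ v.ring := by
  intro a ha
  induction ha using Algebra.adjoin_induction with
  | mem y hy =>
    rcases hy with hy | ⟨i, rfl⟩
    · rw [hy]
      exact h2
    · exact h1 i
  | algebraMap r => exact v.const_mem r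
  | add y z _ _ hy hz => exact add_mem hy hz
  | mul y z _ _ hy hz => exact mul_mem hy hz

/-- finiteness of the support, and the places in the support are discrete -/
theorem support [CharZero k] (hF : (⊤ : IntermediateField k F).FG)
    (hl : Algebra.trdeg k F = (l + 1 : ℕ)) (hm : 0 < m) (hdeg : degree k x ≠ 0)
    (hx'1 : x' j₁ = 1) (hxS : ∀ j ∈ S, x j ≠ 0)
    (hpow : ∀ j, x' j ^ m = algebraMap K F (x j) ^ m + τ * algebraMap K F (w j))
    (hb : ∀ i ∈ S, ∀ j ∈ S, i ≠ j₀ → j ≠ j₀ → b i = b j →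
      x' i * algebraMap K F (x j) = x' j * algebraMap K F (x i))
    (hf : (w j₀ = 0 ∧ f = τ ∧ x' j₀ = algebraMap K F (x j₀)) ∨
      (w j₀ ≠ 0 ∧ f = x' j₀ - algebraMap K F (x j₀)))
    (hwM : ∀ j, w j ∈ blk k S b j₀ m x) (hf0 : f ≠ 0) (htr : Transcendental K f)
    (hfin : FiniteDimensional (IntermediateField.adjoin K {f}) F) :
    {v : Place k F | Algebra.trdeg k v.Res + 1 = Algebra.trdeg k F ∧
      degree k (v.center x') ≠ 0 ∧ (v.Vanishes f ∨ f ∉ v.ring)}.Finite ∧
    ∀ v : Place k F, Algebra.trdeg k v.Res + 1 = Algebra.trdeg k F →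
      degree k (v.center x') ≠ 0 → v.Vanishes f → IsDiscreteValuationRing v.ring := by
  have hx' : x' ≠ 0 := by
    intro h
    rw [h] at hx'1
    exact zero_ne_one hx'1
  have h1 : ∀ j, x' j ≠ 0 → ∀ y : F, IsAlgebraic (chart k x' f j) y := by
    intro j hj y
    apply chart_algebraic hm hdeg hx'1 hxS hpow hb hf hwM htr hfin hj
    · exact fun i => Or.inr ⟨i, rfl⟩
    · exact IntermediateField.subset_adjoin k _ (Or.inl rfl)
  have h2 : ∀ j, x' j ≠ 0 → ∀ y : F, IsAlgebraic (chart k x' f⁻¹ j) y := by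
    intro j hj y
    apply chart_algebraic hm hdeg hx'1 hxS hpow hb hf hwM htr hfin hj
    · exact fun i => Or.inr ⟨i, rfl⟩
    · have := IntermediateField.subset_adjoin k ({f⁻¹} ∪ Set.range fun i => x' i / x' j)
        (Or.inl rfl)
      have h3 := inv_mem this
      rwa [inv_inv] at h3
  constructor
  · apply Set.Finite.subset (s := ⋃ j : {j // x' j ≠ 0},
      ({v : Place k F | (∀ a ∈ chart k x' f j.1, a ∈ v.ring) ∧ v.Vanishes f ∧
        Algebra.trdeg k v.Res + 1 = Algebra.trdeg k F ∧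
        ∀ e : v.Res, IsAlgebraic (IntermediateField.adjoin k
          (v.res '' (chart k x' f j.1 : Set F))) e} ∪
      {v : Place k F | (∀ a ∈ chart k x' f⁻¹ j.1, a ∈ v.ring) ∧ v.Vanishes f⁻¹ ∧
        Algebra.trdeg k v.Res + 1 = Algebra.trdeg k F ∧
        ∀ e : v.Res, IsAlgebraic (IntermediateField.adjoin k
          (v.res '' (chart k x' f⁻¹ j.1 : Set F))) e}))
    · apply Set.finite_iUnion
      rintro ⟨j, hj⟩
      apply Set.Finite.union
      · exact finite_places hF hl (chart_fg x' f j) (h1 j hj) (mem_chart x' f j) hf0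
      · exact finite_places hF hl (chart_fg x' f⁻¹ j) (h2 j hj) (mem_chart x' f⁻¹ j)
          (inv_ne_zero hf0)
    · rintro v ⟨hv1, hv2, hv3⟩
      obtain ⟨j, hj, hj2⟩ := exists_coord v hx'
      rw [Set.mem_iUnion]
      refine ⟨⟨j, hj⟩, ?_⟩
      rcases hv3 with hv3 | hv3
      · left
        exact ⟨chart_le v hj2 (Place.Vanishes.mem v hv3), hv3, hv1,
          isAlgebraic_res v hv2 hj hj2 fun i => div_mem_chart x' f i j⟩
      · right
        have hv4 : v.Vanishes f⁻¹ := by
          rw [v.vanishes_iff_or, inv_inv]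
          exact Or.inr hv3
        exact ⟨chart_le v hj2 (Place.Vanishes.mem v hv4), hv4, hv1,
          isAlgebraic_res v hv2 hj hj2 fun i => div_mem_chart x' f⁻¹ i j⟩
  · intro v hv1 hv2 hv3
    obtain ⟨j, hj, hj2⟩ := exists_coord v hx'
    exact discrete_places hF hl (chart_fg x' f j) (h1 j hj)
      (chart_le v hj2 (Place.Vanishes.mem v hv3)) hv1
      (isAlgebraic_res v hv2 hj hj2 fun i => div_mem_chart x' f i j)

end Support

end Pool.Agent.LCyc
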