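import Pool.Agent.LCyc.Core3

/-!
# The inductive step
-/

set_option autoImplicit false

namespace Pool.Agent.LCyc

open Pool.Agent.ZCyc Finset

universe u w

variable {k : Type u} [Field k] {J : Type}

section Lemmas

variable {m : ℕ} {K : Type u} [Field K] [Algebra k K] {F : Type u} [Field F]
  [Algebra k F] [Algebra K F] [IsScalarTower k K F]

/-- the embedding of the field of constants into the residue field -/
noncomputable def resHom (v : Place k F) (hv : ∀ a : K, algebraMap K F a ∈ v.ring) :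
    K →ₐ[k] v.Res where
  toFun a := v.res (algebraMap K F a)
  map_one' := by
    have h := res_algebraMap v (1 : k)
    rw [map_one, map_one] at h
    rw [map_one]
    exact h
  map_mul' a b := by
    rw [map_mul, res_mul v (hv a) (hv b)]
  map_zero' := by
    rw [map_zero, res_eq_zero_iff v (zero_mem _)]
    exact v.vanishes_zero
  map_add' a b := by
    rw [map_add, res_add v (hv a) (hv b)]
  commutes' c := by
    rw [← IsScalarTower.algebraMap_apply]
    exact res_algebraMap v c

/-- the block field of the center is smaller -/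
lemma blk_lt {l : ℕ} (hm : 0 < m) (hl : Algebra.trdeg k K = (l : ℕ)) {x : J → K} {x' : J → F} {S : Finset J}
    {β : Type} {b : J → β} {j₀ j₁ : J} (hx'1 : x' j₁ = 1) (hxS : ∀ j ∈ S, x j ≠ 0)
    (hb : ∀ i ∈ S, ∀ j ∈ S, i ≠ j₀ → j ≠ j₀ → b i = b j →
      x' i * algebraMap K F (x j) = x' j * algebraMap K F (x i)) (v : Place k F)
    (h1 : ∀ j, x' j ∈ v.ring) (h2 : ¬ ∀ a ∈ blk k S b j₀ m x, algebraMap K F a ∈ v.ring)
    (h3 : ∀ j ∈ S, v.center x' j ≠ 0) :
    Algebra.trdeg k (blk k S b j₀ m (v.center x')) < Algebra.trdeg k (blk k S b j₀ m x) := by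
  have hle : Algebra.trdeg k (blk k S b j₀ m x) ≤ Algebra.trdeg k K :=
    trdeg_le_of_injective (blk k S b j₀ m x).val Subtype.val_injective
  rw [hl] at hle
  obtain ⟨n, hn⟩ := Cardinal.lt_aleph0.1 (lt_of_le_of_lt hle (Cardinal.natCast_lt_aleph0))
  obtain ⟨a, ha, h4⟩ := center_apply v h1 hx'1
  have h5 : ∀ j ∈ S, ¬ v.Vanishes (x' j) := by
    intro j hj h
    apply h3 j hj
    rw [h4, (res_eq_zero_iff v (h1 j)).2 h, mul_zero]
  conv_lhs => rw [blk]
  apply trdeg_lt v hn h2
  rintro _ ⟨i, hi, j, hj, hi0, hj0, hbb, rfl⟩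
  have hxj : algebraMap K F (x j) ≠ 0 := by simpa using hxS j hj
  have hx'j : x' j ≠ 0 := by
    intro h
    apply h5 j hj
    rw [h]
    exact v.vanishes_zero
  have h6 : algebraMap K F (x i ^ m / x j ^ m) = (x' i / x' j) ^ m := by
    rw [map_div₀, map_pow, map_pow, ← div_pow]
    congr 1
    rw [div_eq_div_iff hxj hx'j]
    have := hb i hi j hj hi0 hj0 hbb
    linear_combination -this
  obtain ⟨h7, h8⟩ := res_div v (h1 i) (h1 j) (h5 j hj)
  refine ⟨x i ^ m / x j ^ m, ?_, ?_, ?_⟩
  · rw [blk]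
    exact IntermediateField.subset_adjoin k _ ⟨i, hi, j, hj, hi0, hj0, hbb, rfl⟩
  · rw [h6]
    exact pow_mem h7 m
  · rw [h6, res_pow v h7, h8, h4, h4, mul_pow, mul_pow, mul_div_mul_left _ _ (pow_ne_zero m ha),
      div_pow]

/-- places over the base point -/
lemma typeI (hm : 0 < m) {x w : J → K} {x' : J → F} {τ f : F} {j₀ : J}
    (hpow : ∀ j, x' j ^ m = algebraMap K F (x j) ^ m + τ * algebraMap K F (w j))
    (hf : (w j₀ = 0 ∧ f = τ ∧ x' j₀ = algebraMap K F (x j₀)) ∨
      (w j₀ ≠ 0 ∧ f = x' j₀ - algebraMap K F (x j₀))) (v : Place k F)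
    (hv : ∀ a : K, algebraMap K F a ∈ v.ring) (hfv : v.Vanishes f) :
    (∀ j, x' j ∈ v.ring) ∧ ∀ j, v.res (x' j) ^ m = v.res (algebraMap K F (x j)) ^ m := by
  have hτ : v.Vanishes τ := by
    rcases hf with ⟨_, h3, _⟩ | ⟨h4, h3⟩
    · rwa [← h3]
    · have h1 : x' j₀ ∈ v.ring := by
        have : x' j₀ = f + algebraMap K F (x j₀) := by
          rw [h3]
          ring
        rw [this]
        exact add_mem (Place.Vanishes.mem v hfv) (hv _)
      have h5 : v.Vanishes (τ * algebraMap K F (w j₀)) := by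
        have h6 : τ * algebraMap K F (w j₀) = x' j₀ ^ m - algebraMap K F (x j₀) ^ m := by
          rw [hpow]
          ring
        rw [h6, ← (Commute.all _ _).geom_sum₂_mul, ← h3]
        apply Place.Vanishes.mul' v hfv
        apply sum_mem
        intro i _
        exact mul_mem (pow_mem h1 _) (pow_mem (hv _) _)
      have h7 : (algebraMap K F (w j₀))⁻¹ ∈ v.ring := by
        rw [← map_inv₀]
        exact hv _
      have h8 := Place.Vanishes.mul v h5 h7
      have h9 : algebraMap K F (w j₀) ≠ 0 := by simpa using h4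
      rwa [mul_assoc, mul_inv_cancel₀ h9, mul_one] at h8
  have h1 : ∀ j, x' j ∈ v.ring := by
    intro j
    apply mem_of_pow v hm
    rw [hpow]
    exact add_mem (pow_mem (hv _) m) (mul_mem (Place.Vanishes.mem v hτ) (hv _))
  refine ⟨h1, fun j => ?_⟩
  rw [← res_pow v (h1 j), ← res_pow v (hv (x j)), hpow,
    res_add v (pow_mem (hv _) m) (mul_mem (Place.Vanishes.mem v hτ) (hv _)),
    res_mul v (Place.Vanishes.mem v hτ) (hv _),
    (res_eq_zero_iff v (Place.Vanishes.mem v hτ)).2 hτ, zero_mul, add_zero]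

end Lemmas

section Step

variable [IsAlgClosed k] [CharZero k] [Fintype J] [DecidableEq J] {m : ℕ} [NeZero m]
  {R : Type w} [Field R] [CharZero R] {ζ : kˣ}

/-- the inductive step -/
theorem step (hζ : IsPrimitiveRoot (ζ : k) m) {ω : R} (hω : IsPrimitiveRoot ω m)
    {ψ : AddChar (J → ZMod m) R} {a : J → ZMod m} (ha : ∀ t, ψ t = ω ^ (∑ j, a j * t j).val)
    {S : Finset J} (hS : ∀ j, j ∈ S ↔ a j ≠ 0) {β : Type} [DecidableEq β] {b : J → β}
    (hsum : ∀ B, ∑ j ∈ S with b j = B, a j = 0) {j₀ j₁ : J} (hj₀ : j₀ ∈ S) (hj₁ : j₁ ∈ S)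
    (hne : j₁ ≠ j₀) (hbb : b j₁ = b j₀) {r l : ℕ} {c : Fin r → J → k}
    (hcard : l + r + S.card < Fintype.card J + (S.image b).card) {K : Type u} [Field K]
    [Algebra k K] {x : J → K} (hl : Algebra.trdeg k K = (l : ℕ)) (hdeg : degree k x ≠ 0)
    (hX : diag m c ≤ ideal k x) (hx1 : x j₁ = 1) (hxS : ∀ j ∈ S, x j ≠ 0)
    (ih : ∀ (K' : Type u) [Field K'] [Algebra k K'] (y : J → K'), y ≠ 0 →
      Algebra.trdeg k K' = (l : ℕ) → degree k y ≠ 0 → diag m c ≤ ideal k y →
      (∀ j ∈ S, y j ≠ 0) →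
      Algebra.trdeg k (blk k S b j₀ m y) < Algebra.trdeg k (blk k S b j₀ m x) →
      op ζ ψ (Finsupp.single (ideal k y) 1) ∈ ratEquiv R (diag m c) l) :
    op ζ ψ (Finsupp.single (ideal k x) 1) ∈ ratEquiv R (diag m c) l := by
  classical
  have hm : 0 < m := NeZero.pos m
  have hζ1 : ζ ^ m = 1 := zeta_pow hζ
  have hK : (⊤ : IntermediateField k K).FG := fg_of_degree hdeg
  have hXx := diag_le_ideal_iff.1 hX
  obtain ⟨w, hw1, hw2, hw3, hw4, hw5⟩ := exists_dir hl c b hj₀ hj₁ hne hbb hcard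
    (y := fun j => x j ^ m) (fun j hj => pow_ne_zero _ (hxS j hj)) (M := blk k S b j₀ m x)
    (fun i hi j hj hi0 hj0 hij =>
      IntermediateField.subset_adjoin k _ ⟨i, hi, j, hj, hi0, hj0, hij, rfl⟩)
  obtain ⟨F, _, _, _, _, x', τ, f, hF, hlF, hf0, hpow, hx'2, hx'3, hf, htr, hfin⟩ :=
    exists_cover hK hl (m := m) b (j₀ := j₀) hxS hw2 hw3
  have hx'1 : x' j₁ = 1 := by
    rw [hx'2 j₁ hj₁ hbb hne, hx1, map_one]
  have hx'0 : x' ≠ 0 := by
    intro h
    rw [h] at hx'1
    exact zero_ne_one hx'1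
  have hX' : diag m c ≤ ideal k x' := by
    rw [diag_le_ideal_iff]
    intro i
    have h1 : ∀ j, algebraMap k F (c i j) * x' j ^ m =
        algebraMap K F (algebraMap k K (c i j) * x j ^ m) +
          τ * algebraMap K F (algebraMap k K (c i j) * w j) := by
      intro j
      rw [hpow, map_mul, map_mul, ← IsScalarTower.algebraMap_apply, map_pow]
      ring
    rw [Finset.sum_congr rfl fun j _ => h1 j, Finset.sum_add_distrib, ← Finset.mul_sum,
      ← map_sum, ← map_sum, hXx i, hw1 i]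
    simp
  obtain ⟨hfinite, hdisc⟩ := support hF hlF hm hdeg hx'1 hxS hpow hx'3 hf hw4 hf0 htr hfin
  set Z := op ζ ψ (Finsupp.single (ideal k x) 1) with hZ
  -- residue degrees
  have hres : ∀ v : Place k F, Algebra.trdeg k v.Res + 1 = Algebra.trdeg k F →
      Algebra.trdeg k v.Res = (l : ℕ) := by
    intro v hv
    rw [hlF] at hv
    push_cast at hv
    exact Cardinal.add_one_inj.1 hv
  -- places over the base point
  have hI : ∀ v : Place k F, (∀ a : K, algebraMap K F a ∈ v.ring) → v.Vanishes f →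
      op ζ ψ (Finsupp.single (ideal k (v.center x')) 1) = Z ∧ degree k (v.center x') ≠ 0 := by
    intro v hv hfv
    obtain ⟨h1, h2⟩ := typeI hm hpow hf v hv hfv
    obtain ⟨e, he, h3⟩ := center_apply v h1 hx'1
    have h4 : v.center x' = fun j => e * v.res (x' j) := funext h3
    have hinj : Function.Injective (resHom v hv) := (resHom v hv).injective
    have h5 : ideal k (fun j => v.res (algebraMap K F (x j))) = ideal k x :=
      ideal_map (resHom v hv) x
    constructor
    · rw [h4, ideal_smul he, hZ, ← h5]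
      apply twist hζ hω ha hS hsum
      · intro j hj h6
        apply hxS j hj
        apply hinj
        rw [map_zero]
        exact h6
      · exact h2
      · intro i hi j hj hij
        have h7 : ∀ j ∈ S, b j = b j₀ → v.res (x' j) = v.res (algebraMap K F (x j)) := by
          intro j hj hjb
          by_cases hjj : j = j₀
          · rw [hjj]
            rcases hf with ⟨_, _, h8⟩ | ⟨_, h8⟩
            · rw [h8]
            · have h9 : v.res (x' j₀ - algebraMap K F (x j₀)) = 0 := by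
                rw [← h8]
                exact (res_eq_zero_iff v (Place.Vanishes.mem v hfv)).2 hfv
              rw [res_sub v (h1 _) (hv _)] at h9
              exact sub_eq_zero.1 h9
          · rw [hx'2 j hj hjb hjj]
        by_cases hib : b i = b j₀
        · rw [h7 i hi hib, h7 j hj (hij.symm.trans hib)]
          ring
        · have hi0 : i ≠ j₀ := fun h => hib (by rw [h])
          have hj0 : j ≠ j₀ := fun h => hib (by rw [hij, h])
          have h8 := congrArg v.res (hx'3 i hi j hj hi0 hj0 hij)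
          rwa [res_mul v (h1 i) (hv _), res_mul v (h1 j) (hv _)] at h8
    · rw [h4, degree_smul he]
      choose g hg using fun j => exists_zmod hζ (h2 j)
      have h6 : (fun j => v.res (x' j)) = fun j =>
          algebraMap k v.Res ((ζ : k) ^ (g j).val) * v.res (algebraMap K F (x j)) := funext hg
      rw [h6, degree_const (a := fun j => (ζ : k) ^ (g j).val)
        (fun j => pow_ne_zero _ ζ.ne_zero)]
      exact (trdeg_degree hfin v hv hfv).2 x hdeg
  -- all other places
  have hII : ∀ v : Place k F, Algebra.trdeg k v.Res + 1 = Algebra.trdeg k F →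
      degree k (v.center x') ≠ 0 → (v.Vanishes f ∨ f ∉ v.ring) →
      ¬ ((∀ a : K, algebraMap K F a ∈ v.ring) ∧ v.Vanishes f) →
      op ζ ψ (Finsupp.single (ideal k (v.center x')) 1) ∈ ratEquiv R (diag m c) l := by
    intro v hv1 hv2 hv3 hv4
    rcases classify hm hl hj₁ hx'1 hpow hf hw4 v (fun h => hw5 F v τ h) (hres v hv1) hv2 hv3 with
      ⟨j, hj, h1⟩ | ⟨h1, h2⟩ | ⟨_, h1, h2, _⟩
    · rw [killed hζ1 hω ha ((hS j).1 hj) h1]
      exact Submodule.zero_mem _
    · by_cases h3 : ∃ j ∈ S, v.center x' j = 0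
      · obtain ⟨j, hj, h3⟩ := h3
        rw [killed hζ1 hω ha ((hS j).1 hj) h3]
        exact Submodule.zero_mem _
      · push Not at h3
        exact ih v.Res (v.center x') (center_ne_zero v hx'0) (hres v hv1) hv2
          (hX'.trans (ideal_le_center v)) h3 (blk_lt hm hl hx'1 hxS hx'3 v h1 h2 h3)
    · exact absurd ⟨h1, h2⟩ hv4
  -- the divisor
  have hz : divisor k R x' f ∈ ratEquiv R (diag m c) l :=
    Submodule.subset_span ⟨F, inferInstance, inferInstance, hF, hlF, x', hx'0, hX', f, hf0, rfl⟩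
  have hz2 := op_mem hζ1 ψ hz
  set coef : Place k F → ℤ := fun v =>
    ((v.ord f : ℤ) - v.ord f⁻¹) * degree k (v.center x') with hcoef
  have hcoef0 : ∀ v : Place k F, coef v ≠ 0 →
      degree k (v.center x') ≠ 0 ∧ (v.Vanishes f ∨ f ∉ v.ring) := by
    intro v hv
    rw [hcoef] at hv
    simp only at hv
    refine ⟨fun h => hv (by rw [h]; simp), ?_⟩
    by_contra hcon
    push Not at hcon
    apply hv
    have h1 : v.ord f = 0 := ord_eq_zero v hcon.1
    have h2 : v.ord f⁻¹ = 0 := by
      apply ord_eq_zero v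
      intro h
      rw [v.vanishes_iff_or, inv_inv] at h
      rcases h with h | h
      · exact inv_ne_zero hf0 h
      · exact h hcon.2
    rw [h1, h2]
    simp
  have hTfin : {v : {v : Place k F // Algebra.trdeg k v.Res + 1 = Algebra.trdeg k F} |
      degree k (v.1.center x') ≠ 0 ∧ (v.1.Vanishes f ∨ f ∉ v.1.ring)}.Finite := by
    apply Set.Finite.subset (hfinite.preimage (Subtype.val_injective.injOn))
    rintro v ⟨h1, h2⟩
    exact ⟨v.2, h1, h2⟩
  set T := hTfin.toFinset with hT
  have hdiv : divisor k R x' f = ∑ v ∈ T, Finsupp.single (ideal k (v.1.center x')) ((coef v.1 : ℤ) : R) := by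
    rw [divisor]
    apply finsum_eq_sum_of_support_subset
    intro v hv
    rw [hT, Set.Finite.coe_toFinset]
    apply hcoef0
    intro h
    apply hv
    change Finsupp.single (ideal k (v.1.center x')) ((coef v.1 : ℤ) : R) = 0
    rw [h, Int.cast_zero, Finsupp.single_zero]
  have hop : op ζ ψ (divisor k R x' f) = ∑ v ∈ T, ((coef v.1 : ℤ) : R) •
      op ζ ψ (Finsupp.single (ideal k (v.1.center x')) 1) := by
    rw [hdiv, map_sum]
    apply Finset.sum_congr rfl
    intro v _
    rw [← map_smul, Finsupp.smul_single, smul_eq_mul, mul_one]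
  rw [hop] at hz2
  set T₁ := T.filter fun v => (∀ a : K, algebraMap K F a ∈ v.1.ring) ∧ v.1.Vanishes f with hT₁
  rw [← Finset.sum_filter_add_sum_filter_not T
    (fun v => (∀ a : K, algebraMap K F a ∈ v.1.ring) ∧ v.1.Vanishes f)] at hz2
  have hz3 : ∑ v ∈ T₁, ((coef v.1 : ℤ) : R) •
      op ζ ψ (Finsupp.single (ideal k (v.1.center x')) 1) ∈ ratEquiv R (diag m c) l := by
    refine (Submodule.add_mem_iff_left _ ?_).1 hz2
    apply Submodule.sum_mem
    intro v hv
    rw [Finset.mem_filter, hT, Set.Finite.mem_toFinset] at hv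
    exact Submodule.smul_mem _ _ (hII v.1 v.2 hv.1.1 hv.1.2 hv.2)
  have hz4 : ∑ v ∈ T₁, ((coef v.1 : ℤ) : R) •
      op ζ ψ (Finsupp.single (ideal k (v.1.center x')) 1) =
      ((∑ v ∈ T₁, coef v.1 : ℤ) : R) • Z := by
    rw [Int.cast_sum, Finset.sum_smul]
    apply Finset.sum_congr rfl
    intro v hv
    rw [hT₁, Finset.mem_filter] at hv
    rw [(hI v.1 hv.2.1 hv.2.2).1]
  rw [hz4] at hz3
  refine (Submodule.smul_mem_iff _ ?_).1 hz3
  have hpos : ∀ v ∈ T₁, 0 < coef v.1 := by
    intro v hv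
    rw [hT₁, Finset.mem_filter] at hv
    obtain ⟨_, hv1, hv2⟩ := hv
    have h1 := (hI v.1 hv1 hv2).2
    have h2 : IsDiscreteValuationRing v.1.ring := hdisc v.1 v.2 h1 hv2
    have h3 : 0 < v.1.ord f := ord_pos v.1 hv2 hf0
    have h4 : v.1.ord f⁻¹ = 0 := by
      apply ord_eq_zero v.1
      intro h
      rw [v.1.vanishes_iff_or, inv_inv] at h
      rcases h with h | h
      · exact inv_ne_zero hf0 h
      · exact h (Place.Vanishes.mem v.1 hv2)
    rw [hcoef]
    simp only
    rw [h4]
    have h5 : 0 < degree k (v.1.center x') := Nat.pos_of_ne_zero h1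
    push_cast
    rw [sub_zero]
    exact mul_pos (by exact_mod_cast h3) (by exact_mod_cast h5)
  have hnonempty : T₁.Nonempty := by
    obtain ⟨v₀, hv₀⟩ := exists_place htr
    set v : Place k F := ⟨v₀.ring, fun c => by
      rw [IsScalarTower.algebraMap_apply k K F]
      exact v₀.const_mem _, v₀.ne_top⟩ with hv
    have hv1 : ∀ a : K, algebraMap K F a ∈ v.ring := v₀.const_mem
    have hv2 : v.Vanishes f := hv₀
    have hv3 : Algebra.trdeg k v.Res + 1 = Algebra.trdeg k F := by
      rw [(trdeg_degree (J := J) hfin v hv1 hv2).1, hl, hlF]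
      push_cast
      rfl
    refine ⟨⟨v, hv3⟩, ?_⟩
    rw [hT₁, Finset.mem_filter, hT, Set.Finite.mem_toFinset]
    exact ⟨⟨(hI v hv1 hv2).2, Or.inl hv2⟩, hv1, hv2⟩
  have hsumpos : 0 < ∑ v ∈ T₁, coef v.1 := Finset.sum_pos hpos hnonempty
  exact_mod_cast hsumpos.ne'

end Step

end Pool.Agent.LCyc
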