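import Pool.Agent.LCyc.Defs

/-!
# The linear equations behind the diagonal equations
-/

set_option autoImplicit false

namespace Pool.Agent.LCyc

/-- the solutions of the linear equations with coefficients `c i j` -/
def sol {k : Type*} [Field k] {J : Type} [Fintype J] {r : ℕ} (c : Fin r → J → k) :
    Submodule k (J → k) where
  carrier := {w | ∀ i, ∑ j, c i j * w j = 0}
  add_mem' := by
    intro a b ha hb i
    have h1 := ha i
    have h2 := hb i
    simp only [Pi.add_apply, mul_add, Finset.sum_add_distrib, h1, h2, add_zero]
  zero_mem' := by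
    intro i
    simp
  smul_mem' := by
    intro t a ha i
    have h1 := ha i
    simp only [Pi.smul_apply, smul_eq_mul]
    have h2 : ∀ j, c i j * (t * a j) = t * (c i j * a j) := fun j => by ring
    rw [Finset.sum_congr rfl fun j _ => h2 j, ← Finset.mul_sum, h1, mul_zero]

lemma mem_sol {k : Type*} [Field k] {J : Type} [Fintype J] {r : ℕ} {c : Fin r → J → k}
    {w : J → k} : w ∈ sol c ↔ ∀ i, ∑ j, c i j * w j = 0 := Iff.rfl

end Pool.Agent.LCyc
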