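import Pool.Agent.LCyc.Core4
import Pool.Agent.LCyc.Sol

/-!
# The inductive step for the trivial character
-/

set_option autoImplicit false

namespace Pool.Agent.LCyc

open Pool.Agent.ZCyc Finset

universe u w

variable {k : Type u} [Field k] {J : Type}

section Conclude

variable [IsAlgClosed k] [CharZero k] [Fintype J] [DecidableEq J] {m : ℕ} [NeZero m]
  {R : Type w} [Field R] [CharZero R] {ζ : kˣ}

/-- the conclusion from the divisor of the function `f` -/
theorem conclude (hζ1 : ζ ^ m = 1) (ψ : AddChar (J → ZMod m) R) {r l : ℕ} {c : Fin r → J → k}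
    {K : Type u} [Field K] [Algebra k K] {F : Type u} [Field F] [Algebra k F] [Algebra K F]
    [IsScalarTower k K F] (hl : Algebra.trdeg k K = (l : ℕ)) {x' : J → F} {f : F}
    (hF : (⊤ : IntermediateField k F).FG) (hlF : Algebra.trdeg k F = (l + 1 : ℕ))
    (hx'0 : x' ≠ 0) (hX' : diag m c ≤ ideal k x') (hf0 : f ≠ 0) (htr : Transcendental K f)
    (hfin : FiniteDimensional (IntermediateField.adjoin K {f}) F)
    (hfinite : {v : Place k F | Algebra.trdeg k v.Res + 1 = Algebra.trdeg k F ∧
      degree k (v.center x') ≠ 0 ∧ (v.Vanishes f ∨ f ∉ v.ring)}.Finite)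
    (hdisc : ∀ v : Place k F, Algebra.trdeg k v.Res + 1 = Algebra.trdeg k F →
      degree k (v.center x') ≠ 0 → v.Vanishes f → IsDiscreteValuationRing v.ring)
    {Z : Ideal (MvPolynomial J k) →₀ R}
    (hI : ∀ v : Place k F, (∀ a : K, algebraMap K F a ∈ v.ring) → v.Vanishes f →
      op ζ ψ (Finsupp.single (ideal k (v.center x')) 1) = Z ∧ degree k (v.center x') ≠ 0)
    {N : Submodule R (Ideal (MvPolynomial J k) →₀ R)} (hN : ratEquiv R (diag m c) l ≤ N)
    (hII : ∀ v : Place k F, Algebra.trdeg k v.Res = (l : ℕ) →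
      degree k (v.center x') ≠ 0 → (v.Vanishes f ∨ f ∉ v.ring) →
      ¬ ((∀ a : K, algebraMap K F a ∈ v.ring) ∧ v.Vanishes f) →
      op ζ ψ (Finsupp.single (ideal k (v.center x')) 1) ∈ N) : Z ∈ N := by
  classical
  have hres : ∀ v : Place k F, Algebra.trdeg k v.Res + 1 = Algebra.trdeg k F →
      Algebra.trdeg k v.Res = (l : ℕ) := by
    intro v hv
    rw [hlF] at hv
    push_cast at hv
    exact Cardinal.add_one_inj.1 hv
  have hz : divisor k R x' f ∈ ratEquiv R (diag m c) l :=
    Submodule.subset_span ⟨F, inferInstance, inferInstance, hF, hlF, x', hx'0, hX', f, hf0, rfl⟩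
  have hz2 := hN (op_mem hζ1 ψ hz)
  set coef : Place k F → ℤ := fun v =>
    ((v.ord f : ℤ) - v.ord f⁻¹) * degree k (v.center x') with hcoef
  have hcoef0 : ∀ v : Place k F, coef v ≠ 0 →
      degree k (v.center x') ≠ 0 ∧ (v.Vanishes f ∨ f ∉ v.ring) := by
    intro v hv
    rw [hcoef] at hv
    simp only at hv
    refine ⟨fun h => hv (by rw [h]; simp), ?_⟩
    by_contra hcon
    push Not at hcon
    apply hv
    have h1 : v.ord f = 0 := ord_eq_zero v hcon.1
    have h2 : v.ord f⁻¹ = 0 := by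
      apply ord_eq_zero v
      intro h
      rw [v.vanishes_iff_or, inv_inv] at h
      rcases h with h | h
      · exact inv_ne_zero hf0 h
      · exact h hcon.2
    rw [h1, h2]
    simp
  have hTfin : {v : {v : Place k F // Algebra.trdeg k v.Res + 1 = Algebra.trdeg k F} |
      degree k (v.1.center x') ≠ 0 ∧ (v.1.Vanishes f ∨ f ∉ v.1.ring)}.Finite := by
    apply Set.Finite.subset (hfinite.preimage (Subtype.val_injective.injOn))
    rintro v ⟨h1, h2⟩
    exact ⟨v.2, h1, h2⟩
  set T := hTfin.toFinset with hT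
  have hdiv : divisor k R x' f =
      ∑ v ∈ T, Finsupp.single (ideal k (v.1.center x')) ((coef v.1 : ℤ) : R) := by
    rw [divisor]
    apply finsum_eq_sum_of_support_subset
    intro v hv
    rw [hT, Set.Finite.coe_toFinset]
    apply hcoef0
    intro h
    apply hv
    change Finsupp.single (ideal k (v.1.center x')) ((coef v.1 : ℤ) : R) = 0
    rw [h, Int.cast_zero, Finsupp.single_zero]
  have hop : op ζ ψ (divisor k R x' f) = ∑ v ∈ T, ((coef v.1 : ℤ) : R) •
      op ζ ψ (Finsupp.single (ideal k (v.1.center x')) 1) := by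
    rw [hdiv, map_sum]
    apply Finset.sum_congr rfl
    intro v _
    rw [← map_smul, Finsupp.smul_single, smul_eq_mul, mul_one]
  rw [hop] at hz2
  set T₁ := T.filter fun v => (∀ a : K, algebraMap K F a ∈ v.1.ring) ∧ v.1.Vanishes f with hT₁
  rw [← Finset.sum_filter_add_sum_filter_not T
    (fun v => (∀ a : K, algebraMap K F a ∈ v.1.ring) ∧ v.1.Vanishes f)] at hz2
  have hz3 : ∑ v ∈ T₁, ((coef v.1 : ℤ) : R) •
      op ζ ψ (Finsupp.single (ideal k (v.1.center x')) 1) ∈ N := by
    refine (Submodule.add_mem_iff_left _ ?_).1 hz2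
    apply Submodule.sum_mem
    intro v hv
    rw [Finset.mem_filter, hT, Set.Finite.mem_toFinset] at hv
    exact Submodule.smul_mem _ _ (hII v.1 (hres v.1 v.2) hv.1.1 hv.1.2 hv.2)
  have hz4 : ∑ v ∈ T₁, ((coef v.1 : ℤ) : R) •
      op ζ ψ (Finsupp.single (ideal k (v.1.center x')) 1) =
      ((∑ v ∈ T₁, coef v.1 : ℤ) : R) • Z := by
    rw [Int.cast_sum, Finset.sum_smul]
    apply Finset.sum_congr rfl
    intro v hv
    rw [hT₁, Finset.mem_filter] at hv
    rw [(hI v.1 hv.2.1 hv.2.2).1]
  rw [hz4] at hz3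
  refine (Submodule.smul_mem_iff _ ?_).1 hz3
  have hpos : ∀ v ∈ T₁, 0 < coef v.1 := by
    intro v hv
    rw [hT₁, Finset.mem_filter] at hv
    obtain ⟨_, hv1, hv2⟩ := hv
    have h1 := (hI v.1 hv1 hv2).2
    have h2 : IsDiscreteValuationRing v.1.ring := hdisc v.1 v.2 h1 hv2
    have h3 : 0 < v.1.ord f := ord_pos v.1 hv2 hf0
    have h4 : v.1.ord f⁻¹ = 0 := by
      apply ord_eq_zero v.1
      intro h
      rw [v.1.vanishes_iff_or, inv_inv] at h
      rcases h with h | h
      · exact inv_ne_zero hf0 h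
      · exact h (Place.Vanishes.mem v.1 hv2)
    rw [hcoef]
    simp only
    rw [h4]
    have h5 : 0 < degree k (v.1.center x') := Nat.pos_of_ne_zero h1
    push_cast
    rw [sub_zero]
    exact mul_pos (by exact_mod_cast h3) (by exact_mod_cast h5)
  have hnonempty : T₁.Nonempty := by
    obtain ⟨v₀, hv₀⟩ := exists_place htr
    set v : Place k F := ⟨v₀.ring, fun c => by
      rw [IsScalarTower.algebraMap_apply k K F]
      exact v₀.const_mem _, v₀.ne_top⟩ with hv
    have hv1 : ∀ a : K, algebraMap K F a ∈ v.ring := v₀.const_mem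
    have hv2 : v.Vanishes f := hv₀
    have hv3 : Algebra.trdeg k v.Res + 1 = Algebra.trdeg k F := by
      rw [(trdeg_degree (J := J) hfin v hv1 hv2).1, hl, hlF]
      push_cast
      rfl
    refine ⟨⟨v, hv3⟩, ?_⟩
    rw [hT₁, Finset.mem_filter, hT, Set.Finite.mem_toFinset]
    exact ⟨⟨(hI v hv1 hv2).2, Or.inl hv2⟩, hv1, hv2⟩
  have hsumpos : 0 < ∑ v ∈ T₁, coef v.1 := Finset.sum_pos hpos hnonempty
  exact_mod_cast hsumpos.ne'

/-- a direction for the translation -/
theorem exists_dir0 {K : Type u} [Field K] [Algebra k K] {l : ℕ}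
    (hK : Algebra.trdeg k K = (l : ℕ)) {W : Submodule k (J → k)}
    (hW : l + 1 ≤ Module.finrank k W) (y : J → K) :
    ∃ w ∈ W, ∀ (F : Type u) [Field F] [Algebra k F] [Algebra K F] [IsScalarTower k K F]
      (v : Place k F) (τ : F), τ ∉ v.ring →
      ∃ j, algebraMap K F (y j) + τ * algebraMap K F (algebraMap k K (w j)) ∉ v.ring := by
  obtain ⟨U, hU, h1⟩ := exists_proj hW
  obtain ⟨c, hc⟩ := exists_const hK U hU y
  obtain ⟨w, hw, h2⟩ := h1 c
  refine ⟨w, hw, fun F _ _ _ _ v τ hτ => ?_⟩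
  obtain ⟨i, hi, h3⟩ := hc F v τ hτ
  refine ⟨i, ?_⟩
  rw [h2 i hi, ← IsScalarTower.algebraMap_apply]
  exact h3

/-- The inductive step for the trivial character: a cycle is moved into a coordinate hyperplane. -/
theorem step0 (hζ : IsPrimitiveRoot (ζ : k) m) {r l : ℕ} {c : Fin r → J → k} {j₁ : J}
    {W : Submodule k (J → k)} (hWc : W ≤ sol c) (hWj : ∀ w ∈ W, w j₁ = 0)
    (hW : l + 1 ≤ Module.finrank k W) {K : Type u} [Field K]
    [Algebra k K] {x : J → K} (hl : Algebra.trdeg k K = (l : ℕ)) (hdeg : degree k x ≠ 0)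
    (hX : diag m c ≤ ideal k x) (hx1 : x j₁ = 1)
    {N : Submodule R (Ideal (MvPolynomial J k) →₀ R)} (hN : ratEquiv R (diag m c) l ≤ N)
    (ih : ∀ (K' : Type u) [Field K'] [Algebra k K'] (y : J → K'), y ≠ 0 →
      Algebra.trdeg k K' = (l : ℕ) → degree k y ≠ 0 → diag m c ≤ ideal k y → y j₁ = 0 →
      op ζ (1 : AddChar (J → ZMod m) R) (Finsupp.single (ideal k y) 1) ∈ N) :
    op ζ (1 : AddChar (J → ZMod m) R) (Finsupp.single (ideal k x) 1) ∈ N := by
  classical
  have hm : 0 < m := NeZero.pos m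
  have hζ1 : ζ ^ m = 1 := zeta_pow hζ
  have hK : (⊤ : IntermediateField k K).FG := fg_of_degree hdeg
  have hXx := diag_le_ideal_iff.1 hX
  obtain ⟨w, hwW, hw5⟩ := exists_dir0 hl hW (fun j => x j ^ m)
  have hw1 : ∀ i, ∑ j, algebraMap k K (c i j) * algebraMap k K (w j) = 0 := by
    intro i
    have h1 := mem_sol.1 (hWc hwW) i
    have h2 := congrArg (algebraMap k K) h1
    rw [map_sum, map_zero] at h2
    rw [← h2]
    exact Finset.sum_congr rfl fun j _ => (map_mul _ _ _).symm
  have hwj : algebraMap k K (w j₁) = 0 := by rw [hWj w hwW, map_zero]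
  obtain ⟨F, _, _, _, _, x', τ, f, hF, hlF, hf0, hpow, -, -, hf, htr, hfin⟩ :=
    exists_cover hK hl (m := m) (S := (∅ : Finset J)) (fun _ : J => ()) (j₀ := j₁) (x := x)
      (w := fun j => algebraMap k K (w j)) (by simp) (by simp) (by simp)
  have hf' : f = τ ∧ x' j₁ = algebraMap K F (x j₁) := by
    rcases hf with ⟨_, h1, h2⟩ | ⟨h1, _⟩
    · exact ⟨h1, h2⟩
    · exact absurd hwj h1
  have hx'1 : x' j₁ = 1 := by
    rw [hf'.2, hx1, map_one]
  have hx'0 : x' ≠ 0 := by
    intro h
    rw [h] at hx'1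
    exact zero_ne_one hx'1
  have hX' : diag m c ≤ ideal k x' := by
    rw [diag_le_ideal_iff]
    intro i
    have h1 : ∀ j, algebraMap k F (c i j) * x' j ^ m =
        algebraMap K F (algebraMap k K (c i j) * x j ^ m) +
          τ * algebraMap K F (algebraMap k K (c i j) * algebraMap k K (w j)) := by
      intro j
      rw [hpow, map_mul, map_mul, IsScalarTower.algebraMap_apply k K F (c i j), map_pow]
      ring
    rw [Finset.sum_congr rfl fun j _ => h1 j, Finset.sum_add_distrib, ← Finset.mul_sum,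
      ← map_sum, ← map_sum, hXx i, hw1 i]
    simp
  obtain ⟨hfinite, hdisc⟩ := support (S := (∅ : Finset J)) (b := fun _ : J => ()) hF hlF hm hdeg
    hx'1 (by simp) hpow (by simp) hf (fun j => IntermediateField.algebraMap_mem _ _) hf0 htr hfin
  refine conclude hζ1 1 hl hF hlF hx'0 hX' hf0 htr hfin hfinite hdisc ?_ hN ?_
  · -- places over the base point
    intro v hv hfv
    obtain ⟨h1, h2⟩ := typeI hm hpow hf v hv hfv
    obtain ⟨e, he, h3⟩ := center_apply v h1 hx'1
    have h4 : v.center x' = fun j => e * v.res (x' j) := funext h3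
    have h5 : ideal k (fun j => v.res (algebraMap K F (x j))) = ideal k x :=
      ideal_map (resHom v hv) x
    choose g hg using fun j => exists_zmod hζ (h2 j)
    have h6 : (fun j => v.res (x' j)) = fun j =>
        algebraMap k v.Res ((ζ : k) ^ (g j).val) * v.res (algebraMap K F (x j)) := funext hg
    constructor
    · rw [h4, ideal_smul he, h6, ← act_ideal, h5]
      have h7 := op_act hζ1 (1 : AddChar (J → ZMod m) R) g (ideal k x)
      rwa [AddChar.one_apply, one_smul] at h7
    · rw [h4, degree_smul he, h6, degree_const (a := fun j => (ζ : k) ^ (g j).val)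
        (fun j => pow_ne_zero _ ζ.ne_zero)]
      exact (trdeg_degree hfin v hv hfv).2 x hdeg
  · -- all other places
    intro v hv1 hv2 hv3 hv4
    rcases classify (M := ⊥) (S := {j₁}) (j₁ := j₁) hm hl (by simp) hx'1 hpow hf
      (fun j => IntermediateField.algebraMap_mem _ _) v (fun h => hw5 F v τ h) hv1 hv2 hv3 with
      ⟨j, hj, h1⟩ | ⟨h1, h2⟩ | ⟨_, h1, h2, _⟩
    · rw [Finset.mem_singleton] at hj
      subst hj
      exact ih v.Res (v.center x') (center_ne_zero v hx'0) hv1 hv2
        (hX'.trans (ideal_le_center v)) h1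
    · exfalso
      apply h2
      intro a ha
      obtain ⟨b, rfl⟩ := IntermediateField.mem_bot.1 ha
      rw [← IsScalarTower.algebraMap_apply]
      exact v.const_mem b
    · exact absurd ⟨h1, h2⟩ hv4

end Conclude

end Pool.Agent.LCyc
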