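import Pool.Agent.LCyc.Core3

/-!
# A covering for characters which are trivial on sufficiently many coordinates
-/

set_option autoImplicit false

open Polynomial

universe u

namespace Pool.Agent.LCyc

open Pool.Agent.ZCyc

variable {k : Type u} [Field k] {J : Type}

private lemma cover_fg {k K L : Type*} [Field k] [Field K] [Field L] [Algebra k K] [Algebra K L]
    [Algebra k L] [IsScalarTower k K L] (h1 : (⊤ : IntermediateField k K).FG)
    (h2 : (⊤ : IntermediateField K L).FG) : (⊤ : IntermediateField k L).FG := by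
  rw [IntermediateField.fg_top_iff] at *
  exact Algebra.EssFiniteType.comp k K L

/-- The extension of the field of rational functions over `K` by roots of given elements. -/
private theorem cover_aux {k : Type u} [Field k] {K : Type u} [Field K] [Algebra k K]
    (hK : (⊤ : IntermediateField k K).FG) {l : ℕ} (hl : Algebra.trdeg k K = (l : ℕ))
    {J : Type} [Finite J] (x : J → AlgebraicClosure (RatFunc K)) (c : K) :
    ∃ (F : Type u) (_ : Field F) (_ : Algebra k F) (_ : Algebra K F) (_ : Algebra (RatFunc K) F)
      (_ : IsScalarTower k K F) (_ : IsScalarTower K (RatFunc K) F)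
      (i : F →ₐ[RatFunc K] AlgebraicClosure (RatFunc K)) (x' : J → F),
      (⊤ : IntermediateField k F).FG ∧
      Algebra.trdeg k F = (l + 1 : ℕ) ∧ (∀ j, i (x' j) = x j) ∧
      Transcendental K (algebraMap (RatFunc K) F (RatFunc.X - algebraMap K (RatFunc K) c)) ∧
      FiniteDimensional (IntermediateField.adjoin K
        {algebraMap (RatFunc K) F (RatFunc.X - algebraMap K (RatFunc K) c)}) F := by
  classical
  let Ω := AlgebraicClosure (RatFunc K)
  let F : IntermediateField (RatFunc K) Ω := IntermediateField.adjoin (RatFunc K) (Set.range x)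
  have hfd : FiniteDimensional (RatFunc K) F := by
    have : Finite (Set.range x) := (Set.finite_range x).to_subtype
    exact IntermediateField.finiteDimensional_adjoin fun z _ =>
      Algebra.IsIntegral.isIntegral z
  have hxF : ∀ j, x j ∈ F := fun j => IntermediateField.subset_adjoin (RatFunc K) _ ⟨j, rfl⟩
  have t1 : IsScalarTower k K F := IsScalarTower.of_algebraMap_eq fun a => by
    rw [IsScalarTower.algebraMap_apply K (RatFunc K) F, IsScalarTower.algebraMap_apply k (RatFunc K) F,
      IsScalarTower.algebraMap_apply k K (RatFunc K)]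
  refine ⟨F, inferInstance, inferInstance, inferInstance, inferInstance, t1,
    inferInstance, F.val, fun j => ⟨x j, hxF j⟩, ?_, ?_, fun j => rfl, ?_, ?_⟩
  · refine cover_fg hK (cover_fg (K := RatFunc K) ?_ ?_)
    · exact ⟨{RatFunc.X}, by rw [Finset.coe_singleton]; exact RatFunc.adjoin_X⟩
    · rw [IntermediateField.fg_top_iff]
      infer_instance
  · have e1 : Algebra.trdeg K (RatFunc K) = 1 := by
      rw [← trdeg_add_eq K K[X] (A := RatFunc K), Polynomial.trdeg_of_isDomain,
        trdeg_eq_zero_iff.2 (IsLocalization.isAlgebraic _ (nonZeroDivisors K[X])), add_zero]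
    have e2 : Algebra.trdeg K F = 1 := by
      rw [← trdeg_add_eq K (RatFunc K) (A := F), e1,
        trdeg_eq_zero_iff.2 inferInstance, add_zero]
    rw [← trdeg_add_eq k K (A := F), hl, e2]
    push_cast
    rfl
  · rw [transcendental_algebraMap_iff (algebraMap (RatFunc K) F).injective]
    intro h
    apply RatFunc.transcendental_X (K := K)
    have := h.add (isAlgebraic_algebraMap c)
    rwa [sub_add_cancel] at this
  · set f : F := algebraMap (RatFunc K) F (RatFunc.X - algebraMap K (RatFunc K) c) with hf
    have hmem : ∀ r : RatFunc K, algebraMap (RatFunc K) F r ∈ IntermediateField.adjoin K {f} := by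
      intro r
      have h1 : r ∈ (⊤ : IntermediateField K (RatFunc K)) := IntermediateField.mem_top
      rw [← RatFunc.adjoin_X] at h1
      have h2 : algebraMap (RatFunc K) F r ∈
          (IntermediateField.adjoin K {(RatFunc.X : RatFunc K)}).map
            (IsScalarTower.toAlgHom K (RatFunc K) F) := ⟨r, h1, rfl⟩
      rw [IntermediateField.adjoin_map, Set.image_singleton] at h2
      refine (IntermediateField.adjoin_le_iff.2 ?_ : _ ≤ IntermediateField.adjoin K {f}) h2
      rw [Set.singleton_subset_iff]
      have h3 : (IsScalarTower.toAlgHom K (RatFunc K) F) RatFunc.X = f + algebraMap K F c := by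
        rw [hf, map_sub, ← IsScalarTower.algebraMap_apply, sub_add_cancel]
        rfl
      rw [h3]
      exact add_mem (IntermediateField.subset_adjoin K _ rfl) (IntermediateField.algebraMap_mem _ c)
    let φ : RatFunc K →+* IntermediateField.adjoin K {f} :=
      (algebraMap (RatFunc K) F).codRestrict _ hmem
    let _ : Algebra (RatFunc K) (IntermediateField.adjoin K {f}) := φ.toAlgebra
    have : IsScalarTower (RatFunc K) (IntermediateField.adjoin K {f}) F :=
      IsScalarTower.of_algebraMap_eq fun _ => rfl
    exact Module.Finite.of_restrictScalars_finite (RatFunc K) _ F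

/-- A field with the moving point: the coordinates outside `T` move on a line. -/
theorem exists_cover2 [Fintype J] [DecidableEq J] {K : Type u} [Field K] [Algebra k K]
    (hK : (⊤ : IntermediateField k K).FG) {l : ℕ} (hl : Algebra.trdeg k K = (l : ℕ)) {m : ℕ}
    (hm : 0 < m) (T : Finset J) (x w : J → K) (e : J → J → k) :
    ∃ (F : Type u) (_ : Field F) (_ : Algebra k F) (_ : Algebra K F) (_ : IsScalarTower k K F)
      (x' : J → F) (τ : F), (⊤ : IntermediateField k F).FG ∧
      Algebra.trdeg k F = (l + 1 : ℕ) ∧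
      (∀ j, j ∉ T → x' j = algebraMap K F (x j) + τ * algebraMap K F (w j)) ∧
      (∀ i ∈ T, x' i ^ m = ∑ j ∈ Finset.univ \ T, algebraMap k F (e i j) * x' j ^ m) ∧
      Transcendental K τ ∧ FiniteDimensional (IntermediateField.adjoin K {τ}) F := by
  classical
  let Ω := AlgebraicClosure (RatFunc K)
  let a : K →+* Ω := (algebraMap (RatFunc K) Ω).comp (algebraMap K (RatFunc K))
  let τ₀ : RatFunc K := RatFunc.X - algebraMap K (RatFunc K) 0
  let τ' : Ω := algebraMap (RatFunc K) Ω τ₀
  have hρ : ∀ i, ∃ y : Ω, y ^ m = ∑ j ∈ Finset.univ \ T,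
      algebraMap k Ω (e i j) * (a (x j) + τ' * a (w j)) ^ m := fun i =>
    IsAlgClosed.exists_pow_nat_eq _ hm
  choose ρ hρ using hρ
  let y : J → Ω := fun j => if j ∈ T then ρ j else a (x j) + τ' * a (w j)
  obtain ⟨F, _, _, _, _, _, _, i, x', hFG, htr, hx', hf1, hf2⟩ := cover_aux hK hl y 0
  have hi : ∀ r : RatFunc K, i (algebraMap (RatFunc K) F r) = algebraMap (RatFunc K) Ω r :=
    fun r => i.commutes r
  have hiK : ∀ r : K, i (algebraMap K F r) = a r := fun r => by
    rw [IsScalarTower.algebraMap_apply K (RatFunc K) F, hi]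
    rfl
  have hik : ∀ r : k, i (algebraMap k F r) = algebraMap k Ω r := fun r => by
    rw [IsScalarTower.algebraMap_apply k K F, hiK]
    change algebraMap (RatFunc K) Ω (algebraMap K (RatFunc K) (algebraMap k K r)) = _
    rw [← IsScalarTower.algebraMap_apply k K (RatFunc K),
      ← IsScalarTower.algebraMap_apply k (RatFunc K) Ω]
  have hinj : Function.Injective i := i.toRingHom.injective
  have hxT : ∀ j, j ∉ T → x' j = algebraMap K F (x j) +
      algebraMap (RatFunc K) F τ₀ * algebraMap K F (w j) := by
    intro j hj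
    apply hinj
    rw [hx', map_add, map_mul, hiK, hiK, hi]
    simp only [y, if_neg hj]
    rfl
  refine ⟨F, inferInstance, inferInstance, inferInstance, inferInstance, x',
    algebraMap (RatFunc K) F τ₀, hFG, htr, hxT, fun i' hi' => ?_, hf1, hf2⟩
  apply hinj
  rw [map_pow, hx', map_sum]
  simp only [y, if_pos hi']
  rw [hρ]
  apply Finset.sum_congr rfl
  intro j hj
  have hj' : j ∉ T := (Finset.mem_sdiff.1 hj).2
  rw [map_mul, hik, map_pow, hx']
  simp only [y, if_neg hj']

/-- finiteness of the support, and the places in the support are discrete -/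
theorem support2 [CharZero k] [Finite J] {F : Type u} [Field F] [Algebra k F] {l : ℕ}
    (hF : (⊤ : IntermediateField k F).FG) (hl : Algebra.trdeg k F = (l + 1 : ℕ)) {x' : J → F}
    (hx' : x' ≠ 0) {f : F} (hf0 : f ≠ 0)
    (hchart : ∀ j, x' j ≠ 0 → ∀ s : Set F, (∀ i, x' i / x' j ∈ s) →
      f ∈ IntermediateField.adjoin k s → ∀ y : F, IsAlgebraic (Algebra.adjoin k s) y) :
    {v : Place k F | Algebra.trdeg k v.Res + 1 = Algebra.trdeg k F ∧
      degree k (v.center x') ≠ 0 ∧ (v.Vanishes f ∨ f ∉ v.ring)}.Finite ∧
    ∀ v : Place k F, Algebra.trdeg k v.Res + 1 = Algebra.trdeg k F →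
      degree k (v.center x') ≠ 0 → v.Vanishes f → IsDiscreteValuationRing v.ring := by
  have h1 : ∀ j, x' j ≠ 0 → ∀ y : F, IsAlgebraic (chart k x' f j) y := by
    intro j hj y
    apply hchart j hj
    · exact fun i => Or.inr ⟨i, rfl⟩
    · exact IntermediateField.subset_adjoin k _ (Or.inl rfl)
  have h2 : ∀ j, x' j ≠ 0 → ∀ y : F, IsAlgebraic (chart k x' f⁻¹ j) y := by
    intro j hj y
    apply hchart j hj
    · exact fun i => Or.inr ⟨i, rfl⟩
    · have := IntermediateField.subset_adjoin k ({f⁻¹} ∪ Set.range fun i => x' i / x' j)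
        (Or.inl rfl)
      have h3 := inv_mem this
      rwa [inv_inv] at h3
  constructor
  · apply Set.Finite.subset (s := ⋃ j : {j // x' j ≠ 0},
      ({v : Place k F | (∀ a ∈ chart k x' f j.1, a ∈ v.ring) ∧ v.Vanishes f ∧
        Algebra.trdeg k v.Res + 1 = Algebra.trdeg k F ∧
        ∀ e : v.Res, IsAlgebraic (IntermediateField.adjoin k
          (v.res '' (chart k x' f j.1 : Set F))) e} ∪
      {v : Place k F | (∀ a ∈ chart k x' f⁻¹ j.1, a ∈ v.ring) ∧ v.Vanishes f⁻¹ ∧
        Algebra.trdeg k v.Res + 1 = Algebra.trdeg k F ∧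
        ∀ e : v.Res, IsAlgebraic (IntermediateField.adjoin k
          (v.res '' (chart k x' f⁻¹ j.1 : Set F))) e}))
    · apply Set.finite_iUnion
      rintro ⟨j, hj⟩
      apply Set.Finite.union
      · exact finite_places hF hl (chart_fg x' f j) (h1 j hj) (mem_chart x' f j) hf0
      · exact finite_places hF hl (chart_fg x' f⁻¹ j) (h2 j hj) (mem_chart x' f⁻¹ j)
          (inv_ne_zero hf0)
    · rintro v ⟨hv1, hv2, hv3⟩
      obtain ⟨j, hj, hj2⟩ := exists_coord v hx'
      rw [Set.mem_iUnion]
      refine ⟨⟨j, hj⟩, ?_⟩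
      rcases hv3 with hv3 | hv3
      · left
        exact ⟨chart_le v hj2 (Place.Vanishes.mem v hv3), hv3, hv1,
          isAlgebraic_res v hv2 hj hj2 fun i => div_mem_chart x' f i j⟩
      · right
        have hv4 : v.Vanishes f⁻¹ := by
          rw [v.vanishes_iff_or, inv_inv]
          exact Or.inr hv3
        exact ⟨chart_le v hj2 (Place.Vanishes.mem v hv4), hv4, hv1,
          isAlgebraic_res v hv2 hj hj2 fun i => div_mem_chart x' f⁻¹ i j⟩
  · intro v hv1 hv2 hv3
    obtain ⟨j, hj, hj2⟩ := exists_coord v hx'
    exact discrete_places hF hl (chart_fg x' f j) (h1 j hj)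
      (chart_le v hj2 (Place.Vanishes.mem v hv3)) hv1
      (isAlgebraic_res v hv2 hj hj2 fun i => div_mem_chart x' f i j)

end Pool.Agent.LCyc
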