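import Pool.Agent.ZCyc.Defs

/-!
# Chow groups of projective varieties: definitions

Let `k` be an algebraically closed field of characteristic `0`. A closed subset `X` of the projective
space with homogeneous coordinates indexed by `J` is given by an ideal `I` of `MvPolynomial J k`.

* A closed irreducible subset of dimension `l` of `X` is given by its homogeneous prime ideal `P`,
  with `I ≤ P` and transcendence degree of `k[X_j] / P` over `k` equal to `l + 1` (`IsPrimeCycle`).
  The closure of a point with homogeneous coordinates `x j` in an extension field `K` of `k` is
  given by `ideal k x`.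
* Let `F` be a finitely generated extension field of `k` of transcendence degree `l + 1` (the field
  of functions of a variety `W` of dimension `l + 1`). A prime divisor of `F` is a place `v` of `F`
  over `k` (a valuation ring of `F` containing `k`) whose residue field `v.Res` has transcendence
  degree `l`; it is a discrete valuation, and `ord v f - ord v f⁻¹` is the order of the function `f`
  at `v`. If `x` is a point of `X` over `F` (a rational map `φ` from `W` to `X`) then `center v x` is
  the value of `x` at `v`, a point over the residue field, and `degree k (center v x)` is the degree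
  of the residue field over the field generated by this point (`0` if it is not finite). So
  `divisor R x f = ∑ v, ord_v(f) [v.Res : k(center)] • closure of the center` is the push-forward
  `φ_* (div f)` of the divisor of `f`, a cycle of dimension `l` on `X`.
* `ratEquiv R I l` is the span of these cycles, i.e. the space of the cycles of dimension `l` with
  coefficients in `R` which are rationally equivalent to zero on `X`.
-/

namespace Pool.Agent.ZCyc.Place

variable {k : Type*} [Field k] {F : Type*} [Field F] [Algebra k F]

instance algebraRing (v : Place k F) : Algebra k v.ring :=
  ((algebraMap k F).codRestrict v.ring.toSubring v.const_mem).toAlgebra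

/-- The residue field of the place `v`. -/
abbrev Res (v : Place k F) : Type _ := IsLocalRing.ResidueField v.ring

open scoped Classical in
/-- The residue of the function `f` at the place `v` (`0` if `f` has a pole). -/
noncomputable def res (v : Place k F) (f : F) : v.Res :=
  if h : f ∈ v.ring then IsLocalRing.residue v.ring ⟨f, h⟩ else 0

open scoped Classical in
/-- The value at `v` of the point with homogeneous coordinates `x j` in `F`: multiply the
coordinates by a common factor such that they have no poles at `v` and do not all vanish at `v`,
and take the residues. -/
noncomputable def center {J : Type} (v : Place k F) (x : J → F) : J → v.Res :=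
  if h : ∃ c : F, (∀ j, c * x j ∈ v.ring) ∧ ∃ j, ¬ v.Vanishes (c * x j) then
    fun j => v.res (h.choose * x j) else 0

/-- The order of vanishing of `f` at `v` (`0` if `f` does not vanish). -/
noncomputable def ord (v : Place k F) (f : F) : ℕ :=
  sSup {n | ∃ π g, v.Vanishes π ∧ g ∈ v.ring ∧ f = π ^ n * g}

end Pool.Agent.ZCyc.Place

namespace Pool.Agent.LCyc

open Pool.Agent.ZCyc

universe u w

variable {J : Type}

/-- The homogeneous ideal of the closure of the point with homogeneous coordinates `x j` in the
extension field `K` of `k`: the polynomials all whose homogeneous components vanish at `x`, i.e. the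
`f` with `f (x j T) = 0` in `K[T]`. -/
noncomputable def ideal (k : Type*) [Field k] {K : Type*} [Field K] [Algebra k K] (x : J → K) :
    Ideal (MvPolynomial J k) :=
  RingHom.ker (MvPolynomial.aeval fun j => Polynomial.C (x j) * Polynomial.X :
    MvPolynomial J k →ₐ[k] Polynomial K)

/-- The field generated by the ratios of the coordinates of `x`. -/
def ratios (k : Type*) [Field k] {K : Type*} [Field K] [Algebra k K] (x : J → K) :
    IntermediateField k K :=
  IntermediateField.adjoin k (Set.range fun p : J × J => x p.1 / x p.2)

/-- The degree of `K` over the field generated by the ratios of the coordinates of `x` (`0` if it is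
not finite). -/
noncomputable def degree (k : Type*) [Field k] {K : Type*} [Field K] [Algebra k K] (x : J → K) :
    ℕ :=
  Module.finrank (ratios k x) K

/-- The push-forward of the divisor of the function `f` under the rational map with homogeneous
coordinates `x j`; the sum is over all prime divisors of the field `F`. -/
noncomputable def divisor (k : Type u) [Field k] (R : Type w) [Field R] {F : Type u} [Field F]
    [Algebra k F] (x : J → F) (f : F) : Ideal (MvPolynomial J k) →₀ R :=
  ∑ᶠ v : {v : Place k F // Algebra.trdeg k v.Res + 1 = Algebra.trdeg k F},
    Finsupp.single (ideal k (v.1.center x))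
      ((((v.1.ord f : ℤ) - v.1.ord f⁻¹) * degree k (v.1.center x) : ℤ) : R)

/-- The cycles of dimension `l` with coefficients in `R` on the closed subset with ideal `I` which
are rationally equivalent to zero. -/
noncomputable def ratEquiv {k : Type u} [Field k] (R : Type w) [Field R]
    (I : Ideal (MvPolynomial J k)) (l : ℕ) : Submodule R (Ideal (MvPolynomial J k) →₀ R) :=
  Submodule.span R {z | ∃ (F : Type u) (_ : Field F) (_ : Algebra k F)
    (_ : (⊤ : IntermediateField k F).FG) (_ : Algebra.trdeg k F = (l + 1 : ℕ)) (x : J → F)
    (_ : x ≠ 0) (_ : I ≤ ideal k x) (f : F) (_ : f ≠ 0), z = divisor k R x f}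

/-- `P` is the homogeneous prime ideal of a closed irreducible subset of dimension `l` of the closed
subset with ideal `I`. -/
def IsPrimeCycle {k : Type u} [Field k] (I : Ideal (MvPolynomial J k)) (l : ℕ)
    (P : Ideal (MvPolynomial J k)) : Prop :=
  P.IsPrime ∧ I ≤ P ∧ (∀ f ∈ P, ∀ n, MvPolynomial.homogeneousComponent n f ∈ P) ∧
    Algebra.trdeg k (MvPolynomial J k ⧸ P) = (l + 1 : ℕ)

/-- The ideal generated by the diagonal forms `∑ j, c i j * X j ^ m`. -/
noncomputable def diag {k : Type u} [Field k] [Fintype J] (m : ℕ) {r : ℕ} (c : Fin r → J → k) :
    Ideal (MvPolynomial J k) :=
  Ideal.span (Set.range fun i => ∑ j, MvPolynomial.C (c i j) * MvPolynomial.X j ^ m)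

/-- The automorphism `x j ↦ ζ ^ (g j) * x j` of the projective space, on ideals. -/
noncomputable def act {k : Type u} [Field k] {m : ℕ} (ζ : kˣ) (g : J → ZMod m)
    (P : Ideal (MvPolynomial J k)) : Ideal (MvPolynomial J k) :=
  P.comap (MvPolynomial.aeval fun j => MvPolynomial.C ((ζ : k) ^ (g j).val) * MvPolynomial.X j :
    MvPolynomial J k →ₐ[k] MvPolynomial J k)

end Pool.Agent.LCyc
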