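import Pool.Agent.LCyc.Ideal
import Pool.Agent.LCyc.Sol

/-! LC13: a variant of LC12 with given linear equations. -/

set_option autoImplicit false

open Polynomial

namespace Pool.Agent.LCyc

universe u

variable {k : Type u} [Field k] {J : Type}

/-- the coordinates times an indeterminate -/
private noncomputable def zz {K : Type u} [Field K] (x : J → K) (j : J) : RatFunc K :=
  algebraMap K[X] (RatFunc K) (C (x j) * X)

private lemma zz_eq {K : Type u} [Field K] (x : J → K) (j : J) :
    zz x j = algebraMap K (RatFunc K) (x j) * RatFunc.X := by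
  unfold zz
  rw [map_mul, RatFunc.algebraMap_X, RatFunc.algebraMap_C, RatFunc.algebraMap_eq_C]

private lemma ideal_eq_ker {K : Type u} [Field K] [Algebra k K] (x : J → K) :
    ideal k x = RingHom.ker (MvPolynomial.aeval (zz x) : MvPolynomial J k →ₐ[k] RatFunc K) := by
  unfold ideal
  ext f
  rw [RingHom.mem_ker, RingHom.mem_ker]
  have h : (MvPolynomial.aeval (zz x) : MvPolynomial J k →ₐ[k] RatFunc K) f =
      algebraMap K[X] (RatFunc K) ((MvPolynomial.aeval fun j => Polynomial.C (x j) *
        Polynomial.X : MvPolynomial J k →ₐ[k] Polynomial K) f) := by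
    have := MvPolynomial.comp_aeval_apply (fun j => (Polynomial.C (x j) * Polynomial.X : K[X]))
      (IsScalarTower.toAlgHom k K[X] (RatFunc K)) f
    exact this.symm
  rw [h]
  exact (map_eq_zero_iff _ (RatFunc.algebraMap_injective K)).symm

/-- the field of rational functions is algebraic over the field generated by the `zz x j` -/
private lemma alg_aux {K : Type u} [Field K] [Algebra k K] {x : J → K} (hdeg : degree k x ≠ 0)
    (hx : x ≠ 0) (E : IntermediateField k (RatFunc K)) (hz : ∀ j, IsAlgebraic E (zz x j)) :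
    Algebra.IsAlgebraic E (RatFunc K) := by
  have hfd : FiniteDimensional (ratios k x) K := FiniteDimensional.of_finrank_pos
    (Nat.pos_of_ne_zero hdeg)
  let A : IntermediateField E (RatFunc K) := algebraicClosure E (RatFunc K)
  have hA : ∀ a, a ∈ A ↔ IsAlgebraic E a := fun a => mem_algebraicClosure_iff
  have hzA : ∀ j, zz x j ∈ A := fun j => (hA _).2 (hz j)
  obtain ⟨j₀, hj₀⟩ : ∃ j, x j ≠ 0 := by
    by_contra h
    exact hx (funext fun j => not_not.1 fun h1 => h ⟨j, h1⟩)
  have hX0 : (RatFunc.X : RatFunc K) ≠ 0 := RatFunc.X_ne_zero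
  have hr : ∀ a ∈ ratios k x, algebraMap K (RatFunc K) a ∈ A := by
    intro a ha
    unfold ratios at ha
    induction ha using IntermediateField.adjoin_induction with
    | mem a ha =>
      obtain ⟨p, rfl⟩ := ha
      have h1 : algebraMap K (RatFunc K) (x p.1 / x p.2) = zz x p.1 / zz x p.2 := by
        rw [zz_eq, zz_eq, map_div₀, mul_div_mul_right _ _ hX0]
      show algebraMap K (RatFunc K) (x p.1 / x p.2) ∈ A
      rw [h1]
      exact A.div_mem (hzA _) (hzA _)
    | algebraMap a =>
      have : algebraMap K (RatFunc K) (algebraMap k K a) =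
          algebraMap E (RatFunc K) (algebraMap k E a) := by
        rw [← IsScalarTower.algebraMap_apply, ← IsScalarTower.algebraMap_apply]
      rw [this]
      exact A.algebraMap_mem _
    | add a b _ _ h1 h2 => rw [map_add]; exact A.add_mem h1 h2
    | inv a _ h1 => rw [map_inv₀]; exact A.inv_mem h1
    | mul a b _ _ h1 h2 => rw [map_mul]; exact A.mul_mem h1 h2
  let ψ : ratios k x →+* A := ((algebraMap K (RatFunc K)).comp
    (algebraMap (ratios k x) K)).codRestrict A (fun a => hr _ a.2)
  let _ : Algebra (ratios k x) A := ψ.toAlgebra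
  have hst : IsScalarTower (ratios k x) A (RatFunc K) :=
    IsScalarTower.of_algebraMap_eq fun _ => rfl
  have hK : ∀ a : K, algebraMap K (RatFunc K) a ∈ A := by
    intro a
    rw [hA]
    have h1 : IsAlgebraic (ratios k x) a := Algebra.IsAlgebraic.isAlgebraic a
    have h2 : IsAlgebraic (ratios k x) (algebraMap K (RatFunc K) a) := h1.algebraMap
    have h3 : IsAlgebraic A (algebraMap K (RatFunc K) a) :=
      h2.extendScalars ψ.injective
    exact h3.restrictScalars E
  have hX : (RatFunc.X : RatFunc K) ∈ A := by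
    have h1 : (RatFunc.X : RatFunc K) = zz x j₀ / algebraMap K (RatFunc K) (x j₀) := by
      rw [zz_eq, mul_div_cancel_left₀]
      exact (_root_.map_ne_zero _).2 hj₀
    rw [h1]
    exact A.div_mem (hzA _) (hK _)
  refine ⟨fun a => (hA a).1 ?_⟩
  have ha : a ∈ (⊤ : IntermediateField K (RatFunc K)) := IntermediateField.mem_top
  rw [← RatFunc.adjoin_X] at ha
  induction ha using IntermediateField.adjoin_induction with
  | mem a ha =>
    rw [Set.mem_singleton_iff] at ha
    rw [ha]
    exact hX
  | algebraMap a => exact hK a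
  | add a b _ _ h1 h2 => exact A.add_mem h1 h2
  | inv a _ h1 => exact A.inv_mem h1
  | mul a b _ _ h1 h2 => exact A.mul_mem h1 h2

open Algebra in
private lemma trdeg_ratFunc {K : Type u} [Field K] [Algebra k K] {l : ℕ}
    (hl : Algebra.trdeg k K = (l : ℕ)) : Algebra.trdeg k (RatFunc K) = (l + 1 : ℕ) := by
  have e1 : Algebra.trdeg K (RatFunc K) = 1 := by
    rw [← trdeg_add_eq K K[X] (A := RatFunc K), Polynomial.trdeg_of_isDomain,
      trdeg_eq_zero_iff.2 (IsLocalization.isAlgebraic _ (nonZeroDivisors K[X])), add_zero]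
  rw [← trdeg_add_eq k K (A := RatFunc K), hl, e1]
  push_cast
  rfl

open scoped IntermediateField.algebraAdjoinAdjoin in
/-- the parameters form a transcendence basis -/
private lemma basis_aux {α : Type} [Fintype α] {l : ℕ}
    {K : Type u} [Field K] [Algebra k K] {x : J → K}
    (hl : Algebra.trdeg k K = (l : ℕ)) (hdeg : degree k x ≠ 0) (hx : x ≠ 0)
    (hd : Fintype.card α ≤ l + 1) (s : α → RatFunc K)
    (hs : ∀ j, IsAlgebraic (IntermediateField.adjoin k (Set.range s)) (zz x j)) :
    IsTranscendenceBasis k s := by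
  have hE : Algebra.IsAlgebraic (IntermediateField.adjoin k (Set.range s)) (RatFunc K) :=
    alg_aux hdeg hx _ hs
  have hA : Algebra.IsAlgebraic (Algebra.adjoin k (Set.range s)) (RatFunc K) := by
    exact (IsFractionRing.comap_isAlgebraic_iff (A := Algebra.adjoin k (Set.range s))
      (K := IntermediateField.adjoin k (Set.range s)) (C := RatFunc K)).2 hE
  refine Algebra.IsAlgebraic.isTranscendenceBasis_of_lift_le_trdeg_of_finite k s ?_
  rw [trdeg_ratFunc hl]
  simp only [Cardinal.mk_fintype, Cardinal.lift_natCast]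
  exact_mod_cast hd

/-- extension of isomorphisms -/
private lemma ext_aux {α : Type} {F F' : Type u} [Field F] [Field F'] [Algebra k F] [Algebra k F']
    {s : α → F} {s' : α → F'} (hs : IsTranscendenceBasis k s) (hs' : AlgebraicIndependent k s') :
    ∃ σ : F →ₐ[k] AlgebraicClosure F', ∀ a, σ (s a) = algebraMap F' _ (s' a) := by
  let L := AlgebraicClosure F'
  let ι : F' →ₐ[k] L := IsScalarTower.toAlgHom k F' L
  let f : Algebra.adjoin k (Set.range s) →ₐ[k] L :=
    (ι.comp (MvPolynomial.aeval s')).comp hs.1.aevalEquiv.symm.toAlgHom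
  have hf : Function.Injective f := by
    refine (ι.toRingHom.injective.comp ?_).comp hs.1.aevalEquiv.symm.injective
    exact hs'
  let _ : Algebra (Algebra.adjoin k (Set.range s)) L := f.toRingHom.toAlgebra
  have hfs : FaithfulSMul (Algebra.adjoin k (Set.range s)) L :=
    (faithfulSMul_iff_algebraMap_injective _ _).2 hf
  have halg : Algebra.IsAlgebraic (Algebra.adjoin k (Set.range s)) F := hs.isAlgebraic
  let σ : F →ₐ[Algebra.adjoin k (Set.range s)] L := IsAlgClosed.lift
  have hσk : ∀ a : k, σ (algebraMap k F a) = algebraMap k L a := by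
    intro a
    have h1 : algebraMap k F a = algebraMap (Algebra.adjoin k (Set.range s)) F
        (algebraMap k _ a) := rfl
    rw [h1, σ.commutes]
    exact f.commutes a
  refine ⟨{ σ.toRingHom with commutes' := hσk }, ?_⟩
  intro a
  show σ (s a) = ι (s' a)
  have h1 : s a = algebraMap (Algebra.adjoin k (Set.range s)) F
      (hs.1.aevalEquiv (MvPolynomial.X a)) := by
    rw [hs.1.algebraMap_aevalEquiv, MvPolynomial.aeval_X]
  rw [h1, σ.commutes]
  show (ι.comp (MvPolynomial.aeval s')) (hs.1.aevalEquiv.symm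
    (hs.1.aevalEquiv (MvPolynomial.X a))) = _
  rw [AlgEquiv.symm_apply_apply, AlgHom.comp_apply, MvPolynomial.aeval_X]

theorem transitive2 [IsAlgClosed k] [CharZero k] [Fintype J] [DecidableEq J] {m : ℕ} [NeZero m]
    {ζ : kˣ} (hζ : IsPrimitiveRoot (ζ : k) m) {l : ℕ} {T : Finset J}
    (hT : Fintype.card J ≤ T.card + (l + 1)) {K : Type u} [Field K] [Algebra k K] {K' : Type u}
    [Field K'] [Algebra k K'] {x : J → K} {x' : J → K'} (hl : Algebra.trdeg k K = (l : ℕ))
    (hl' : Algebra.trdeg k K' = (l : ℕ)) (hdeg : degree k x ≠ 0) (hdeg' : degree k x' ≠ 0)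
    (hx : x ≠ 0) (hx' : x' ≠ 0) (e : J → J → k)
    (hX : ∀ i ∈ T, x i ^ m = ∑ j ∈ Finset.univ \ T, algebraMap k K (e i j) * x j ^ m)
    (hX' : ∀ i ∈ T, x' i ^ m = ∑ j ∈ Finset.univ \ T, algebraMap k K' (e i j) * x' j ^ m) :
    ∃ g : J → ZMod m, (∀ j, j ∉ T → g j = 0) ∧ ideal k x' = act ζ g (ideal k x) := by
  have key : ∀ {K : Type u} [Field K] [Algebra k K] {x : J → K},
      (∀ i ∈ T, x i ^ m = ∑ j ∈ Finset.univ \ T, algebraMap k K (e i j) * x j ^ m) →
      ∀ i ∈ T, zz x i ^ m = ∑ j ∈ Finset.univ \ T, algebraMap k (RatFunc K) (e i j) *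
        zz x j ^ m := by
    intro K _ _ x hX i hi
    have h2 : ∀ j, algebraMap k (RatFunc K) (e i j) * zz x j ^ m =
        algebraMap K (RatFunc K) (algebraMap k K (e i j) * x j ^ m) * RatFunc.X ^ m := by
      intro j
      rw [zz_eq, mul_pow, IsScalarTower.algebraMap_apply k K (RatFunc K), map_mul, map_pow]
      ring
    rw [Finset.sum_congr rfl fun j _ => h2 j, ← Finset.sum_mul, ← map_sum, ← hX i hi, map_pow,
      zz_eq, mul_pow]
  have hcard : Fintype.card {j // j ∉ T} ≤ l + 1 := by
    rw [Fintype.card_subtype_compl, Fintype.card_coe]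
    omega
  have hbas : ∀ {K : Type u} [Field K] [Algebra k K] {x : J → K},
      Algebra.trdeg k K = (l : ℕ) → degree k x ≠ 0 → x ≠ 0 →
      (∀ i ∈ T, x i ^ m = ∑ j ∈ Finset.univ \ T, algebraMap k K (e i j) * x j ^ m) →
      IsTranscendenceBasis k fun j : {j // j ∉ T} => zz x j := by
    intro K _ _ x hl hdeg hx hX
    refine basis_aux hl hdeg hx hcard _ fun j => ?_
    have hmem : ∀ j, j ∉ T → zz x j ∈ IntermediateField.adjoin k
        (Set.range fun j : {j // j ∉ T} => zz x j) := fun j hj =>
      IntermediateField.subset_adjoin k _ ⟨⟨j, hj⟩, rfl⟩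
    by_cases hj : j ∈ T
    · have hy : zz x j ^ m ∈ IntermediateField.adjoin k
          (Set.range fun j : {j // j ∉ T} => zz x j) := by
        rw [key hX j hj]
        refine sum_mem fun i hi => mul_mem (IntermediateField.algebraMap_mem _ _) (pow_mem ?_ _)
        exact hmem i (Finset.mem_sdiff.1 hi).2
      refine IsAlgebraic.of_pow (Nat.pos_of_ne_zero (NeZero.ne m)) ?_
      exact isAlgebraic_algebraMap (⟨_, hy⟩ : IntermediateField.adjoin k
        (Set.range fun j : {j // j ∉ T} => zz x j))
    · exact isAlgebraic_algebraMap (⟨_, hmem j hj⟩ : IntermediateField.adjoin k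
        (Set.range fun j : {j // j ∉ T} => zz x j))
  obtain ⟨σ, hσ⟩ := ext_aux (hbas hl hdeg hx hX) (hbas hl' hdeg' hx' hX').1
  set L := AlgebraicClosure (RatFunc K') with hL
  let ι : RatFunc K' →ₐ[k] L := IsScalarTower.toAlgHom k (RatFunc K') L
  have hσT : ∀ j, j ∉ T → σ (zz x j) = ι (zz x' j) := fun j hj => hσ ⟨j, hj⟩
  have hpow : ∀ j, σ (zz x j) ^ m = ι (zz x' j) ^ m := by
    intro j
    by_cases hj : j ∈ T
    · have h1 : σ (zz x j) ^ m = σ (zz x j ^ m) := (map_pow σ _ _).symm
      have h2 : ι (zz x' j) ^ m = ι (zz x' j ^ m) := (map_pow ι _ _).symm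
      rw [h1, h2, key hX j hj, key hX' j hj, map_sum, map_sum]
      refine Finset.sum_congr rfl fun i hi => ?_
      rw [map_mul, map_mul, AlgHom.commutes, AlgHom.commutes, map_pow, map_pow,
        hσT i (Finset.mem_sdiff.1 hi).2]
    · rw [hσT j hj]
  have hζL : IsPrimitiveRoot (algebraMap k L (ζ : k)) m :=
    hζ.map_of_injective (algebraMap k L).injective
  have hroot : ∀ j, ∃ n : ZMod m, (j ∉ T → n = 0) ∧
      σ (zz x j) = algebraMap k L ((ζ : k) ^ n.val) * ι (zz x' j) := by
    intro j
    by_cases hj : j ∈ T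
    · by_cases h0 : ι (zz x' j) = 0
      · refine ⟨0, fun _ => rfl, ?_⟩
        rw [h0, mul_zero]
        have := hpow j
        rw [h0, zero_pow (NeZero.ne m)] at this
        exact pow_eq_zero_iff (NeZero.ne m) |>.1 this
      · have h1 : (σ (zz x j) / ι (zz x' j)) ^ m = 1 := by
          rw [div_pow, hpow j, div_self (pow_ne_zero _ h0)]
        obtain ⟨i, hi, hi2⟩ := hζL.eq_pow_of_pow_eq_one h1
        refine ⟨(i : ZMod m), fun h => absurd hj h, ?_⟩
        rw [ZMod.val_natCast, Nat.mod_eq_of_lt hi, map_pow, hi2, div_mul_cancel₀ _ h0]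
    · refine ⟨0, fun _ => rfl, ?_⟩
      rw [ZMod.val_zero, pow_zero, map_one, one_mul, hσT j hj]
  choose n hn0 hn using hroot
  have hζ1 : ζ ^ m = 1 := by
    ext
    rw [Units.val_pow_eq_pow_val, hζ.pow_eq_one, Units.val_one]
  have hmain : ideal k x = act ζ n (ideal k x') := by
    rw [act_ideal, ideal_eq_ker, ideal_eq_ker]
    ext p
    rw [RingHom.mem_ker, RingHom.mem_ker]
    have e1 : σ ((MvPolynomial.aeval (zz x) : MvPolynomial J k →ₐ[k] RatFunc K) p) =
        (MvPolynomial.aeval fun j => σ (zz x j) : MvPolynomial J k →ₐ[k] L) p :=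
      MvPolynomial.comp_aeval_apply (zz x) σ p
    have e2 : ι ((MvPolynomial.aeval (zz fun j => algebraMap k K' ((ζ : k) ^ (n j).val) * x' j) :
        MvPolynomial J k →ₐ[k] RatFunc K') p) =
        (MvPolynomial.aeval fun j => ι (zz (fun j => algebraMap k K' ((ζ : k) ^ (n j).val) * x' j)
          j) : MvPolynomial J k →ₐ[k] L) p :=
      MvPolynomial.comp_aeval_apply _ ι p
    have e3 : (fun j => σ (zz x j)) =
        fun j => ι (zz (fun j => algebraMap k K' ((ζ : k) ^ (n j).val) * x' j) j) := by
      funext j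
      rw [hn j, zz_eq, zz_eq, map_mul, map_mul, map_mul, map_mul,
        ← IsScalarTower.algebraMap_apply k K' (RatFunc K'), AlgHom.commutes, mul_assoc]
    rw [e3, ← e2] at e1
    constructor
    · intro h
      have h1 : ι ((MvPolynomial.aeval (zz fun j => algebraMap k K' ((ζ : k) ^ (n j).val) * x' j) :
        MvPolynomial J k →ₐ[k] RatFunc K') p) = 0 := by
        rw [← e1]
        have : (MvPolynomial.aeval (zz x) : MvPolynomial J k →ₐ[k] RatFunc K) p = 0 := h
        rw [this, map_zero]
      exact (map_eq_zero ι).1 h1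
    · intro h
      have h1 : σ ((MvPolynomial.aeval (zz x) : MvPolynomial J k →ₐ[k] RatFunc K) p) = 0 := by
        rw [e1]
        have : (MvPolynomial.aeval (zz fun j => algebraMap k K' ((ζ : k) ^ (n j).val) * x' j) :
          MvPolynomial J k →ₐ[k] RatFunc K') p = 0 := h
        rw [this, map_zero]
      exact (map_eq_zero σ).1 h1
  refine ⟨-n, fun j hj => ?_, ?_⟩
  · rw [Pi.neg_apply, hn0 j hj, neg_zero]
  · rw [hmain, act_act hζ1, neg_add_cancel, act_zero]

end Pool.Agent.LCyc
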