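import Pool.Agent.LCyc.Core5
import Pool.Agent.LCyc.Cover2
import Pool.Agent.LCyc.Cols
import Pool.Agent.LCyc.Trans2

/-!
# Characters which are trivial on sufficiently many coordinates
-/

set_option autoImplicit false

namespace Pool.Agent.LCyc

open Pool.Agent.ZCyc Finset

universe u w

variable {k : Type u} [Field k] {J : Type}

section Residues

variable [Fintype J] [DecidableEq J] {m : ℕ} {K : Type u} [Field K] [Algebra k K] {F : Type u}
  [Field F] [Algebra k F] [Algebra K F] [IsScalarTower k K F]

/-- residues of the coordinates of the moving point where the parameter vanishes -/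
lemma residues2 (hm : 0 < m) {T : Finset J} {e : J → J → k} {x : J → K} {w : J → k} {x' : J → F}
    {τ : F} (hXT : ∀ i ∈ T, x i ^ m = ∑ j ∈ Finset.univ \ T, algebraMap k K (e i j) * x j ^ m)
    (hx1 : ∀ j, j ∉ T → x' j = algebraMap K F (x j) + τ * algebraMap K F (algebraMap k K (w j)))
    (hx2 : ∀ i ∈ T, x' i ^ m = ∑ j ∈ Finset.univ \ T, algebraMap k F (e i j) * x' j ^ m)
    (v : Place k F) (hv : ∀ j, algebraMap K F (x j) ∈ v.ring) (hτ : v.Vanishes τ) :
    (∀ j, x' j ∈ v.ring) ∧ (∀ j, j ∉ T → v.res (x' j) = v.res (algebraMap K F (x j))) ∧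
      ∀ j, v.res (x' j) ^ m = v.res (algebraMap K F (x j)) ^ m := by
  have hw : ∀ j, algebraMap K F (algebraMap k K (w j)) ∈ v.ring := by
    intro j
    rw [← IsScalarTower.algebraMap_apply]
    exact v.const_mem _
  have h1 : ∀ j, j ∉ T → x' j ∈ v.ring := by
    intro j hj
    rw [hx1 j hj]
    exact add_mem (hv j) (mul_mem (Place.Vanishes.mem v hτ) (hw j))
  have h2 : ∀ j, x' j ∈ v.ring := by
    intro j
    by_cases hj : j ∈ T
    · apply mem_of_pow v hm
      rw [hx2 j hj]
      apply sum_mem
      intro i hi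
      exact mul_mem (v.const_mem _) (pow_mem (h1 i (Finset.mem_sdiff.1 hi).2) m)
    · exact h1 j hj
  have h3 : ∀ j, j ∉ T → v.res (x' j) = v.res (algebraMap K F (x j)) := by
    intro j hj
    rw [hx1 j hj, res_add v (hv j) (mul_mem (Place.Vanishes.mem v hτ) (hw j)),
      res_mul v (Place.Vanishes.mem v hτ) (hw j),
      (res_eq_zero_iff v (Place.Vanishes.mem v hτ)).2 hτ, zero_mul, add_zero]
  refine ⟨h2, h3, fun j => ?_⟩
  by_cases hj : j ∈ T
  · have hsum : ∀ (u : J → F), (∀ i, u i ∈ v.ring) → ∀ s : Finset J,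
        v.res (∑ i ∈ s, u i) = ∑ i ∈ s, v.res (u i) := by
      intro u hu s
      classical
      induction s using Finset.induction_on with
      | empty =>
        rw [Finset.sum_empty, Finset.sum_empty, res_eq_zero_iff v (zero_mem _)]
        exact v.vanishes_zero
      | insert i s hi ih =>
        rw [Finset.sum_insert hi, Finset.sum_insert hi,
          res_add v (hu i) (sum_mem fun i _ => hu i), ih]
    have h4 : algebraMap K F (x j) ^ m =
        ∑ i ∈ Finset.univ \ T, algebraMap k F (e j i) * algebraMap K F (x i) ^ m := by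
      rw [← map_pow, hXT j hj, map_sum]
      apply Finset.sum_congr rfl
      intro i _
      rw [map_mul, map_pow, ← IsScalarTower.algebraMap_apply]
    rw [← res_pow v (h2 j), ← res_pow v (hv j), hx2 j hj, h4,
      hsum _ (fun i => mul_mem (v.const_mem _) (pow_mem (h2 i) m)),
      hsum _ (fun i => mul_mem (v.const_mem _) (pow_mem (hv i) m))]
    apply Finset.sum_congr rfl
    intro i hi
    rw [res_mul v (v.const_mem _) (pow_mem (h2 i) m), res_mul v (v.const_mem _) (pow_mem (hv i) m),
      res_pow v (h2 i), res_pow v (hv i), h3 i (Finset.mem_sdiff.1 hi).2]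
  · rw [h3 j hj]

end Residues

variable [IsAlgClosed k] [CharZero k] [Fintype J] [DecidableEq J] {m : ℕ} [NeZero m]
  {R : Type w} [Field R] [CharZero R] {ζ : kˣ}

/-- Characters which are trivial on sufficiently many coordinates, for cycles which are not of the
largest dimension. -/
theorem vanish_free (hζ : IsPrimitiveRoot (ζ : k) m) {ω : R} (hω : IsPrimitiveRoot ω m)
    {ψ : AddChar (J → ZMod m) R} {a : J → ZMod m} (ha : ∀ t, ψ t = ω ^ (∑ j, a j * t j).val)
    {T : Finset J} (hT : ∀ j ∈ T, a j = 0) {j₁ : J} (hj₁ : a j₁ ≠ 0) {l : ℕ}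
    (hcard : l + T.card + 2 ≤ Fintype.card J) {r : ℕ} {c : Fin r → J → k} {e : J → J → k}
    (he : ∀ (L : Type u) [Field L] [Algebra k L] (y : J → L),
      (∀ i, ∑ j, algebraMap k L (c i j) * y j = 0) ↔
        ∀ i ∈ T, y i = ∑ j ∈ Finset.univ \ T, algebraMap k L (e i j) * y j)
    {K : Type u} [Field K] [Algebra k K] {x : J → K} (hl : Algebra.trdeg k K = (l : ℕ))
    (hdeg : degree k x ≠ 0) (hX : diag m c ≤ ideal k x) (hx1 : x j₁ = 1) :
    op ζ ψ (Finsupp.single (ideal k x) 1) ∈ ratEquiv R (diag m c) l := by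
  classical
  have hm : 0 < m := NeZero.pos m
  have hζ1 : ζ ^ m = 1 := zeta_pow hζ
  have hK : (⊤ : IntermediateField k K).FG := fg_of_degree hdeg
  have hXT : ∀ i ∈ T, x i ^ m = ∑ j ∈ Finset.univ \ T, algebraMap k K (e i j) * x j ^ m :=
    (he K fun j => x j ^ m).1 (diag_le_ideal_iff.1 hX)
  have hj₁T : j₁ ∉ T := fun h => hj₁ (hT j₁ h)
  -- the direction
  obtain ⟨U, hU1, hU2⟩ : ∃ U ⊆ (Finset.univ \ T).erase j₁, U.card = l + 1 := by
    apply Finset.exists_subset_card_eq
    rw [Finset.card_erase_of_mem (Finset.mem_sdiff.2 ⟨Finset.mem_univ _, hj₁T⟩),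
      Finset.card_sdiff_of_subset (Finset.subset_univ T), Finset.card_univ]
    omega
  obtain ⟨w₀, hw₀⟩ := exists_const hl U hU2 x
  set w : J → k := fun j => if j ∈ U then w₀ j else 0 with hw
  have hwj₁ : w j₁ = 0 := by
    rw [hw]
    simp only
    rw [if_neg]
    intro h
    exact (Finset.mem_erase.1 (hU1 h)).1 rfl
  obtain ⟨F, _, _, _, _, x', τ, hF, hlF, h1, h2, htr, hfin⟩ :=
    exists_cover2 hK hl hm T x (fun j => algebraMap k K (w j)) e
  have hf0 : τ ≠ 0 := by
    intro h
    rw [h] at htr
    exact htr isAlgebraic_zero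
  have hx'1 : x' j₁ = 1 := by
    rw [h1 j₁ hj₁T, hx1, hwj₁, map_zero, map_zero, mul_zero, add_zero, map_one]
  have hx'0 : x' ≠ 0 := by
    intro h
    rw [h] at hx'1
    exact zero_ne_one hx'1
  have hX' : diag m c ≤ ideal k x' := by
    rw [diag_le_ideal_iff]
    exact (he F fun j => x' j ^ m).2 h2
  obtain ⟨hfinite, hdisc⟩ := support2 hF hlF hx'0 hf0 (by
    intro j hj s hs hfs y
    have h3 : ∀ i, x' i / x' j ∈ IntermediateField.adjoin k s :=
      fun i => IntermediateField.subset_adjoin k s (hs i)
    have h4 : x' j ∈ IntermediateField.adjoin k s := by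
      have h3 := inv_mem (h3 j₁)
      rwa [hx'1, one_div, inv_inv] at h3
    have h5 : ∀ i, x' i ∈ IntermediateField.adjoin k s := by
      intro i
      have h4 := mul_mem (h3 i) h4
      rwa [div_mul_cancel₀ _ hj] at h4
    have h6 : ∀ i, i ∉ T → algebraMap K F (x i) ∈ IntermediateField.adjoin k s := by
      intro i hi
      have h7 : algebraMap K F (x i) = x' i - τ * algebraMap k F (w i) := by
        rw [h1 i hi, ← IsScalarTower.algebraMap_apply]
        ring
      rw [h7]
      exact sub_mem (h5 i) (mul_mem hfs (IntermediateField.algebraMap_mem _ _))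
    apply isAlgebraic_adjoin hdeg hm hfin hfs
    intro i
    by_cases hi : i ∈ T
    · rw [← map_pow, hXT i hi, map_sum]
      apply sum_mem
      intro i' hi'
      rw [map_mul, map_pow, ← IsScalarTower.algebraMap_apply]
      exact mul_mem (IntermediateField.algebraMap_mem _ _)
        (pow_mem (h6 i' (Finset.mem_sdiff.1 hi').2) m)
    · exact pow_mem (h6 i hi) m)
  refine conclude hζ1 ψ hl hF hlF hx'0 hX' hf0 htr hfin hfinite hdisc ?_ le_rfl ?_
  · -- places over the base point
    intro v hv hfv
    obtain ⟨h3, h4, h5⟩ := residues2 hm hXT h1 h2 v (fun j => hv _) hfv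
    obtain ⟨ε, hε, h6⟩ := center_apply v h3 hx'1
    have h7 : v.center x' = fun j => ε * v.res (x' j) := funext h6
    have h8 : ideal k (fun j => v.res (algebraMap K F (x j))) = ideal k x :=
      ideal_map (resHom v hv) x
    choose g' hg' using fun j => exists_zmod hζ (h5 j)
    set g : J → ZMod m := fun j => if j ∈ T then g' j else 0 with hg
    have h9 : (fun j => v.res (x' j)) = fun j =>
        algebraMap k v.Res ((ζ : k) ^ (g j).val) * v.res (algebraMap K F (x j)) := by
      funext j
      rw [hg]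
      by_cases hj : j ∈ T
      · simp only [hj, if_true]
        exact hg' j
      · simp only [hj, if_false]
        rw [ZMod.val_zero, pow_zero, map_one, one_mul]
        exact h4 j hj
    constructor
    · rw [h7, ideal_smul hε, h9, ← act_ideal, h8]
      have h10 := op_act hζ1 ψ g (ideal k x)
      have h11 : ψ g = 1 := by
        rw [ha]
        have h12 : ∑ j, a j * g j = 0 := by
          apply Finset.sum_eq_zero
          intro j _
          by_cases hj : j ∈ T
          · rw [hT j hj, zero_mul]
          · rw [hg]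
            simp only [hj, if_false]
            rw [mul_zero]
        rw [h12, ZMod.val_zero, pow_zero]
      rwa [h11, one_smul] at h10
    · rw [h7, degree_smul hε, h9, degree_const (a := fun j => (ζ : k) ^ (g j).val)
        (fun j => pow_ne_zero _ ζ.ne_zero)]
      exact (trdeg_degree hfin v hv hfv).2 x hdeg
  · -- all other places
    intro v hv1 hv2 hv3 hv4
    by_cases h3 : ∀ j, x' j ∈ v.ring
    swap
    · push Not at h3
      obtain ⟨j, hj⟩ := h3
      rw [killed hζ1 hω ha hj₁ (center_eq_zero v hx'1 hj)]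
      exact Submodule.zero_mem _
    exfalso
    have hτ : τ ∈ v.ring := by
      by_contra hcon
      obtain ⟨j, hj, h4⟩ := hw₀ F v τ hcon
      have hjT : j ∉ T := (Finset.mem_sdiff.1 (Finset.mem_of_mem_erase (hU1 hj))).2
      apply h4
      have h5 := h3 j
      rw [h1 j hjT, hw] at h5
      simp only [hj, if_true] at h5
      rwa [← IsScalarTower.algebraMap_apply] at h5
    have hτv : v.Vanishes τ := by
      rcases hv3 with h | h
      · exact h
      · exact absurd hτ h
    have hxT : ∀ j, j ∉ T → algebraMap K F (x j) ∈ v.ring := by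
      intro j hj
      have h7 : algebraMap K F (x j) = x' j - τ * algebraMap k F (w j) := by
        rw [h1 j hj, ← IsScalarTower.algebraMap_apply]
        ring
      rw [h7]
      exact sub_mem (h3 j) (mul_mem hτ (v.const_mem _))
    have hxv : ∀ j, algebraMap K F (x j) ∈ v.ring := by
      intro j
      by_cases hj : j ∈ T
      · apply mem_of_pow v hm
        rw [← map_pow, hXT j hj, map_sum]
        apply sum_mem
        intro i hi
        rw [map_mul, map_pow, ← IsScalarTower.algebraMap_apply]
        exact mul_mem (v.const_mem _) (pow_mem (hxT i (Finset.mem_sdiff.1 hi).2) m)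
      · exact hxT j hj
    obtain ⟨-, -, h5⟩ := residues2 hm hXT h1 h2 v hxv hτv
    apply hv2
    obtain ⟨ε, hε, h6⟩ := center_apply v h3 hx'1
    have h7 : v.center x' = fun j => ε * v.res (x' j) := funext h6
    rw [h7, degree_smul hε]
    apply degree_eq_zero (K := K) v hl (fun h => hv4 ⟨h, hτv⟩) hv1 hm
    intro j
    refine ⟨x j ^ m, ?_, ?_⟩
    · rw [map_pow]
      exact pow_mem (hxv j) m
    · rw [map_pow, res_pow v (hxv j), h5]

/-- Characters which are trivial on sufficiently many coordinates. -/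
theorem vanish_cols (hζ : IsPrimitiveRoot (ζ : k) m) {ω : R} (hω : IsPrimitiveRoot ω m)
    {ψ : AddChar (J → ZMod m) R} {a : J → ZMod m} (ha : ∀ t, ψ t = ω ^ (∑ j, a j * t j).val)
    {j₁ : J} (hj₁ : a j₁ ≠ 0) {l r : ℕ} {c : Fin r → J → k}
    (hc : Submodule.span k ((fun j i => c i j) '' {j | a j = 0}) = ⊤)
    {P : Ideal (MvPolynomial J k)} (hP : IsPrimeCycle (diag m c) l P) :
    op ζ ψ (Finsupp.single P 1) ∈ ratEquiv R (diag m c) l := by
  classical
  have hζ1 : ζ ^ m = 1 := zeta_pow hζ
  have hX := hP.2.1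
  obtain ⟨K, _, _, x, hx, hl, hdeg, hPx⟩ := exists_point hP
  rw [hPx] at hX ⊢
  by_cases hx1 : x j₁ = 0
  · rw [killed hζ1 hω ha hj₁ hx1]
    exact Submodule.zero_mem _
  obtain ⟨T, hT, -, e, he⟩ := exists_cols hc
  by_cases hcard : l + T.card + 2 ≤ Fintype.card J
  · have hc1 : (x j₁)⁻¹ ≠ 0 := inv_ne_zero hx1
    rw [← ideal_smul hc1 x]
    apply vanish_free hζ hω ha hT hj₁ hcard he hl
    · rwa [degree_smul hc1]
    · rwa [ideal_smul hc1]
    · exact inv_mul_cancel₀ hx1
  · have hXT : ∀ i ∈ T, x i ^ m = ∑ j ∈ Finset.univ \ T, algebraMap k K (e i j) * x j ^ m :=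
      (he K fun j => x j ^ m).1 (diag_le_ideal_iff.1 hX)
    set h : J → ZMod m := Pi.single j₁ 1 with hh
    have hz : (ζ : k) ^ m = 1 := hζ.pow_eq_one
    have hpow : ∀ j, (algebraMap k K ((ζ : k) ^ (h j).val) * x j) ^ m = x j ^ m := by
      intro j
      rw [mul_pow, ← map_pow, ← pow_mul, mul_comm (h j).val, pow_mul, hz, one_pow, map_one, one_mul]
    obtain ⟨g, hg1, hg2⟩ := transitive2 hζ (T := T) (by omega) hl hl hdeg
      (x' := fun j => algebraMap k K ((ζ : k) ^ (h j).val) * x j)
      (by rwa [degree_const (a := fun j => (ζ : k) ^ (h j).val)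
        (fun j => pow_ne_zero _ ζ.ne_zero)]) hx
      (by
        intro h0
        apply hx
        funext j
        have h1 := congrFun h0 j
        rw [Pi.zero_apply, mul_eq_zero] at h1
        rcases h1 with h1 | h1
        · rw [map_eq_zero] at h1
          exact absurd h1 (pow_ne_zero _ ζ.ne_zero)
        · exact h1) e hXT (by
        intro i hi
        rw [hpow, hXT i hi]
        exact Finset.sum_congr rfl fun j _ => by rw [hpow])
    rw [← act_ideal] at hg2
    have h1 : act ζ (-g + h) (ideal k x) = ideal k x := by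
      rw [← act_act hζ1, hg2, act_act hζ1, neg_add_cancel, act_zero]
    rw [op_eq_zero hζ1 ψ h1]
    · exact Submodule.zero_mem _
    · rw [ha]
      have h2 : ∑ j, a j * (-g + h) j = a j₁ := by
        rw [Finset.sum_eq_single j₁]
        · have : g j₁ = 0 := hg1 j₁ fun hh => hj₁ (hT j₁ hh)
          rw [Pi.add_apply, Pi.neg_apply, this, hh, Pi.single_eq_same]
          ring
        · intro j _ hj
          rw [Pi.add_apply, Pi.neg_apply, hh, Pi.single_eq_of_ne hj, add_zero]
          by_cases hjT : j ∈ T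
          · rw [hT j hjT, zero_mul]
          · rw [hg1 j hjT, neg_zero, mul_zero]
        · simp
      rw [h2]
      intro h3
      rw [hω.pow_eq_one_iff_dvd] at h3
      exact hj₁ ((ZMod.val_eq_zero _).1 (Nat.eq_zero_of_dvd_of_lt h3 (ZMod.val_lt _)))

end Pool.Agent.LCyc
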