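import Pool.Agent.LCyc.Vanish
import Pool.Agent.LCyc.Free
import Pool.Agent.DCIG.Final

/-!
# The action of the group algebra on the Chow groups
-/

set_option autoImplicit false

namespace Pool.Agent.LCyc

open Pool.Agent.ZCyc Finset

universe u w

variable {k : Type u} [Field k] {J : Type}

section Basic

variable [Fintype J] [DecidableEq J] {m : ℕ} [NeZero m] {R : Type w} [Field R]

lemma op_eq_sum' (ζ : kˣ) (ψ : AddChar (J → ZMod m) R) (z : Ideal (MvPolynomial J k) →₀ R) :
    op ζ ψ z = ∑ g : J → ZMod m, ψ g • z.mapDomain (act ζ g) := by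
  induction z using Finsupp.induction_linear with
  | zero => simp
  | add y₁ y₂ h₁ h₂ =>
    rw [map_add, h₁, h₂, ← Finset.sum_add_distrib]
    refine Finset.sum_congr rfl fun g _ => ?_
    rw [Finsupp.mapDomain_add, smul_add]
  | single P c =>
    rw [op, Finsupp.linearCombination_single, Finset.smul_sum]
    refine Finset.sum_congr rfl fun g _ => ?_
    rw [Finsupp.mapDomain_single, Finsupp.smul_single, Finsupp.smul_single, smul_eq_mul,
      smul_eq_mul, mul_comm]

omit [Fintype J] [DecidableEq J] in
lemma divisor_map' [CharZero R] {F : Type u} [Field F] [Algebra k F] (x : J → F) (f : F) :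
    (divisor k ℚ x f).mapRange (algebraMap ℚ R) (map_zero _) = divisor k R x f := by
  have hinj : Function.Injective
      (Finsupp.mapRange.addMonoidHom (ι := Ideal (MvPolynomial J k))
        ((algebraMap ℚ R : ℚ →+* R) : ℚ →+ R)) :=
    Finsupp.mapRange_injective _ (map_zero _) (algebraMap ℚ R).injective
  unfold divisor
  have h1 := (Finsupp.mapRange.addMonoidHom (ι := Ideal (MvPolynomial J k))
        ((algebraMap ℚ R : ℚ →+* R) : ℚ →+ R)).map_finsum_of_injective hinj
    (fun v : {v : Place k F // Algebra.trdeg k v.Res + 1 = Algebra.trdeg k F} =>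
      Finsupp.single (ideal k (v.1.center x))
      ((((v.1.ord f : ℤ) - v.1.ord f⁻¹) * degree k (v.1.center x) : ℤ) : ℚ))
  refine Eq.trans h1 (finsum_congr fun v => ?_)
  rw [Finsupp.mapRange.addMonoidHom_apply, Finsupp.mapRange_single]
  congr 1
  exact map_intCast (algebraMap ℚ R) _

/-- extension of coefficients as an additive map -/
noncomputable def ext (R : Type w) [Field R] [CharZero R] :
    (Ideal (MvPolynomial J k) →₀ ℚ) →+ (Ideal (MvPolynomial J k) →₀ R) :=
  Finsupp.mapRange.addMonoidHom ((algebraMap ℚ R : ℚ →+* R) : ℚ →+ R)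

omit [Fintype J] [DecidableEq J] in
lemma ext_single [CharZero R] (P : Ideal (MvPolynomial J k)) (q : ℚ) :
    ext R (Finsupp.single P q) = Finsupp.single P ((q : ℚ) : R) := by
  rw [ext, Finsupp.mapRange.addMonoidHom_apply, Finsupp.mapRange_single]
  simp

omit [Fintype J] [DecidableEq J] in
lemma ext_smul [CharZero R] (q : ℚ) (z : Ideal (MvPolynomial J k) →₀ ℚ) :
    ext R (q • z) = (q : R) • ext R z := by
  induction z using Finsupp.induction_linear with
  | zero => simp
  | add y₁ y₂ h₁ h₂ => rw [smul_add, map_add, map_add, h₁, h₂, smul_add]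
  | single P c =>
    rw [Finsupp.smul_single, ext_single, ext_single, Finsupp.smul_single]
    simp

omit [Fintype J] [DecidableEq J] in
lemma ext_mem [CharZero R] {I : Ideal (MvPolynomial J k)} {l : ℕ}
    {z : Ideal (MvPolynomial J k) →₀ ℚ} (hz : z ∈ ratEquiv ℚ I l) :
    ext R z ∈ ratEquiv R I l := by
  rw [ratEquiv] at hz
  induction hz using Submodule.span_induction with
  | mem y hy =>
    obtain ⟨F, i1, i2, hF, hl, x, hx, hI, f, hf, rfl⟩ := hy
    have h1 : ext R (divisor k ℚ x f) = divisor k R x f := divisor_map' x f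
    rw [h1]
    exact Submodule.subset_span ⟨F, i1, i2, hF, hl, x, hx, hI, f, hf, rfl⟩
  | zero =>
    rw [map_zero]
    exact Submodule.zero_mem _
  | add y₁ y₂ _ _ h₁ h₂ =>
    rw [map_add]
    exact Submodule.add_mem _ h₁ h₂
  | smul q y _ h =>
    rw [ext_smul]
    exact Submodule.smul_mem _ _ h

omit [Fintype J] [DecidableEq J] in
lemma ext_mapDomain [CharZero R] (g : Ideal (MvPolynomial J k) → Ideal (MvPolynomial J k))
    (z : Ideal (MvPolynomial J k) →₀ ℚ) : ext R (z.mapDomain g) = (ext R z).mapDomain g := by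
  induction z using Finsupp.induction_linear with
  | zero => simp
  | add y₁ y₂ h₁ h₂ => rw [Finsupp.mapDomain_add, map_add, map_add, h₁, h₂, Finsupp.mapDomain_add]
  | single P c => rw [Finsupp.mapDomain_single, ext_single, ext_single, Finsupp.mapDomain_single]

/-- scalar multiplication of all coordinates -/
lemma act_const [Finite J] [Infinite k] {ζ : kˣ} (n : ZMod m) {I : Ideal (MvPolynomial J k)}
    {l : ℕ} {P : Ideal (MvPolynomial J k)} (hP : IsPrimeCycle I l P) :
    act ζ (fun _ => n) P = P := by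
  obtain ⟨K, _, _, x, _, _, _, hPx⟩ := exists_point hP
  rw [hPx, act_ideal]
  apply ideal_smul
  simp

end Basic

section Algebra

variable [IsAlgClosed k] [CharZero k] [Fintype J] [DecidableEq J] {m : ℕ} [NeZero m]

/-- The action of the group algebra on the Chow groups. -/
theorem algebra_cycle {ζ : kˣ} (hζ : IsPrimitiveRoot (ζ : k) m) {r l : ℕ} (c : Fin r → J → k)
    (hm : (m ≤ 5 ∨ m = 7) ∨ (r + l - 1) * m + m / 2 + 2 ≤ Fintype.card J)
    (α : (J → ZMod m) → ℚ)
    (hα : ∀ b : J → ℕ, (∀ j, 1 ≤ b j) → ∑ j, b j = (r + l) * m →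
      Submodule.span k ((fun j i => c i j) '' {j | m ∣ b j}) ≠ ⊤ →
      ∑ g, (α g : k) * (ζ : k) ^ (∑ j, (b j : ZMod m) * g j).val = 0)
    (z : Ideal (MvPolynomial J k) →₀ ℚ) (hz : ∀ P ∈ z.support, IsPrimeCycle (diag m c) l P)
    (hdeg : ∑ g : J → ZMod m, z.mapDomain (act ζ g) ∈ ratEquiv ℚ (diag m c) l) :
    ∑ g, α g • z.mapDomain (act ζ g) ∈ ratEquiv ℚ (diag m c) l := by
  classical
  have hm0 : 0 < m := NeZero.pos m
  have hζ1 : ζ ^ m = 1 := zeta_pow hζ
  have hω := Complex.isPrimitiveRoot_exp m (NeZero.ne m)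
  set ω : ℂ := Complex.exp (2 * Real.pi * Complex.I / m) with hωdef
  apply descent (R := ℂ)
  change ext ℂ _ ∈ _
  set Z : Ideal (MvPolynomial J k) →₀ ℂ := ext ℂ z with hZ
  -- each character
  have key : ∀ ψ : AddChar (J → ZMod m) ℂ,
      (∑ h, (α h : ℂ) * ψ (-h)) • op ζ ψ Z ∈ ratEquiv ℂ (diag m c) l := by
    intro ψ
    by_cases hψα : ∑ h, (α h : ℂ) * ψ (-h) = 0
    · rw [hψα, zero_smul]
      exact Submodule.zero_mem _
    apply Submodule.smul_mem
    obtain ⟨a, ha⟩ := Pool.Agent.DCI57.exists_exponents hω ψ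
    by_cases h0 : ∀ j, a j = 0
    · have h1 : ∀ t, ψ t = 1 := by
        intro t
        rw [ha]
        simp [h0]
      rw [op_eq_sum']
      simp only [h1, one_smul]
      have h2 := ext_mem (R := ℂ) hdeg
      rw [map_sum] at h2
      simpa only [ext_mapDomain] using h2
    push Not at h0
    have hprime : ∀ P, IsPrimeCycle (diag m c) l P →
        op ζ ψ (Finsupp.single P 1) ∈ ratEquiv ℂ (diag m c) l := by
      intro P hP
      by_cases hcols : Submodule.span k ((fun j i => c i j) '' {j | a j = 0}) = ⊤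
      · obtain ⟨j₁, hj₁⟩ := h0
        exact vanish_cols hζ hω ha hj₁ hcols hP
      by_cases hsum : ∑ j, a j = 0
      · set S : Finset J := Finset.univ.filter fun j => a j ≠ 0 with hSdef
        have hS : ∀ j, j ∈ S ↔ a j ≠ 0 := by
          intro j
          simp [hSdef]
        have hne : S.Nonempty := by
          obtain ⟨j, hj⟩ := h0
          exact ⟨j, (hS j).2 hj⟩
        obtain ⟨e, b, hb, hbsum, hcard⟩ := Pool.Agent.DCIG.exists_blocks hm (a := a) (by
          intro u b hb1 hb2 hb3
          apply hψα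
          have hset : {j | m ∣ b j} = {j | a j = 0} := by
            ext j
            rw [Set.mem_ofPred_eq, Set.mem_ofPred_eq, ← ZMod.natCast_eq_zero_iff, hb3]
            exact u.mul_right_eq_zero
          have h1 := hα b hb1 hb2 (by rwa [hset])
          -- the root of unity `ω ^ (-u⁻¹)`
          have h2 : IsPrimitiveRoot (ω ^ ((-u⁻¹ : (ZMod m)ˣ) : ZMod m).val) m :=
            hω.pow_of_coprime _ (ZMod.val_coe_unit_coprime _)
          have h3 := Pool.Agent.DCI57.conj_relation hζ h2 α
            (fun g => (∑ j, (b j : ZMod m) * g j).val) h1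
          rw [← h3]
          apply Finset.sum_congr rfl
          intro g _
          congr 1
          rw [ha, ← Pool.Agent.DCI57.pow_val_mul hω]
          congr 2
          simp only [hb3]
          rw [Finset.mul_sum]
          apply Finset.sum_congr rfl
          intro j _
          have h4 : ((-u⁻¹ : (ZMod m)ˣ) : ZMod m) * ((u : ZMod m) * a j * g j) =
              -(((u⁻¹ : (ZMod m)ˣ) : ZMod m) * (u : ZMod m)) * (a j * g j) := by
            push_cast
            ring
          rw [h4, Units.inv_mul, Pi.neg_apply]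
          ring) hsum hS hne
        have himage : S.image b = Finset.univ := by
          ext B
          simp only [Finset.mem_image, Finset.mem_univ, iff_true]
          exact hb B
        apply vanish hζ hω ha hS hne hbsum _ hP
        rw [himage, Finset.card_univ, Fintype.card_fin]
        omega
      · have h1 : ψ (fun _ => 1) ≠ 1 := by
          rw [ha]
          intro h2
          rw [hω.pow_eq_one_iff_dvd] at h2
          apply hsum
          have h3 := (ZMod.val_eq_zero _).1 (Nat.eq_zero_of_dvd_of_lt h2 (ZMod.val_lt _))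
          simpa using h3
        rw [op_eq_zero hζ1 ψ (act_const 1 hP) h1]
        exact Submodule.zero_mem _
    have h2 : Z = ∑ P ∈ z.support, ((z P : ℚ) : ℂ) • Finsupp.single P (1 : ℂ) := by
      rw [hZ]
      conv_lhs => rw [← z.sum_single]
      rw [Finsupp.sum, map_sum]
      apply Finset.sum_congr rfl
      intro P _
      rw [ext_single, Finsupp.smul_single, smul_eq_mul, mul_one]
    rw [h2, map_sum]
    apply Submodule.sum_mem
    intro P hP
    rw [map_smul]
    exact Submodule.smul_mem _ _ (hprime P (hz P hP))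
  -- summation over all characters
  have hsum : ∑ ψ : AddChar (J → ZMod m) ℂ, (∑ h, (α h : ℂ) * ψ (-h)) • op ζ ψ Z =
      (Fintype.card (J → ZMod m) : ℂ) • ∑ g, (α g : ℂ) • Z.mapDomain (act ζ g) := by
    simp only [op_eq_sum', Finset.smul_sum]
    rw [Finset.sum_comm]
    apply Finset.sum_congr rfl
    intro g _
    have h1 : ∀ ψ : AddChar (J → ZMod m) ℂ, (∑ h, (α h : ℂ) * ψ (-h)) •
        ψ g • Z.mapDomain (act ζ g) =
        (∑ h, (α h : ℂ) * ψ (g - h)) • Z.mapDomain (act ζ g) := by
      intro ψ
      rw [smul_smul, Finset.sum_mul]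
      congr 1
      apply Finset.sum_congr rfl
      intro h _
      rw [sub_eq_add_neg, AddChar.map_add_eq_mul]
      ring
    rw [Finset.sum_congr rfl fun ψ _ => h1 ψ, ← Finset.sum_smul, Finset.sum_comm]
    have h2 : ∀ h : J → ZMod m, ∑ ψ : AddChar (J → ZMod m) ℂ, (α h : ℂ) * ψ (g - h) =
        if h = g then (α h : ℂ) * (Fintype.card (J → ZMod m) : ℂ) else 0 := by
      intro h
      rw [← Finset.mul_sum, AddChar.sum_apply_eq_ite]
      by_cases hg : h = g
      · rw [if_pos hg, if_pos (sub_eq_zero.2 hg.symm)]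
      · rw [if_neg hg, if_neg fun h' => hg (sub_eq_zero.1 h').symm, mul_zero]
    rw [Finset.sum_congr rfl fun h _ => h2 h, Finset.sum_ite_eq' Finset.univ g]
    simp only [Finset.mem_univ, if_true]
    rw [smul_smul, mul_comm]
  have hext : ext ℂ (∑ g, α g • z.mapDomain (act ζ g)) =
      ∑ g, (α g : ℂ) • Z.mapDomain (act ζ g) := by
    rw [map_sum]
    apply Finset.sum_congr rfl
    intro g _
    rw [ext_smul, ext_mapDomain]
  rw [hext]
  have hfin : (Fintype.card (J → ZMod m) : ℂ) • ∑ g, (α g : ℂ) • Z.mapDomain (act ζ g) ∈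
      ratEquiv ℂ (diag m c) l := by
    rw [← hsum]
    exact Submodule.sum_mem _ fun ψ _ => key ψ
  exact (Submodule.smul_mem_iff _ (Nat.cast_ne_zero.2 Fintype.card_ne_zero)).1 hfin

end Algebra

end Pool.Agent.LCyc
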