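import Pool.Agent.LCyc.Triv
import Pool.Agent.LCyc.Final

/-!
# The action of the group algebra on the Chow groups, without hypothesis on the cycles
-/

set_option autoImplicit false

namespace Pool.Agent.LCyc

open Pool.Agent.ZCyc Finset

universe u w

variable {k : Type u} [Field k] {J : Type}

lemma trdeg_act_le {m : ℕ} (ζ : kˣ) (g : J → ZMod m) (P : Ideal (MvPolynomial J k)) :
    Algebra.trdeg k (MvPolynomial J k ⧸ act ζ g P) ≤ Algebra.trdeg k (MvPolynomial J k ⧸ P) := by
  unfold act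
  set φ : MvPolynomial J k →ₐ[k] MvPolynomial J k := MvPolynomial.aeval fun j =>
      MvPolynomial.C ((ζ : k) ^ (g j).val) * MvPolynomial.X j with hφ
  have h1 : P.comap φ ≤ P.comap (φ : MvPolynomial J k →+* MvPolynomial J k) := le_rfl
  have h2 : Function.Injective (Ideal.quotientMapₐ P φ le_rfl) :=
    Ideal.quotientMap_injective' (H := h1) le_rfl
  exact trdeg_le_of_injective (Ideal.quotientMapₐ P φ le_rfl) h2

section

variable [Fintype J] {m : ℕ} [NeZero m]

lemma isPrimeCycle_act [Infinite k] {ζ : kˣ} (hζ : ζ ^ m = 1) {r l : ℕ} {c : Fin r → J → k}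
    {P : Ideal (MvPolynomial J k)} (hP : IsPrimeCycle (diag m c) l P) (g : J → ZMod m) :
    IsPrimeCycle (diag m c) l (act ζ g P) := by
  have hz : (ζ : k) ^ m = 1 := by
    have := congrArg Units.val hζ
    simpa using this
  have hprime := hP.1
  refine ⟨?_, ?_, ?_, ?_⟩
  · exact Ideal.comap_isPrime _ _
  · have h1 := hP.2.1
    obtain ⟨K, _, _, x, _, _, _, hPx⟩ := exists_point hP
    rw [hPx, diag_le_ideal_iff] at h1
    rw [hPx, act_ideal, diag_le_ideal_iff]
    intro i
    rw [← h1 i]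
    apply Finset.sum_congr rfl
    intro j _
    rw [mul_pow, ← map_pow, ← pow_mul, mul_comm (g j).val, pow_mul, hz, one_pow, map_one, one_mul]
  · obtain ⟨K, _, _, x, _, _, _, hPx⟩ := exists_point hP
    rw [hPx, act_ideal]
    intro f hf n
    rw [mem_ideal] at hf ⊢
    intro n'
    by_cases hn : n' = n
    · subst hn
      rw [MvPolynomial.homogeneousComponent_of_mem
        (MvPolynomial.homogeneousComponent_mem n' f), if_pos rfl]
      exact hf n'
    · rw [MvPolynomial.homogeneousComponent_of_mem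
        (MvPolynomial.homogeneousComponent_mem n f), if_neg hn, map_zero]
  · apply le_antisymm
    · exact (trdeg_act_le ζ g P).trans_eq hP.2.2.2
    · have h1 := trdeg_act_le ζ (-g) (act ζ g P)
      rw [act_act hζ, neg_add_cancel, act_zero, hP.2.2.2] at h1
      exact h1

end

section Invariant

variable [Fintype J] [DecidableEq J] {m : ℕ} [NeZero m] {ζ : kˣ}

lemma op_one_eq (z : Ideal (MvPolynomial J k) →₀ ℚ) :
    op ζ (1 : AddChar (J → ZMod m) ℚ) z = ∑ g : J → ZMod m, z.mapDomain (act ζ g) := by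
  rw [op_eq_sum']
  simp

/-- invariance -/
lemma mapDomain_op (hζ : ζ ^ m = 1) (g : J → ZMod m) (P : Ideal (MvPolynomial J k)) :
    (op ζ (1 : AddChar (J → ZMod m) ℚ) (Finsupp.single P 1)).mapDomain (act ζ g) =
      op ζ (1 : AddChar (J → ZMod m) ℚ) (Finsupp.single P 1) := by
  rw [op_single, Finsupp.mapDomain_finsetSum]
  simp only [Finsupp.mapDomain_single, act_act hζ, AddChar.one_apply]
  exact Fintype.sum_equiv (Equiv.addLeft g) _ _ fun h => rfl

/-- the invariant part is generated by an invariant cycle -/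
theorem exists_invariant [IsAlgClosed k] [CharZero k] (hζ : IsPrimitiveRoot (ζ : k) m) {r : ℕ}
    (l : ℕ) (c : Fin r → J → k) :
    ∃ (z₀ : Ideal (MvPolynomial J k) →₀ ℚ) (d : (Ideal (MvPolynomial J k) →₀ ℚ) →ₗ[ℚ] ℚ),
      (∀ P ∈ z₀.support, IsPrimeCycle (diag m c) l P) ∧
      (∀ g : J → ZMod m, z₀.mapDomain (act ζ g) = z₀) ∧
      ∀ z : Ideal (MvPolynomial J k) →₀ ℚ, (∀ P ∈ z.support, IsPrimeCycle (diag m c) l P) →
        ∑ g : J → ZMod m, z.mapDomain (act ζ g) - ((Fintype.card (J → ZMod m) : ℚ) * d z) • z₀ ∈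
          ratEquiv ℚ (diag m c) l := by
  classical
  have hζ1 : ζ ^ m = 1 := zeta_pow hζ
  have hpt : ∀ P, IsPrimeCycle (diag m c) l P → IsPt (diag m c) l P := by
    intro P hP
    have hI := hP.2.1
    obtain ⟨K, i1, i2, x, hx, hl, hdeg, hPx⟩ := exists_point hP
    exact ⟨K, i1, i2, x, hx, hl, hdeg, hPx ▸ hI, hPx⟩
  obtain ⟨z₁, -, h1⟩ := invariant (R := ℚ) hζ l _ r c le_rfl
  obtain ⟨z₀, hz₀, h2⟩ : ∃ z₀ : Ideal (MvPolynomial J k) →₀ ℚ,
      (z₀ = 0 ∨ ∃ P, IsPrimeCycle (diag m c) l P ∧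
        z₀ = op ζ (1 : AddChar (J → ZMod m) ℚ) (Finsupp.single P 1)) ∧
      ∀ P, IsPrimeCycle (diag m c) l P →
        op ζ (1 : AddChar (J → ZMod m) ℚ) (Finsupp.single P 1) ∈
          ratEquiv ℚ (diag m c) l ⊔ Submodule.span ℚ {z₀} := by
    by_cases h : ∀ P, IsPrimeCycle (diag m c) l P →
        op ζ (1 : AddChar (J → ZMod m) ℚ) (Finsupp.single P 1) ∈ ratEquiv ℚ (diag m c) l
    · exact ⟨0, Or.inl rfl, fun P hP => Submodule.mem_sup_left (h P hP)⟩
    · push Not at h
      obtain ⟨P₀, hP₀, h3⟩ := h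
      refine ⟨_, Or.inr ⟨P₀, hP₀, rfl⟩, fun P hP => ?_⟩
      have h4 : z₁ ∈ ratEquiv ℚ (diag m c) l ⊔ Submodule.span ℚ
          {op ζ (1 : AddChar (J → ZMod m) ℚ) (Finsupp.single P₀ 1)} := by
        obtain ⟨e, he, y, hy, h5⟩ := Submodule.mem_sup.1 (h1 P₀ (hpt P₀ hP₀))
        obtain ⟨q, rfl⟩ := Submodule.mem_span_singleton.1 hy
        have hq : q ≠ 0 := by
          intro hq
          rw [hq, zero_smul, add_zero] at h5
          exact h3 (h5 ▸ he)
        have h6 : z₁ = q⁻¹ • (op ζ (1 : AddChar (J → ZMod m) ℚ) (Finsupp.single P₀ 1) - e) := by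
          rw [← h5, add_sub_cancel_left, smul_smul, inv_mul_cancel₀ hq, one_smul]
        rw [h6]
        apply Submodule.smul_mem
        exact Submodule.sub_mem _ (Submodule.mem_sup_right (Submodule.mem_span_singleton_self _))
          (Submodule.mem_sup_left he)
      refine (sup_le le_sup_left ?_ : ratEquiv ℚ (diag m c) l ⊔ Submodule.span ℚ {z₁} ≤ _)
        (h1 P (hpt P hP))
      rw [Submodule.span_singleton_le_iff_mem]
      exact h4
  have h3 : ∀ P, ∃ q : ℚ, IsPrimeCycle (diag m c) l P →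
      op ζ (1 : AddChar (J → ZMod m) ℚ) (Finsupp.single P 1) - q • z₀ ∈
        ratEquiv ℚ (diag m c) l := by
    intro P
    by_cases hP : IsPrimeCycle (diag m c) l P
    · obtain ⟨e, he, y, hy, h5⟩ := Submodule.mem_sup.1 (h2 P hP)
      obtain ⟨q, rfl⟩ := Submodule.mem_span_singleton.1 hy
      refine ⟨q, fun _ => ?_⟩
      rw [← h5, add_sub_cancel_right]
      exact he
    · exact ⟨0, fun h => absurd h hP⟩
  choose q hq using h3
  have hG : (Fintype.card (J → ZMod m) : ℚ) ≠ 0 := Nat.cast_ne_zero.2 Fintype.card_ne_zero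
  refine ⟨z₀, Finsupp.linearCombination ℚ fun P => (Fintype.card (J → ZMod m) : ℚ)⁻¹ * q P,
    ?_, ?_, ?_⟩
  · rcases hz₀ with rfl | ⟨P, hP, rfl⟩
    · simp
    · intro Q hQ
      rw [op_single] at hQ
      obtain ⟨g, -, hg⟩ := Finset.mem_biUnion.1 (Finsupp.support_finsetSum hQ)
      have h4 := Finsupp.support_single_subset hg
      rw [Finset.mem_singleton] at h4
      rw [h4]
      exact isPrimeCycle_act hζ1 hP g
  · intro g
    rcases hz₀ with rfl | ⟨P, hP, rfl⟩
    · exact Finsupp.mapDomain_zero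
    · exact mapDomain_op hζ1 g P
  · intro z hz
    have hz1 : op ζ (1 : AddChar (J → ZMod m) ℚ) z =
        ∑ P ∈ z.support, op ζ (1 : AddChar (J → ZMod m) ℚ) (Finsupp.single P (z P)) := by
      conv_lhs => rw [← z.sum_single, Finsupp.sum, map_sum]
    rw [← op_one_eq, hz1, Finsupp.linearCombination_apply, Finsupp.sum, Finset.mul_sum,
      Finset.sum_smul, ← Finset.sum_sub_distrib]
    apply Submodule.sum_mem
    intro P hP
    have h4 : op ζ (1 : AddChar (J → ZMod m) ℚ) (Finsupp.single P (z P)) -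
        ((Fintype.card (J → ZMod m) : ℚ) *
          (z P • ((Fintype.card (J → ZMod m) : ℚ)⁻¹ * q P))) • z₀ =
        z P • (op ζ (1 : AddChar (J → ZMod m) ℚ) (Finsupp.single P 1) - q P • z₀) := by
      have h5 : (Fintype.card (J → ZMod m) : ℚ) *
          (z P • ((Fintype.card (J → ZMod m) : ℚ)⁻¹ * q P)) = z P * q P := by
        rw [smul_eq_mul]
        field_simp
      have h6 : z P • Finsupp.single P (1 : ℚ) = Finsupp.single P (z P) := by
        rw [Finsupp.smul_single, smul_eq_mul, mul_one]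
      rw [h5, smul_sub, ← map_smul, h6, smul_smul]
    rw [h4]
    exact Submodule.smul_mem _ _ (hq P (hz P hP))

end Invariant

section Algebra

variable [IsAlgClosed k] [CharZero k] [Fintype J] [DecidableEq J] {m : ℕ} [NeZero m]

/-- The action of the group algebra on the Chow groups. -/
theorem algebra_main {ζ : kˣ} (hζ : IsPrimitiveRoot (ζ : k) m) {r l : ℕ} (c : Fin r → J → k)
    (hm : (m ≤ 5 ∨ m = 7) ∨ (r + l - 1) * m + m / 2 + 2 ≤ Fintype.card J) :
    ∃ (z₀ : Ideal (MvPolynomial J k) →₀ ℚ) (d : (Ideal (MvPolynomial J k) →₀ ℚ) →ₗ[ℚ] ℚ),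
      (∀ P ∈ z₀.support, IsPrimeCycle (diag m c) l P) ∧
      ∀ α : (J → ZMod m) → ℚ,
        (∀ b : J → ℕ, (∀ j, 1 ≤ b j) → ∑ j, b j = (r + l) * m →
          Submodule.span k ((fun j i => c i j) '' {j | m ∣ b j}) ≠ ⊤ →
          ∑ g, (α g : k) * (ζ : k) ^ (∑ j, (b j : ZMod m) * g j).val = 0) →
        ∀ z : Ideal (MvPolynomial J k) →₀ ℚ, (∀ P ∈ z.support, IsPrimeCycle (diag m c) l P) →
          ∑ g, α g • z.mapDomain (act ζ g) - ((∑ g, α g) * d z) • z₀ ∈
            ratEquiv ℚ (diag m c) l := by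
  classical
  obtain ⟨z₀, d, h1, h2, h3⟩ := exists_invariant hζ l c
  refine ⟨z₀, d, h1, fun α hα z hz => ?_⟩
  have hmap : ∀ g : J → ZMod m, (z - d z • z₀).mapDomain (act ζ g) =
      z.mapDomain (act ζ g) - d z • z₀ := by
    intro g
    rw [sub_eq_add_neg, ← neg_smul, Finsupp.mapDomain_add, Finsupp.mapDomain_smul, h2 g,
      neg_smul, ← sub_eq_add_neg]
  have h4 := algebra_cycle hζ c hm α hα (z - d z • z₀) ?_ ?_
  · simp only [hmap] at h4
    convert h4 using 1
    simp only [smul_sub, Finset.sum_sub_distrib, smul_smul]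
    rw [← Finset.sum_smul, ← Finset.sum_mul]
  · intro P hP
    have h5 := Finsupp.support_sub hP
    rcases Finset.mem_union.1 h5 with h5 | h5
    · exact hz P h5
    · exact h1 P (Finsupp.support_smul h5)
  · simp only [hmap]
    rw [Finset.sum_sub_distrib, Finset.sum_const, Finset.card_univ, ← Nat.cast_smul_eq_nsmul ℚ,
      smul_smul]
    exact h3 z hz

end Algebra

end Pool.Agent.LCyc
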