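import Pool.Agent.LCyc.Ideal
import Pool.Agent.LCyc.Sol

/-! LC12: the components of the covering of a projective space are permuted transitively. -/

set_option autoImplicit false

open Polynomial

namespace Pool.Agent.LCyc

universe u

variable {k : Type u} [Field k] {J : Type}

/-- the coordinates times an indeterminate -/
private noncomputable def zz {K : Type u} [Field K] (x : J → K) (j : J) : RatFunc K :=
  algebraMap K[X] (RatFunc K) (C (x j) * X)

private lemma zz_eq {K : Type u} [Field K] (x : J → K) (j : J) :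
    zz x j = algebraMap K (RatFunc K) (x j) * RatFunc.X := by
  unfold zz
  rw [map_mul, RatFunc.algebraMap_X, RatFunc.algebraMap_C, RatFunc.algebraMap_eq_C]

private lemma ideal_eq_ker {K : Type u} [Field K] [Algebra k K] (x : J → K) :
    ideal k x = RingHom.ker (MvPolynomial.aeval (zz x) : MvPolynomial J k →ₐ[k] RatFunc K) := by
  unfold ideal
  ext f
  rw [RingHom.mem_ker, RingHom.mem_ker]
  have h : (MvPolynomial.aeval (zz x) : MvPolynomial J k →ₐ[k] RatFunc K) f =
      algebraMap K[X] (RatFunc K) ((MvPolynomial.aeval fun j => Polynomial.C (x j) *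
        Polynomial.X : MvPolynomial J k →ₐ[k] Polynomial K) f) := by
    have := MvPolynomial.comp_aeval_apply (fun j => (Polynomial.C (x j) * Polynomial.X : K[X]))
      (IsScalarTower.toAlgHom k K[X] (RatFunc K)) f
    exact this.symm
  rw [h]
  exact (map_eq_zero_iff _ (RatFunc.algebraMap_injective K)).symm

/-- the solutions of the linear equations with values in an extension field -/
private lemma lin_sol [Fintype J] {r : ℕ} (c : Fin r → J → k) :
    ∃ (b t : Fin (Module.finrank k (sol c)) → J → k),
      ∀ (R : Type u) [Field R] [Algebra k R] (y : J → R),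
        (∀ i, ∑ j, algebraMap k R (c i j) * y j = 0) →
        ∀ j, y j = ∑ a, algebraMap k R (b a j) * ∑ i, algebraMap k R (t a i) * y i := by
  classical
  let B := Module.finBasis k (sol c)
  choose lam hlam using fun a => LinearMap.exists_extend (B.coord a)
  refine ⟨fun a j => (B a : J → k) j, fun a i => lam a (Pi.single i 1), ?_⟩
  intro R _ _ y hy j
  let Ci : Fin r → (J → k) →ₗ[k] k := fun i => ∑ j, c i j • LinearMap.proj j
  let Fj : (J → k) →ₗ[k] k := LinearMap.proj j - ∑ a, (B a : J → k) j • lam a
  have hle : ⨅ i, LinearMap.ker (Ci i) ≤ LinearMap.ker Fj := by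
    intro w hw
    rw [Submodule.mem_iInf] at hw
    have hw' : w ∈ sol c := by
      intro i
      have := hw i
      rw [LinearMap.mem_ker] at this
      simpa [Ci, LinearMap.sum_apply] using this
    rw [LinearMap.mem_ker]
    have h1 : ∀ a, lam a w = B.coord a ⟨w, hw'⟩ := fun a => by
      have := LinearMap.congr_fun (hlam a) ⟨w, hw'⟩
      exact this
    have h2 : w = ∑ a, lam a w • (B a : J → k) := by
      have h3 := B.sum_repr ⟨w, hw'⟩
      have h4 := congrArg (fun v : sol c => (v : J → k)) h3
      simp only [Submodule.coe_sum, Submodule.coe_smul] at h4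
      rw [← h4]
      refine Finset.sum_congr rfl fun a _ => ?_
      rw [h4, h1]
      rfl
    have h5 := congrFun h2 j
    simp only [Finset.sum_apply, Pi.smul_apply, smul_eq_mul] at h5
    simp only [Fj, LinearMap.sub_apply, LinearMap.proj_apply, LinearMap.sum_apply,
      LinearMap.smul_apply, smul_eq_mul]
    rw [sub_eq_zero]
    conv_lhs => rw [h5]
    exact Finset.sum_congr rfl fun a _ => mul_comm _ _
  obtain ⟨u, hu⟩ := (Submodule.mem_span_range_iff_exists_fun k).1
    (mem_span_of_iInf_ker_le_ker hle)
  have h6 : ∀ i', (if j = i' then (1 : k) else 0) - ∑ a, (B a : J → k) j * lam a (Pi.single i' 1) =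
      ∑ i, u i * c i i' := by
    intro i'
    have := LinearMap.congr_fun hu (Pi.single i' 1)
    simp only [Ci, Fj, LinearMap.sub_apply, LinearMap.proj_apply, LinearMap.sum_apply,
      LinearMap.smul_apply, smul_eq_mul, Pi.single_apply] at this
    rw [← this]
    refine Finset.sum_congr rfl fun i _ => ?_
    congr 1
    simp
  have h7 : ∑ i', algebraMap k R ((if j = i' then (1 : k) else 0) -
      ∑ a, (B a : J → k) j * lam a (Pi.single i' 1)) * y i' = 0 := by
    simp only [h6, map_sum, map_mul, Finset.sum_mul]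
    rw [Finset.sum_comm]
    refine Finset.sum_eq_zero fun i _ => ?_
    have := hy i
    calc ∑ i', algebraMap k R (u i) * algebraMap k R (c i i') * y i'
        = algebraMap k R (u i) * ∑ i', algebraMap k R (c i i') * y i' := by
          rw [Finset.mul_sum]
          exact Finset.sum_congr rfl fun _ _ => mul_assoc _ _ _
      _ = 0 := by rw [this, mul_zero]
  simp only [map_sub, sub_mul, Finset.sum_sub_distrib, sub_eq_zero] at h7
  have h8 : ∑ i', algebraMap k R (if j = i' then (1 : k) else 0) * y i' = y j := by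
    rw [Finset.sum_eq_single j]
    · simp
    · intro b _ hb
      rw [if_neg (Ne.symm hb), map_zero, zero_mul]
    · intro h
      exact absurd (Finset.mem_univ _) h
  rw [← h8, h7]
  simp only [map_sum, map_mul, Finset.sum_mul, Finset.mul_sum]
  rw [Finset.sum_comm]
  exact Finset.sum_congr rfl fun _ _ => Finset.sum_congr rfl fun _ _ => by ring

/-- the field of rational functions is algebraic over the field generated by the `zz x j` -/
private lemma alg_aux {K : Type u} [Field K] [Algebra k K] {x : J → K} (hdeg : degree k x ≠ 0)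
    (hx : x ≠ 0) (E : IntermediateField k (RatFunc K)) (hz : ∀ j, IsAlgebraic E (zz x j)) :
    Algebra.IsAlgebraic E (RatFunc K) := by
  have hfd : FiniteDimensional (ratios k x) K := FiniteDimensional.of_finrank_pos
    (Nat.pos_of_ne_zero hdeg)
  let A : IntermediateField E (RatFunc K) := algebraicClosure E (RatFunc K)
  have hA : ∀ a, a ∈ A ↔ IsAlgebraic E a := fun a => mem_algebraicClosure_iff
  have hzA : ∀ j, zz x j ∈ A := fun j => (hA _).2 (hz j)
  obtain ⟨j₀, hj₀⟩ : ∃ j, x j ≠ 0 := by
    by_contra h
    exact hx (funext fun j => not_not.1 fun h1 => h ⟨j, h1⟩)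
  have hX0 : (RatFunc.X : RatFunc K) ≠ 0 := RatFunc.X_ne_zero
  have hr : ∀ a ∈ ratios k x, algebraMap K (RatFunc K) a ∈ A := by
    intro a ha
    unfold ratios at ha
    induction ha using IntermediateField.adjoin_induction with
    | mem a ha =>
      obtain ⟨p, rfl⟩ := ha
      have h1 : algebraMap K (RatFunc K) (x p.1 / x p.2) = zz x p.1 / zz x p.2 := by
        rw [zz_eq, zz_eq, map_div₀, mul_div_mul_right _ _ hX0]
      show algebraMap K (RatFunc K) (x p.1 / x p.2) ∈ A
      rw [h1]
      exact A.div_mem (hzA _) (hzA _)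
    | algebraMap a =>
      have : algebraMap K (RatFunc K) (algebraMap k K a) =
          algebraMap E (RatFunc K) (algebraMap k E a) := by
        rw [← IsScalarTower.algebraMap_apply, ← IsScalarTower.algebraMap_apply]
      rw [this]
      exact A.algebraMap_mem _
    | add a b _ _ h1 h2 => rw [map_add]; exact A.add_mem h1 h2
    | inv a _ h1 => rw [map_inv₀]; exact A.inv_mem h1
    | mul a b _ _ h1 h2 => rw [map_mul]; exact A.mul_mem h1 h2
  let ψ : ratios k x →+* A := ((algebraMap K (RatFunc K)).comp
    (algebraMap (ratios k x) K)).codRestrict A (fun a => hr _ a.2)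
  let _ : Algebra (ratios k x) A := ψ.toAlgebra
  have hst : IsScalarTower (ratios k x) A (RatFunc K) :=
    IsScalarTower.of_algebraMap_eq fun _ => rfl
  have hK : ∀ a : K, algebraMap K (RatFunc K) a ∈ A := by
    intro a
    rw [hA]
    have h1 : IsAlgebraic (ratios k x) a := Algebra.IsAlgebraic.isAlgebraic a
    have h2 : IsAlgebraic (ratios k x) (algebraMap K (RatFunc K) a) := h1.algebraMap
    have h3 : IsAlgebraic A (algebraMap K (RatFunc K) a) :=
      h2.extendScalars ψ.injective
    exact h3.restrictScalars E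
  have hX : (RatFunc.X : RatFunc K) ∈ A := by
    have h1 : (RatFunc.X : RatFunc K) = zz x j₀ / algebraMap K (RatFunc K) (x j₀) := by
      rw [zz_eq, mul_div_cancel_left₀]
      exact (_root_.map_ne_zero _).2 hj₀
    rw [h1]
    exact A.div_mem (hzA _) (hK _)
  refine ⟨fun a => (hA a).1 ?_⟩
  have ha : a ∈ (⊤ : IntermediateField K (RatFunc K)) := IntermediateField.mem_top
  rw [← RatFunc.adjoin_X] at ha
  induction ha using IntermediateField.adjoin_induction with
  | mem a ha =>
    rw [Set.mem_singleton_iff] at ha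
    rw [ha]
    exact hX
  | algebraMap a => exact hK a
  | add a b _ _ h1 h2 => exact A.add_mem h1 h2
  | inv a _ h1 => exact A.inv_mem h1
  | mul a b _ _ h1 h2 => exact A.mul_mem h1 h2

open Algebra in
private lemma trdeg_ratFunc {K : Type u} [Field K] [Algebra k K] {l : ℕ}
    (hl : Algebra.trdeg k K = (l : ℕ)) : Algebra.trdeg k (RatFunc K) = (l + 1 : ℕ) := by
  have e1 : Algebra.trdeg K (RatFunc K) = 1 := by
    rw [← trdeg_add_eq K K[X] (A := RatFunc K), Polynomial.trdeg_of_isDomain,
      trdeg_eq_zero_iff.2 (IsLocalization.isAlgebraic _ (nonZeroDivisors K[X])), add_zero]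
  rw [← trdeg_add_eq k K (A := RatFunc K), hl, e1]
  push_cast
  rfl

open scoped IntermediateField.algebraAdjoinAdjoin in
/-- the parameters form a transcendence basis -/
private lemma basis_aux [Fintype J] {m : ℕ} [NeZero m] {l : ℕ}
    {K : Type u} [Field K] [Algebra k K] {x : J → K}
    (hl : Algebra.trdeg k K = (l : ℕ)) (hdeg : degree k x ≠ 0) (hx : x ≠ 0)
    {d : ℕ} (hd : d ≤ l + 1) (b t : Fin d → J → k)
    (hbt : ∀ j, zz x j ^ m = ∑ a, algebraMap k (RatFunc K) (b a j) *
      ∑ i, algebraMap k (RatFunc K) (t a i) * zz x i ^ m) :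
    IsTranscendenceBasis k fun a => ∑ i, algebraMap k (RatFunc K) (t a i) * zz x i ^ m := by
  set s : Fin d → RatFunc K := fun a => ∑ i, algebraMap k (RatFunc K) (t a i) * zz x i ^ m with hs
  have hE : Algebra.IsAlgebraic (IntermediateField.adjoin k (Set.range s)) (RatFunc K) := by
    refine alg_aux hdeg hx _ fun j => ?_
    have hy : zz x j ^ m ∈ IntermediateField.adjoin k (Set.range s) := by
      rw [hbt j]
      refine sum_mem fun a _ => mul_mem (IntermediateField.algebraMap_mem _ _) ?_
      exact IntermediateField.subset_adjoin k _ ⟨a, rfl⟩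
    refine IsAlgebraic.of_pow (Nat.pos_of_ne_zero (NeZero.ne m)) ?_
    exact isAlgebraic_algebraMap (⟨_, hy⟩ : IntermediateField.adjoin k (Set.range s))
  have hA : Algebra.IsAlgebraic (Algebra.adjoin k (Set.range s)) (RatFunc K) := by
    exact (IsFractionRing.comap_isAlgebraic_iff (A := Algebra.adjoin k (Set.range s))
      (K := IntermediateField.adjoin k (Set.range s)) (C := RatFunc K)).2 hE
  refine Algebra.IsAlgebraic.isTranscendenceBasis_of_lift_le_trdeg_of_finite k s ?_
  rw [trdeg_ratFunc hl]
  simp only [Cardinal.mk_fin, Cardinal.lift_natCast]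
  exact_mod_cast hd

/-- the components of the covering of a projective space of dimension `l` are permuted
transitively -/
theorem transitive [IsAlgClosed k] [CharZero k] [Fintype J] {m : ℕ} [NeZero m] {ζ : kˣ}
    (hζ : IsPrimitiveRoot (ζ : k) m) {r l : ℕ} {c : Fin r → J → k}
    (hV : Module.finrank k (sol c) ≤ l + 1) {K : Type u} [Field K] [Algebra k K] {K' : Type u}
    [Field K'] [Algebra k K'] {x : J → K} {x' : J → K'} (hl : Algebra.trdeg k K = (l : ℕ))
    (hl' : Algebra.trdeg k K' = (l : ℕ)) (hdeg : degree k x ≠ 0) (hdeg' : degree k x' ≠ 0)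
    (hx : x ≠ 0) (hx' : x' ≠ 0) (hX : diag m c ≤ ideal k x) (hX' : diag m c ≤ ideal k x') :
    ∃ g : J → ZMod m, ideal k x' = act ζ g (ideal k x) := by
  classical
  obtain ⟨b, t, hbt⟩ := lin_sol c
  have key : ∀ {K : Type u} [Field K] [Algebra k K] {x : J → K}, diag m c ≤ ideal k x →
      ∀ i, ∑ j, algebraMap k (RatFunc K) (c i j) * zz x j ^ m = 0 := by
    intro K _ _ x hX i
    have h1 := diag_le_ideal_iff.1 hX i
    have h2 : ∀ j, algebraMap k (RatFunc K) (c i j) * zz x j ^ m =
        algebraMap K (RatFunc K) (algebraMap k K (c i j) * x j ^ m) * RatFunc.X ^ m := by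
      intro j
      rw [zz_eq, mul_pow, IsScalarTower.algebraMap_apply k K (RatFunc K), map_mul, map_pow]
      ring
    rw [Finset.sum_congr rfl fun j _ => h2 j, ← Finset.sum_mul, ← map_sum, h1, map_zero, zero_mul]
  have hy := hbt (RatFunc K) (fun j => zz x j ^ m) (key hX)
  have hy' := hbt (RatFunc K') (fun j => zz x' j ^ m) (key hX')
  have hs := basis_aux hl hdeg hx hV b t hy
  have hs' := basis_aux hl' hdeg' hx' hV b t hy'
  set s : Fin (Module.finrank k (sol c)) → RatFunc K :=
    fun a => ∑ i, algebraMap k (RatFunc K) (t a i) * zz x i ^ m with hsdef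
  set s' : Fin (Module.finrank k (sol c)) → RatFunc K' :=
    fun a => ∑ i, algebraMap k (RatFunc K') (t a i) * zz x' i ^ m with hsdef'
  let L := AlgebraicClosure (RatFunc K')
  let ι : RatFunc K' →ₐ[k] L := IsScalarTower.toAlgHom k (RatFunc K') L
  let f : Algebra.adjoin k (Set.range s) →ₐ[k] L :=
    (ι.comp (MvPolynomial.aeval s')).comp hs.1.aevalEquiv.symm.toAlgHom
  have hf : Function.Injective f := by
    refine (ι.toRingHom.injective.comp ?_).comp hs.1.aevalEquiv.symm.injective
    exact hs'.1
  let _ : Algebra (Algebra.adjoin k (Set.range s)) L := f.toRingHom.toAlgebra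
  have hfs : FaithfulSMul (Algebra.adjoin k (Set.range s)) L :=
    (faithfulSMul_iff_algebraMap_injective _ _).2 hf
  have halg : Algebra.IsAlgebraic (Algebra.adjoin k (Set.range s)) (RatFunc K) := hs.isAlgebraic
  let σ : RatFunc K →ₐ[Algebra.adjoin k (Set.range s)] L := IsAlgClosed.lift
  have hσk : ∀ a : k, σ (algebraMap k (RatFunc K) a) = algebraMap k L a := by
    intro a
    have h1 : algebraMap k (RatFunc K) a = algebraMap (Algebra.adjoin k (Set.range s)) (RatFunc K)
        (algebraMap k _ a) := rfl
    rw [h1, σ.commutes]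
    exact f.commutes a
  have hσs : ∀ a, σ (s a) = ι (s' a) := by
    intro a
    have h1 : s a = algebraMap (Algebra.adjoin k (Set.range s)) (RatFunc K)
        (hs.1.aevalEquiv (MvPolynomial.X a)) := by
      rw [hs.1.algebraMap_aevalEquiv, MvPolynomial.aeval_X]
    rw [h1, σ.commutes]
    show (ι.comp (MvPolynomial.aeval s')) (hs.1.aevalEquiv.symm
      (hs.1.aevalEquiv (MvPolynomial.X a))) = _
    rw [AlgEquiv.symm_apply_apply, AlgHom.comp_apply, MvPolynomial.aeval_X]
  let σk : RatFunc K →ₐ[k] L := { σ.toRingHom with commutes' := hσk }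
  have hpow : ∀ j, σ (zz x j) ^ m = ι (zz x' j) ^ m := by
    intro j
    have h1 : σ (zz x j) ^ m = σ (zz x j ^ m) := (map_pow σ _ _).symm
    have h2 : ι (zz x' j) ^ m = ι (zz x' j ^ m) := (map_pow ι _ _).symm
    have h3 : zz x j ^ m = ∑ a, algebraMap k (RatFunc K) (b a j) * s a := hy j
    have h4 : zz x' j ^ m = ∑ a, algebraMap k (RatFunc K') (b a j) * s' a := hy' j
    rw [h1, h2, h3, h4, map_sum, map_sum]
    refine Finset.sum_congr rfl fun a _ => ?_
    rw [map_mul, map_mul, hσk, hσs, AlgHom.commutes]
  have hζL : IsPrimitiveRoot (algebraMap k L (ζ : k)) m :=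
    hζ.map_of_injective (algebraMap k L).injective
  have hroot : ∀ j, ∃ n : ZMod m, σ (zz x j) = algebraMap k L ((ζ : k) ^ n.val) * ι (zz x' j) := by
    intro j
    by_cases h0 : ι (zz x' j) = 0
    · refine ⟨0, ?_⟩
      rw [h0, mul_zero]
      have := hpow j
      rw [h0, zero_pow (NeZero.ne m)] at this
      exact pow_eq_zero_iff (NeZero.ne m) |>.1 this
    · have h1 : (σ (zz x j) / ι (zz x' j)) ^ m = 1 := by
        rw [div_pow, hpow j, div_self (pow_ne_zero _ h0)]
      obtain ⟨i, hi, hi2⟩ := hζL.eq_pow_of_pow_eq_one h1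
      refine ⟨(i : ZMod m), ?_⟩
      rw [ZMod.val_natCast, Nat.mod_eq_of_lt hi, map_pow, hi2, div_mul_cancel₀ _ h0]
  choose n hn using hroot
  have hζ1 : ζ ^ m = 1 := by
    ext
    rw [Units.val_pow_eq_pow_val, hζ.pow_eq_one, Units.val_one]
  have hmain : ideal k x = act ζ n (ideal k x') := by
    rw [act_ideal, ideal_eq_ker, ideal_eq_ker]
    ext p
    rw [RingHom.mem_ker, RingHom.mem_ker]
    have e1 : σk ((MvPolynomial.aeval (zz x) : MvPolynomial J k →ₐ[k] RatFunc K) p) =
        (MvPolynomial.aeval fun j => σk (zz x j) : MvPolynomial J k →ₐ[k] L) p :=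
      MvPolynomial.comp_aeval_apply (zz x) σk p
    have e2 : ι ((MvPolynomial.aeval (zz fun j => algebraMap k K' ((ζ : k) ^ (n j).val) * x' j) :
        MvPolynomial J k →ₐ[k] RatFunc K') p) =
        (MvPolynomial.aeval fun j => ι (zz (fun j => algebraMap k K' ((ζ : k) ^ (n j).val) * x' j)
          j) : MvPolynomial J k →ₐ[k] L) p :=
      MvPolynomial.comp_aeval_apply _ ι p
    have e3 : (fun j => σk (zz x j)) =
        fun j => ι (zz (fun j => algebraMap k K' ((ζ : k) ^ (n j).val) * x' j) j) := by
      funext j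
      show σ (zz x j) = _
      rw [hn j, zz_eq, zz_eq, map_mul, map_mul, map_mul, map_mul,
        ← IsScalarTower.algebraMap_apply k K' (RatFunc K'), AlgHom.commutes, mul_assoc]
    rw [e3, ← e2] at e1
    constructor
    · intro h
      have h1 : ι ((MvPolynomial.aeval (zz fun j => algebraMap k K' ((ζ : k) ^ (n j).val) * x' j) :
        MvPolynomial J k →ₐ[k] RatFunc K') p) = 0 := by
        rw [← e1]
        have : (MvPolynomial.aeval (zz x) : MvPolynomial J k →ₐ[k] RatFunc K) p = 0 := h
        rw [this, map_zero]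
      exact (map_eq_zero ι).1 h1
    · intro h
      have h1 : σk ((MvPolynomial.aeval (zz x) : MvPolynomial J k →ₐ[k] RatFunc K) p) = 0 := by
        rw [e1]
        have : (MvPolynomial.aeval (zz fun j => algebraMap k K' ((ζ : k) ^ (n j).val) * x' j) :
          MvPolynomial J k →ₐ[k] RatFunc K') p = 0 := h
        rw [this, map_zero]
      exact (map_eq_zero σk).1 h1
  refine ⟨-n, ?_⟩
  rw [hmain, act_act hζ1, neg_add_cancel, act_zero]

end Pool.Agent.LCyc
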