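import Pool.Agent.LCyc.Core5
import Pool.Agent.LCyc.Trans

/-!
# The invariant part of the Chow groups
-/

set_option autoImplicit false

namespace Pool.Agent.LCyc

open Pool.Agent.ZCyc Finset

universe u w

variable {k : Type u} [Field k] {J : Type}

/-- a point over a field of transcendence degree `l` -/
def IsPt (I : Ideal (MvPolynomial J k)) (l : ℕ) (P : Ideal (MvPolynomial J k)) : Prop :=
  ∃ (K : Type u) (_ : Field K) (_ : Algebra k K) (x : J → K), x ≠ 0 ∧
    Algebra.trdeg k K = (l : ℕ) ∧ degree k x ≠ 0 ∧ I ≤ ideal k x ∧ P = ideal k x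

lemma ratEquiv_mono {R : Type w} [Field R] {I I' : Ideal (MvPolynomial J k)} (h : I ≤ I')
    (l : ℕ) : ratEquiv R I' l ≤ ratEquiv R I l := by
  apply Submodule.span_mono
  rintro z ⟨F, i1, i2, hF, hl, x, hx, hI, f, hf, rfl⟩
  exact ⟨F, i1, i2, hF, hl, x, hx, h.trans hI, f, hf, rfl⟩

section Lin

variable [Fintype J] [DecidableEq J] {r : ℕ}

/-- one more equation -/
def addEq (c : Fin r → J → k) (j₁ : J) : Fin (r + 1) → J → k :=
  Fin.cons (Pi.single j₁ 1) c

lemma mem_sol_addEq {c : Fin r → J → k} {j₁ : J} {w : J → k} :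
    w ∈ sol (addEq c j₁) ↔ w ∈ sol c ∧ w j₁ = 0 := by
  rw [mem_sol, mem_sol, Fin.forall_fin_succ, and_comm]
  have h1 : ∑ j, addEq c j₁ 0 j * w j = w j₁ := by
    simp [addEq, Pi.single_apply]
  rw [h1]
  simp [addEq]

lemma diag_le_addEq {m : ℕ} (c : Fin r → J → k) (j₁ : J) : diag m c ≤ diag m (addEq c j₁) := by
  apply Ideal.span_mono
  rintro _ ⟨i, rfl⟩
  exact ⟨i.succ, by simp [addEq]⟩

lemma diag_addEq_le {m : ℕ} (hm : 0 < m) {c : Fin r → J → k} {j₁ : J} {K : Type*} [Field K]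
    [Algebra k K] {y : J → K} (h : diag m c ≤ ideal k y) (hy : y j₁ = 0) :
    diag m (addEq c j₁) ≤ ideal k y := by
  rw [diag_le_ideal_iff] at h ⊢
  intro i
  refine Fin.cases ?_ (fun i => ?_) i
  · rw [Finset.sum_eq_single j₁]
    · rw [hy, zero_pow hm.ne', mul_zero]
    · intro j _ hj
      simp [addEq, Pi.single_apply, hj]
    · simp
  · simpa [addEq] using h i

lemma finrank_addEq {c : Fin r → J → k} {j₁ : J} {w : J → k} (hw : w ∈ sol c) (hj : w j₁ ≠ 0) :
    Module.finrank k (sol (addEq c j₁)) + 1 = Module.finrank k (sol c) := by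
  set φ : sol c →ₗ[k] k := (LinearMap.proj j₁).comp (sol c).subtype with hφ
  have h1 := LinearMap.finrank_range_add_finrank_ker φ
  have h2 : LinearMap.range φ = ⊤ := by
    rw [LinearMap.range_eq_top]
    intro t
    refine ⟨(t * (w j₁)⁻¹) • ⟨w, hw⟩, ?_⟩
    rw [map_smul]
    change (t * (w j₁)⁻¹) • w j₁ = t
    rw [smul_eq_mul, mul_assoc, inv_mul_cancel₀ hj, mul_one]
  have h3 : (LinearMap.ker φ).map (sol c).subtype = sol (addEq c j₁) := by
    ext v
    rw [mem_sol_addEq, Submodule.mem_map]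
    constructor
    · rintro ⟨⟨u, hu⟩, hu2, rfl⟩
      exact ⟨hu, hu2⟩
    · rintro ⟨hv, hv2⟩
      exact ⟨⟨v, hv⟩, hv2, rfl⟩
  rw [h2, finrank_top, Module.finrank_self, ← Submodule.finrank_map_subtype_eq, h3] at h1
  omega

end Lin

variable [IsAlgClosed k] [CharZero k] [Fintype J] [DecidableEq J] {m : ℕ} [NeZero m]
  {R : Type w} [Field R] [CharZero R] {ζ : kˣ}

/-- the invariant part is generated by one element -/
theorem invariant (hζ : IsPrimitiveRoot (ζ : k) m) (l : ℕ) : ∀ (n r : ℕ) (c : Fin r → J → k),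
    Module.finrank k (sol c) ≤ n → ∃ z₀ : Ideal (MvPolynomial J k) →₀ R,
      (z₀ = 0 ∨ ∃ P, IsPt (diag m c) l P ∧
        z₀ = op ζ (1 : AddChar (J → ZMod m) R) (Finsupp.single P 1)) ∧
      ∀ P, IsPt (diag m c) l P →
        op ζ (1 : AddChar (J → ZMod m) R) (Finsupp.single P 1) ∈
          ratEquiv R (diag m c) l ⊔ Submodule.span R {z₀} := by
  have hm : 0 < m := NeZero.pos m
  have hζ1 : ζ ^ m = 1 := zeta_pow hζ
  intro n
  induction n with
  | zero =>
    intro r c hn
    -- contained in the general case below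
    by_cases h : ∃ P, IsPt (diag m c) l P
    · obtain ⟨P₀, hP₀⟩ := h
      refine ⟨_, Or.inr ⟨P₀, hP₀, rfl⟩, ?_⟩
      obtain ⟨K, _, _, x, hx, hl, hdeg, hX, rfl⟩ := hP₀
      rintro _ ⟨K', _, _, x', hx', hl', hdeg', hX', rfl⟩
      obtain ⟨g, hg⟩ := transitive hζ (hn.trans (Nat.zero_le _)) hl hl' hdeg hdeg' hx hx' hX hX'
      have h7 := op_act hζ1 (1 : AddChar (J → ZMod m) R) g (ideal k x)
      rw [AddChar.one_apply, one_smul] at h7
      rw [hg, h7]
      exact Submodule.mem_sup_right (Submodule.mem_span_singleton_self _)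
    · exact ⟨0, Or.inl rfl, fun P hP => absurd ⟨P, hP⟩ h⟩
  | succ n ih =>
    intro r c hn
    by_cases hsmall : Module.finrank k (sol c) ≤ l + 1
    · by_cases h : ∃ P, IsPt (diag m c) l P
      · obtain ⟨P₀, hP₀⟩ := h
        refine ⟨_, Or.inr ⟨P₀, hP₀, rfl⟩, ?_⟩
        obtain ⟨K, _, _, x, hx, hl, hdeg, hX, rfl⟩ := hP₀
        rintro _ ⟨K', _, _, x', hx', hl', hdeg', hX', rfl⟩
        obtain ⟨g, hg⟩ := transitive hζ hsmall hl hl' hdeg hdeg' hx hx' hX hX'
        have h7 := op_act hζ1 (1 : AddChar (J → ZMod m) R) g (ideal k x)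
        rw [AddChar.one_apply, one_smul] at h7
        rw [hg, h7]
        exact Submodule.mem_sup_right (Submodule.mem_span_singleton_self _)
      · exact ⟨0, Or.inl rfl, fun P hP => absurd ⟨P, hP⟩ h⟩
    · push Not at hsmall
      -- a coordinate which is not zero
      obtain ⟨w, hw, j₁, hj₁⟩ : ∃ w ∈ sol c, ∃ j₁, w j₁ ≠ 0 := by
        by_contra hcon
        push Not at hcon
        have h1 : sol c = ⊥ := by
          rw [eq_bot_iff]
          intro w hw
          rw [Submodule.mem_bot]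
          exact funext (hcon w hw)
        rw [h1, finrank_bot] at hsmall
        omega
      have h1 := finrank_addEq hw hj₁
      obtain ⟨z₀, hz₀, h2⟩ := ih (r + 1) (addEq c j₁) (by omega)
      have hle : ratEquiv R (diag m (addEq c j₁)) l ⊔ Submodule.span R {z₀} ≤
          ratEquiv R (diag m c) l ⊔ Submodule.span R {z₀} :=
        sup_le_sup_right (ratEquiv_mono (diag_le_addEq c j₁) l) _
      refine ⟨z₀, ?_, ?_⟩
      · rcases hz₀ with h | ⟨P, ⟨K, i1, i2, x, hx, hl, hdeg, hX, hP⟩, h⟩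
        · exact Or.inl h
        · exact Or.inr ⟨P, ⟨K, i1, i2, x, hx, hl, hdeg, (diag_le_addEq c j₁).trans hX, hP⟩, h⟩
      · rintro _ ⟨K, _, _, x, hx, hl, hdeg, hX, rfl⟩
        by_cases hxj : x j₁ = 0
        · exact hle (h2 _ ⟨K, _, _, x, hx, hl, hdeg, diag_addEq_le hm hX hxj, rfl⟩)
        · have hc : (x j₁)⁻¹ ≠ 0 := inv_ne_zero hxj
          rw [← ideal_smul hc x]
          apply step0 (j₁ := j₁) (W := sol (addEq c j₁)) (c := c) hζ
            (fun v hv => (mem_sol_addEq.1 hv).1) (fun v hv => (mem_sol_addEq.1 hv).2) (by omega) hl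
          · rwa [degree_smul hc]
          · rwa [ideal_smul hc]
          · exact inv_mul_cancel₀ hxj
          · exact le_sup_left
          · intro K' _ _ y hy hl' hdeg' hX' hy0
            exact hle (h2 _ ⟨K', _, _, y, hy, hl', hdeg', diag_addEq_le hm hX' hy0, rfl⟩)

end Pool.Agent.LCyc
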