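import Pool.Agent.LCyc.Core4

/-!
# The block criterion
-/

set_option autoImplicit false

namespace Pool.Agent.LCyc

open Pool.Agent.ZCyc Finset

universe u w

variable {k : Type u} [Field k] {J : Type}

lemma blk_smul {K : Type*} [Field K] [Algebra k K] (S : Finset J) {β : Type} (b : J → β) (j₀ : J)
    (m : ℕ) {c : K} (hc : c ≠ 0) (x : J → K) :
    blk k S b j₀ m (fun j => c * x j) = blk k S b j₀ m x := by
  have h : ∀ i j, (c * x i) ^ m / (c * x j) ^ m = x i ^ m / x j ^ m := by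
    intro i j
    rw [mul_pow, mul_pow, mul_div_mul_left _ _ (pow_ne_zero m hc)]
  simp only [blk, h]

variable [IsAlgClosed k] [CharZero k] [Fintype J] [DecidableEq J] {m : ℕ} [NeZero m]
  {R : Type w} [Field R] [CharZero R] {ζ : kˣ}

/-- the block criterion for points -/
theorem vanish_point (hζ : IsPrimitiveRoot (ζ : k) m) {ω : R} (hω : IsPrimitiveRoot ω m)
    {ψ : AddChar (J → ZMod m) R} {a : J → ZMod m} (ha : ∀ t, ψ t = ω ^ (∑ j, a j * t j).val)
    {S : Finset J} (hS : ∀ j, j ∈ S ↔ a j ≠ 0) (hSne : S.Nonempty) {β : Type} [DecidableEq β]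
    {b : J → β} (hsum : ∀ B, ∑ j ∈ S with b j = B, a j = 0) {r l : ℕ} {c : Fin r → J → k}
    (hcard : l + r + S.card < Fintype.card J + (S.image b).card) {K : Type u} [Field K]
    [Algebra k K] {x : J → K} (hx : x ≠ 0) (hl : Algebra.trdeg k K = (l : ℕ))
    (hdeg : degree k x ≠ 0) (hX : diag m c ≤ ideal k x) :
    op ζ ψ (Finsupp.single (ideal k x) 1) ∈ ratEquiv R (diag m c) l := by
  obtain ⟨j₀, hj₀⟩ := hSne
  obtain ⟨j₁, hj₁, hne, hbb⟩ : ∃ j₁ ∈ S, j₁ ≠ j₀ ∧ b j₁ = b j₀ := by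
    by_contra hcon
    push Not at hcon
    have h1 := hsum (b j₀)
    rw [Finset.sum_eq_single j₀] at h1
    · exact (hS j₀).1 hj₀ h1
    · intro j hj hjj
      rw [Finset.mem_filter] at hj
      exact absurd hj.2 (hcon j hj.1 hjj)
    · intro h
      have h2 : j₀ ∈ S.filter fun j => b j = b j₀ := Finset.mem_filter.2 ⟨hj₀, rfl⟩
      exact absurd h2 h
  have hζ1 : ζ ^ m = 1 := zeta_pow hζ
  -- induction
  have key : ∀ (n : Cardinal.{u}) (K : Type u) [Field K] [Algebra k K] (x : J → K), x ≠ 0 →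
      Algebra.trdeg k K = (l : ℕ) → degree k x ≠ 0 → diag m c ≤ ideal k x →
      (∀ j ∈ S, x j ≠ 0) → Algebra.trdeg k (blk k S b j₀ m x) = n →
      op ζ ψ (Finsupp.single (ideal k x) 1) ∈ ratEquiv R (diag m c) l := by
    intro n
    induction n using WellFoundedLT.induction with
    | ind n ih =>
      intro K _ _ x hx hl hdeg hX hxS hn
      have hc : (x j₁)⁻¹ ≠ 0 := inv_ne_zero (hxS j₁ hj₁)
      rw [← ideal_smul hc x]
      apply step hζ hω ha hS hsum hj₀ hj₁ hne hbb hcard hl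
      · rwa [degree_smul hc]
      · rwa [ideal_smul hc]
      · exact inv_mul_cancel₀ (hxS j₁ hj₁)
      · exact fun j hj => mul_ne_zero hc (hxS j hj)
      · intro K' _ _ y hy hl' hdeg' hX' hyS hlt
        rw [blk_smul S b j₀ m hc, hn] at hlt
        exact ih _ hlt K' y hy hl' hdeg' hX' hyS rfl
  by_cases h : ∃ j ∈ S, x j = 0
  · obtain ⟨j, hj, h⟩ := h
    rw [killed hζ1 hω ha ((hS j).1 hj) h]
    exact Submodule.zero_mem _
  · push Not at h
    exact key _ K x hx hl hdeg hX h rfl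

/-- the block criterion for prime cycles -/
theorem vanish (hζ : IsPrimitiveRoot (ζ : k) m) {ω : R} (hω : IsPrimitiveRoot ω m)
    {ψ : AddChar (J → ZMod m) R} {a : J → ZMod m} (ha : ∀ t, ψ t = ω ^ (∑ j, a j * t j).val)
    {S : Finset J} (hS : ∀ j, j ∈ S ↔ a j ≠ 0) (hSne : S.Nonempty) {β : Type} [DecidableEq β]
    {b : J → β} (hsum : ∀ B, ∑ j ∈ S with b j = B, a j = 0) {r l : ℕ} {c : Fin r → J → k}
    (hcard : l + r + S.card < Fintype.card J + (S.image b).card)
    {P : Ideal (MvPolynomial J k)} (hP : IsPrimeCycle (diag m c) l P) :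
    op ζ ψ (Finsupp.single P 1) ∈ ratEquiv R (diag m c) l := by
  have hI := hP.2.1
  obtain ⟨K, _, _, x, hx, hl, hdeg, hPx⟩ := exists_point hP
  rw [hPx] at hI ⊢
  exact vanish_point hζ hω ha hS hSne hsum hcard hx hl hdeg hI

end Pool.Agent.LCyc
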